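import Pool.Agent.Lib.MP_2cf74a_ag.TR.Block

/-!
Three blocks of rows in a square pattern.
-/

open Finset

namespace Pool.MP_2cf74a

/-- The columns unspecified in row `i`. -/
def unk {n : ℕ} (E : Finset (Fin n × Fin n)) (i : Fin n) : Finset (Fin n) :=
  univ.filter (fun j => (i, j) ∉ E)

/-- The rows unspecified in column `j`. -/
def unkc {n : ℕ} (E : Finset (Fin n × Fin n)) (j : Fin n) : Finset (Fin n) :=
  univ.filter (fun i => (i, j) ∉ E)

theorem mem_unk {n : ℕ} {E : Finset (Fin n × Fin n)} {i j : Fin n} :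
    j ∈ unk E i ↔ (i, j) ∉ E := by
  simp [unk]

theorem mem_unkc {n : ℕ} {E : Finset (Fin n × Fin n)} {i j : Fin n} :
    i ∈ unkc E j ↔ (i, j) ∉ E := by
  simp [unkc]

theorem full_card {n : ℕ} {E : Finset (Fin n × Fin n)} (S : Finset (Fin n)) :
    ((univ : Finset (Fin n)).filter (fun j => ∀ i ∈ S, (i, j) ∈ E)).card
      + (S.biUnion (unk E)).card = n := by
  have h1 : (univ : Finset (Fin n)).filter (fun j => ∀ i ∈ S, (i, j) ∈ E) =
      univ \ S.biUnion (unk E) := by
    ext j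
    simp only [Finset.mem_filter, Finset.mem_univ, true_and, Finset.mem_sdiff,
      Finset.mem_biUnion, mem_unk, not_exists, not_and, not_not]
  have h2 := Finset.card_le_univ (S.biUnion (unk E))
  rw [Fintype.card_fin] at h2
  rw [h1, Finset.card_sdiff_of_subset (Finset.subset_univ _), Finset.card_univ, Fintype.card_fin]
  omega

/-- Three blocks of rows. -/
theorem good_three_blocks {n : ℕ} {E : Finset (Fin n × Fin n)} (A₂ A₃ : Finset (Fin n))
    (hd : Disjoint A₂ A₃) (h3 : 3 ≤ (A₃.biUnion (unk E)).card)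
    (h2 : 2 + A₃.card ≤ (A₂.biUnion (unk E)).card)
    (h1 : 1 + A₂.card + A₃.card ≤ ((univ \ (A₂ ∪ A₃)).biUnion (unk E)).card) :
    Good E (n - 3) univ univ := by
  have hc3 : 0 < A₃.card := by
    rw [Finset.card_pos, Finset.nonempty_iff_ne_empty]
    rintro rfl
    rw [Finset.biUnion_empty, Finset.card_empty] at h3
    omega
  have hc2 : 0 < A₂.card := by
    rw [Finset.card_pos, Finset.nonempty_iff_ne_empty]
    rintro rfl
    rw [Finset.biUnion_empty, Finset.card_empty] at h2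
    omega
  have hc1 : 0 < (univ \ (A₂ ∪ A₃)).card := by
    rw [Finset.card_pos, Finset.nonempty_iff_ne_empty]
    intro h
    rw [h, Finset.biUnion_empty, Finset.card_empty] at h1
    omega
  have hu : (A₂ ∪ A₃).card = A₂.card + A₃.card := Finset.card_union_of_disjoint hd
  have hr : (univ \ (A₂ ∪ A₃)).card = n - (A₂.card + A₃.card) := by
    rw [Finset.card_sdiff_of_subset (Finset.subset_univ _), Finset.card_univ, Fintype.card_fin, hu]
  have f1 := full_card (E := E) (univ \ (A₂ ∪ A₃))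
  have f2 := full_card (E := E) A₂
  have f3 := full_card (E := E) A₃
  obtain ⟨s₁, hs₁⟩ : ∃ s₁, (univ \ (A₂ ∪ A₃)).card = s₁ + 1 := ⟨_, (Nat.sub_add_cancel hc1).symm⟩
  obtain ⟨s₂, hs₂⟩ : ∃ s₂, A₂.card = s₂ + 1 := ⟨_, (Nat.sub_add_cancel hc2).symm⟩
  obtain ⟨s₃, hs₃⟩ : ∃ s₃, A₃.card = s₃ + 1 := ⟨_, (Nat.sub_add_cancel hc3).symm⟩
  have g1 : Good E (0 + s₁) (∅ ∪ (univ \ (A₂ ∪ A₃))) univ :=
    good_block (good_of_rows (by rw [Finset.card_empty])) (Finset.disjoint_empty_left _) hs₁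
      (by omega)
  rw [Finset.empty_union] at g1
  have d2 : Disjoint (univ \ (A₂ ∪ A₃)) A₂ :=
    Finset.disjoint_of_subset_right Finset.subset_union_left Finset.sdiff_disjoint
  have g2 := good_block g1 d2 hs₂ (by omega)
  have d3 : Disjoint ((univ \ (A₂ ∪ A₃)) ∪ A₂) A₃ := by
    rw [Finset.disjoint_union_left]
    exact ⟨Finset.disjoint_of_subset_right Finset.subset_union_right Finset.sdiff_disjoint, hd⟩
  have g3 := good_block g2 d3 hs₃ (by omega)
  have e : univ \ (A₂ ∪ A₃) ∪ A₂ ∪ A₃ = univ := by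
    rw [Finset.union_assoc, Finset.sdiff_union_of_subset (Finset.subset_univ _)]
  rw [e] at g3
  have : 0 + s₁ + s₂ + s₃ = n - 3 := by omega
  rwa [this] at g3

end Pool.MP_2cf74a
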