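import Mathlib

/-!
Real matrix completion: completion rank, typical ranks, and the working notions for upper bounds
on typical ranks.
-/

open Finset

namespace Pool.MP_2cf74a

/-- The matrix `M` is a completion of the partial matrix `x` with specified positions `E`. -/
def Completes {m n : ℕ} (E : Finset (Fin m × Fin n)) (x : E → ℝ)
    (M : Matrix (Fin m) (Fin n) ℝ) : Prop :=
  ∀ e : E, M e.1.1 e.1.2 = x e

/-- The completion rank of a real partial matrix: the least rank of a real completion. -/
noncomputable def complRank {m n : ℕ} (E : Finset (Fin m × Fin n)) (x : E → ℝ) : ℕ :=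
  sInf {r | ∃ M : Matrix (Fin m) (Fin n) ℝ, Completes E x M ∧ M.rank = r}

/-- `r` is a typical rank of the bipartite graph `E`: the partial matrices of completion rank `r`
contain a nonempty open set. -/
def Typical {m n : ℕ} (E : Finset (Fin m × Fin n)) (r : ℕ) : Prop :=
  (interior {x : E → ℝ | complRank E x = r}).Nonempty

/-- Number of specified positions in the rows `T` and the columns `J`. -/
def cnt {m n : ℕ} (E : Finset (Fin m × Fin n)) (T : Finset (Fin m)) (J : Finset (Fin n)) : ℕ :=
  (E.filter (fun p => p.1 ∈ T ∧ p.2 ∈ J)).card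

/-- The data `X` on the rows `T`, columns `J` can be completed with a product of inner size `R`. -/
def Fac {m n : ℕ} (E : Finset (Fin m × Fin n)) (R : ℕ) (T : Finset (Fin m)) (J : Finset (Fin n))
    (X : Fin m → Fin n → ℝ) : Prop :=
  ∃ (A : Fin m → Fin R → ℝ) (B : Fin R → Fin n → ℝ),
    ∀ i ∈ T, ∀ j ∈ J, (i, j) ∈ E → ∑ a, A i a * B a j = X i j

/-- The completable data are dense. -/
def Good {m n : ℕ} (E : Finset (Fin m × Fin n)) (R : ℕ) (T : Finset (Fin m))
    (J : Finset (Fin n)) : Prop :=
  Dense {X : Fin m → Fin n → ℝ | Fac E R T J X}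

/-- Any at most `R` of the vectors are linearly independent. -/
def GP {m R : ℕ} (A : Fin m → Fin R → ℝ) : Prop :=
  ∀ K : Finset (Fin m), K.card ≤ R → LinearIndependent ℝ (fun i : K => A i)

end Pool.MP_2cf74a
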