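import Pool.Agent.Lib.MP_2cf74a_ag.TR.Base

/-!
ROW Basic (about 70 lines).  PROOF IN WORDS.
(1) fac_of_type: a factorisation over a finite index type of at most R elements gives one over Fin R
(embed the type into Fin R, extend both factors by 0 with Function.extend, Fintype.sum_of_injective).
(2) good_mono: fac_of_type with Fin R, and Dense.mono.  (3) good_of_rows: index type {i // i in T}, A i a = 1 if
a = i else 0, B a j = X a j; every X is completable (dense_univ or Dense of univ).  (4) good_of_cols: the same with
{j // j in J}.  (5) good_swap: the map X -> (fun j i => X i j) is a homeomorphism; or: dense under a continuous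
surjection (DenseRange.dense_image) and swap the two factors.  cnt_swap: Finset.card_image_of_injective /
card_bij.
-/

open Finset

namespace Pool.MP_2cf74a

theorem fac_of_type {m n : ℕ} {E : Finset (Fin m × Fin n)} {R : ℕ} {T : Finset (Fin m)}
    {J : Finset (Fin n)} {X : Fin m → Fin n → ℝ} (ι : Type) [Fintype ι]
    (hι : Fintype.card ι ≤ R) (A : Fin m → ι → ℝ) (B : ι → Fin n → ℝ)
    (h : ∀ i ∈ T, ∀ j ∈ J, (i, j) ∈ E → ∑ a, A i a * B a j = X i j) : Fac E R T J X := by
  classical
  set e : ι → Fin R := fun a => Fin.castLE hι (Fintype.equivFin ι a) with he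
  have hinj : Function.Injective e := fun a b hab =>
    (Fintype.equivFin ι).injective (Fin.castLE_injective hι hab)
  refine ⟨fun i => Function.extend e (A i) 0, fun b j => Function.extend e (fun a => B a j) 0 b,
    fun i hi j hj hij => ?_⟩
  rw [← h i hi j hj hij]
  symm
  refine Fintype.sum_of_injective e hinj _ _ ?_ ?_
  · intro b hb
    have hb' : ¬ ∃ a, e a = b := fun ⟨a, ha⟩ => hb ⟨a, ha⟩
    beta_reduce
    rw [Function.extend_apply' _ _ _ hb', Pi.zero_apply, zero_mul]
  · intro a
    beta_reduce
    rw [hinj.extend_apply, hinj.extend_apply]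

theorem good_mono {m n : ℕ} {E : Finset (Fin m × Fin n)} {R R' : ℕ} {T : Finset (Fin m)}
    {J : Finset (Fin n)} (hR : R ≤ R') (h : Good E R T J) : Good E R' T J := by
  refine Dense.mono ?_ h
  rintro X ⟨A, B, hAB⟩
  exact fac_of_type (Fin R) (by rw [Fintype.card_fin]; exact hR) A B hAB

theorem good_of_rows {m n : ℕ} {E : Finset (Fin m × Fin n)} {R : ℕ} {T : Finset (Fin m)}
    {J : Finset (Fin n)} (h : T.card ≤ R) : Good E R T J := by
  classical
  have h1 : {X : Fin m → Fin n → ℝ | Fac E R T J X} = Set.univ := by
    refine Set.eq_univ_of_forall fun X => ?_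
    refine fac_of_type {i // i ∈ T} (by rw [Fintype.card_coe]; exact h)
      (fun i a => if i = a.1 then 1 else 0) (fun a j => X a.1 j) fun i hi j _ _ => ?_
    rw [Finset.sum_eq_single (⟨i, hi⟩ : {i // i ∈ T})]
    · rw [if_pos rfl, one_mul]
    · intro b _ hb
      rw [if_neg, zero_mul]
      intro hib
      exact hb (Subtype.ext hib.symm)
    · intro hb
      exact absurd (Finset.mem_univ _) hb
  unfold Good
  rw [h1]
  exact dense_univ

theorem good_of_cols {m n : ℕ} {E : Finset (Fin m × Fin n)} {R : ℕ} {T : Finset (Fin m)}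
    {J : Finset (Fin n)} (h : J.card ≤ R) : Good E R T J := by
  classical
  have h1 : {X : Fin m → Fin n → ℝ | Fac E R T J X} = Set.univ := by
    refine Set.eq_univ_of_forall fun X => ?_
    refine fac_of_type {j // j ∈ J} (by rw [Fintype.card_coe]; exact h)
      (fun i a => X i a.1) (fun a j => if j = a.1 then 1 else 0) fun i _ j hj _ => ?_
    rw [Finset.sum_eq_single (⟨j, hj⟩ : {j // j ∈ J})]
    · rw [if_pos rfl, mul_one]
    · intro b _ hb
      rw [if_neg, mul_zero]
      intro hib
      exact hb (Subtype.ext hib.symm)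
    · intro hb
      exact absurd (Finset.mem_univ _) hb
  unfold Good
  rw [h1]
  exact dense_univ

private theorem basic_swap {m n : ℕ} {E : Finset (Fin m × Fin n)} {R : ℕ} {T : Finset (Fin m)}
    {J : Finset (Fin n)} (h : Good E R T J) : Good (E.image Prod.swap) R J T := by
  let φ : (Fin n → Fin m → ℝ) ≃ₜ (Fin m → Fin n → ℝ) :=
    { toFun := fun Y i j => Y j i
      invFun := fun X j i => X i j
      left_inv := fun _ => rfl
      right_inv := fun _ => rfl
      continuous_toFun := continuous_pi fun i => continuous_pi fun j =>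
        (continuous_apply i).comp (continuous_apply j)
      continuous_invFun := continuous_pi fun j => continuous_pi fun i =>
        (continuous_apply j).comp (continuous_apply i) }
  have h1 : Dense (φ ⁻¹' {X : Fin m → Fin n → ℝ | Fac E R T J X}) := h.preimage φ.isOpenMap
  refine Dense.mono ?_ h1
  rintro Y ⟨A, B, hAB⟩
  refine ⟨fun j a => B a j, fun a i => A i a, fun j hj i hi hji => ?_⟩
  obtain ⟨p, hp, hpe⟩ := Finset.mem_image.1 hji
  have h2 : p = (i, j) := by
    rw [← Prod.swap_swap p, hpe]
    rfl
  rw [h2] at hp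
  have h3 : ∑ a, A i a * B a j = Y j i := hAB i hi j hj hp
  rw [← h3]
  exact Finset.sum_congr rfl fun a _ => mul_comm _ _

theorem good_swap {m n : ℕ} {E : Finset (Fin m × Fin n)} {R : ℕ} {T : Finset (Fin m)}
    {J : Finset (Fin n)} : Good (E.image Prod.swap) R J T ↔ Good E R T J := by
  constructor
  · intro h
    have h1 := basic_swap h
    rwa [Finset.image_image, Prod.swap_swap_eq, Finset.image_id] at h1
  · exact basic_swap

theorem cnt_swap {m n : ℕ} (E : Finset (Fin m × Fin n)) (T : Finset (Fin m))
    (J : Finset (Fin n)) : cnt (E.image Prod.swap) J T = cnt E T J := by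
  unfold cnt
  rw [Finset.filter_image, Finset.card_image_of_injective _ Prod.swap_injective]
  congr 1
  refine Finset.filter_congr fun p _ => ?_
  rw [Prod.fst_swap, Prod.snd_swap]
  exact and_comm

end Pool.MP_2cf74a
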