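import Pool.Agent.Lib.MP_2cf74a_ag.TR.Unif
import Pool.Agent.Lib.MP_2cf74a_ag.TR.Basic

/-!
Adding a block of rows: the completable data stay dense when the inner size grows by the size of
the block minus one, provided few columns are completely specified on the block.
-/

open Finset Filter Topology

namespace Pool.MP_2cf74a

private theorem surj_of_gp {n R : ℕ} {B : Fin R → Fin n → ℝ} (hB : GP (fun j a => B a j))
    (K : Finset (Fin n)) (hK : K.card ≤ R) (y : Fin n → ℝ) :
    ∃ β : Fin R → ℝ, ∀ j ∈ K, ∑ a, β a * B a j = y j := by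
  classical
  let M : Matrix K (Fin R) ℝ := fun j a => B a j
  have hli : LinearIndependent ℝ M.row := hB K hK
  have hr : M.rank = Fintype.card K := hli.rank_matrix
  have htop : LinearMap.range M.mulVecLin = ⊤ := by
    apply Submodule.eq_top_of_finrank_eq
    have : Module.finrank ℝ (LinearMap.range M.mulVecLin) = M.rank := rfl
    rw [this, hr, Module.finrank_fintype_fun_eq_card]
  have hy : (fun j : K => y j) ∈ LinearMap.range M.mulVecLin := by
    rw [htop]; trivial
  obtain ⟨β, hβ⟩ := hy
  refine ⟨β, fun j hj => ?_⟩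
  have := congrFun hβ ⟨j, hj⟩
  simp only [Matrix.mulVecLin_apply, Matrix.mulVec, dotProduct] at this
  rw [← this]
  exact Finset.sum_congr rfl fun a _ => mul_comm _ _

private theorem inj_of_gp {n R : ℕ} {B : Fin R → Fin n → ℝ} (hB : GP (fun j a => B a j))
    (K : Finset (Fin n)) (hK : R ≤ K.card) (β : Fin R → ℝ)
    (h : ∀ j ∈ K, ∑ a, β a * B a j = 0) : β = 0 := by
  classical
  obtain ⟨K', hK', hcard⟩ := Finset.exists_subset_card_eq hK
  let M : Matrix K' (Fin R) ℝ := fun j a => B a j
  have hsurj : Function.Surjective M.mulVecLin := by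
    intro y
    obtain ⟨γ, hγ⟩ := surj_of_gp hB K' (le_of_eq hcard)
      (fun j => if hj : j ∈ K' then y ⟨j, hj⟩ else 0)
    refine ⟨γ, ?_⟩
    ext j
    have := hγ j.1 j.2
    simp only [Matrix.mulVecLin_apply, Matrix.mulVec, dotProduct]
    rw [dif_pos j.2] at this
    rw [← this]
    exact Finset.sum_congr rfl fun a _ => mul_comm _ _
  have hinj : Function.Injective M.mulVecLin := by
    rw [LinearMap.injective_iff_surjective_of_finrank_eq_finrank]
    · exact hsurj
    · rw [Module.finrank_fintype_fun_eq_card, Module.finrank_fintype_fun_eq_card,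
        Fintype.card_fin, Fintype.card_coe, hcard]
  apply hinj
  rw [map_zero]
  ext j
  simp only [Matrix.mulVecLin_apply, Matrix.mulVec, dotProduct, Pi.zero_apply]
  rw [← h j.1 (hK' j.2)]
  exact Finset.sum_congr rfl fun a _ => mul_comm _ _

private theorem fill {m n : ℕ} {E : Finset (Fin m × Fin n)} {R s : ℕ} {T S : Finset (Fin m)}
    {J : Finset (Fin n)} (hs : S.card = s + 1)
    {X : Fin m → Fin n → ℝ} {A : Fin m → Fin R → ℝ} {B : Fin R → Fin n → ℝ}
    (hAB : ∀ i ∈ T, ∀ j ∈ J, (i, j) ∈ E → ∑ a, A i a * B a j = X i j)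
    {c : Fin m → ℝ} (hc : ∀ i ∈ S, c i ≠ 0) {β : Fin R → ℝ}
    (hrel : ∀ j ∈ J, (∀ i ∈ S, (i, j) ∈ E) →
      ∑ i ∈ S, c i * X i j + ∑ a, β a * B a j = 0) :
    Fac E (R + s) (T ∪ S) J X := by
  classical
  have hw : ∀ j ∈ J, ∃ w : Fin m → ℝ, (∀ i ∈ S, (i, j) ∈ E → w i = X i j) ∧
      ∑ i ∈ S, c i * w i + ∑ a, β a * B a j = 0 := by
    intro j hj
    by_cases hall : ∀ i ∈ S, (i, j) ∈ E
    · exact ⟨fun i => X i j, fun _ _ _ => rfl, hrel j hj hall⟩
    · push Not at hall
      obtain ⟨i₀, hi₀, hnot⟩ := hall
      refine ⟨Function.update (fun i => X i j) i₀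
        (-(∑ i ∈ S.erase i₀, c i * X i j + ∑ a, β a * B a j) / c i₀), ?_, ?_⟩
      · intro i _ hE
        have hne : i ≠ i₀ := by rintro rfl; exact hnot hE
        rw [Function.update_of_ne hne]
      · rw [← Finset.add_sum_erase S _ hi₀, Function.update_self]
        have : ∑ i ∈ S.erase i₀, c i * Function.update (fun i => X i j) i₀
            (-(∑ i ∈ S.erase i₀, c i * X i j + ∑ a, β a * B a j) / c i₀) i
            = ∑ i ∈ S.erase i₀, c i * X i j := by
          refine Finset.sum_congr rfl fun i hi => ?_
          rw [Function.update_of_ne (Finset.ne_of_mem_erase hi)]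
        rw [this]
        have := hc i₀ hi₀
        field_simp
        ring
  choose! M hM1 hM2 using hw
  have hne : S.Nonempty := by
    rw [← Finset.card_pos]; omega
  obtain ⟨i₁, hi₁⟩ := hne
  refine fac_of_type (Fin R ⊕ {i // i ∈ S.erase i₁}) ?_
    (fun i k => Sum.elim (fun a => if i ∈ T then A i a else if i = i₁ then -β a / c i₁ else 0)
      (fun l => if i ∈ T then 0 else if i = i₁ then -c l.1 / c i₁ else
        if i = l.1 then 1 else 0) k)
    (fun k j => Sum.elim (fun a => B a j) (fun l => M j l.1) k) ?_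
  · rw [Fintype.card_sum, Fintype.card_fin, Fintype.card_coe, Finset.card_erase_of_mem hi₁]
    omega
  · intro i hi j hj hE
    rw [Fintype.sum_sum_type]
    simp only [Sum.elim_inl, Sum.elim_inr]
    by_cases hiT : i ∈ T
    · simp only [if_pos hiT, zero_mul, Finset.sum_const_zero, add_zero]
      exact hAB i hiT j hj hE
    · have hiS : i ∈ S := by
        rcases Finset.mem_union.1 hi with h | h
        · exact absurd h hiT
        · exact h
      simp only [if_neg hiT]
      by_cases hi1 : i = i₁
      · subst hi1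
        simp only [if_true]
        have h2 := hM2 j hj
        rw [← Finset.add_sum_erase S _ hiS] at h2
        have h3 : ∑ l : {l // l ∈ S.erase i}, -c l.1 / c i * M j l.1 =
            ∑ l ∈ S.erase i, -c l / c i * M j l :=
          Finset.sum_coe_sort (S.erase i) (fun l => -c l / c i * M j l)
        rw [h3, ← hM1 j hj i hiS hE]
        have hci := hc i hiS
        have e1 : ∑ a, -β a / c i * B a j = -(∑ a, β a * B a j) / c i := by
          rw [← Finset.sum_neg_distrib, Finset.sum_div]
          exact Finset.sum_congr rfl fun a _ => by ring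
        have e2 : ∑ l ∈ S.erase i, -c l / c i * M j l =
            -(∑ l ∈ S.erase i, c l * M j l) / c i := by
          rw [← Finset.sum_neg_distrib, Finset.sum_div]
          exact Finset.sum_congr rfl fun a _ => by ring
        rw [e1, e2, ← add_div, div_eq_iff hci]
        linarith
      · simp only [if_neg hi1, zero_mul, Finset.sum_const_zero, zero_add]
        have h3 : ∑ l : {l // l ∈ S.erase i₁}, (if i = l.1 then (1 : ℝ) else 0) * M j l.1 =
            ∑ l ∈ S.erase i₁, (if i = l then (1 : ℝ) else 0) * M j l :=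
          Finset.sum_coe_sort (S.erase i₁) (fun l => (if i = l then (1 : ℝ) else 0) * M j l)
        rw [h3]
        simp only [ite_mul, one_mul, zero_mul]
        rw [Finset.sum_ite_eq, if_pos (Finset.mem_erase.2 ⟨hi1, hiS⟩)]
        exact hM1 j hj i hiS hE

private theorem exists_rel {m n R s : ℕ} {S : Finset (Fin m)} (hs : S.card = s + 1)
    (C : Finset (Fin n)) (hC : C.card ≤ R + s) (X : Fin m → Fin n → ℝ) {B : Fin R → Fin n → ℝ}
    (hB : GP (fun j a => B a j)) :
    ∃ (c : Fin m → ℝ) (β : Fin R → ℝ), (∃ i ∈ S, c i ≠ 0) ∧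
      ∀ j ∈ C, ∑ i ∈ S, c i * X i j + ∑ a, β a * B a j = 0 := by
  classical
  have hne : S.Nonempty := by
    rw [← Finset.card_pos]; omega
  rcases le_or_gt C.card R with h | h
  · obtain ⟨β, hβ⟩ := surj_of_gp hB C h (fun j => -∑ i ∈ S, 1 * X i j)
    obtain ⟨i, hi⟩ := hne
    refine ⟨fun _ => 1, β, ⟨i, hi, one_ne_zero⟩, fun j hj => ?_⟩
    rw [hβ j hj]; ring
  · let L : ((S → ℝ) × (Fin R → ℝ)) →ₗ[ℝ] (C → ℝ) :=
      { toFun := fun p j => ∑ i : S, p.1 i * X i j + ∑ a, p.2 a * B a j
        map_add' := by
          intro p q; ext j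
          simp only [Prod.fst_add, Prod.snd_add, Pi.add_apply, add_mul, Finset.sum_add_distrib]
          ring
        map_smul' := by
          intro t p; ext j
          simp only [Prod.smul_fst, Prod.smul_snd, Pi.smul_apply, smul_eq_mul, RingHom.id_apply,
            mul_add, Finset.mul_sum, mul_assoc] }
    have hker : LinearMap.ker L ≠ ⊥ := by
      apply LinearMap.ker_ne_bot_of_finrank_lt
      rw [Module.finrank_prod, Module.finrank_fintype_fun_eq_card,
        Module.finrank_fintype_fun_eq_card, Module.finrank_fintype_fun_eq_card,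
        Fintype.card_coe, Fintype.card_coe, Fintype.card_fin]
      omega
    obtain ⟨p, hp, hp0⟩ := Submodule.exists_mem_ne_zero_of_ne_bot hker
    have hL : ∀ j : C, ∑ i : S, p.1 i * X i j + ∑ a, p.2 a * B a j = 0 := by
      intro j
      have := LinearMap.mem_ker.1 hp
      exact congrFun this j
    refine ⟨fun i => if hi : i ∈ S then p.1 ⟨i, hi⟩ else 0, p.2, ?_, ?_⟩
    · by_contra hcon
      push Not at hcon
      have h1 : p.1 = 0 := by
        ext i
        have := hcon i.1 i.2
        rw [dif_pos i.2] at this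
        exact this
      have h2 : p.2 = 0 := by
        apply inj_of_gp hB C h.le
        intro j hj
        have := hL ⟨j, hj⟩
        rw [h1] at this
        simpa using this
      exact hp0 (Prod.ext h1 h2)
    · intro j hj
      have h5 := hL ⟨j, hj⟩
      have h6 : ∑ i ∈ S, (if hi : i ∈ S then p.1 ⟨i, hi⟩ else 0) * X i j =
          ∑ i : S, p.1 i * X i j := by
        rw [← Finset.sum_coe_sort S]
        refine Finset.sum_congr rfl fun i _ => ?_
        rw [dif_pos i.2]
      rw [h6]
      exact h5

/-- Adding a block of `s + 1` rows costs `s` if at most `R + s` columns are completely specified on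
the block. -/
theorem good_block {m n : ℕ} {E : Finset (Fin m × Fin n)} {R s : ℕ} {T S : Finset (Fin m)}
    {J : Finset (Fin n)} (h : Good E R T J) (hTS : Disjoint T S) (hs : S.card = s + 1)
    (hc : (J.filter (fun j => ∀ i ∈ S, (i, j) ∈ E)).card ≤ R + s) :
    Good E (R + s) (T ∪ S) J := by
  classical
  have hd := good_gp h
  unfold Good
  rw [dense_iff_closure_eq] at hd ⊢
  rw [← Set.univ_subset_iff, ← hd]
  refine closure_minimal ?_ isClosed_closure
  rintro X ⟨A, B, -, hB, hAB⟩
  set C := J.filter (fun j => ∀ i ∈ S, (i, j) ∈ E) with hCdef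
  obtain ⟨c, β, ⟨i₁, hi₁, hci₁⟩, hrel⟩ := exists_rel hs C hc X hB
  let w : Fin m → Fin n → ℝ := fun i j =>
    if i = i₁ ∧ j ∈ C then (∑ l ∈ S, (if c l = 0 then X l j else 0)) / c i₁ else 0
  have htend : Tendsto (fun δ : ℝ => X - δ • w) (𝓝[≠] 0) (𝓝 X) := by
    have : Tendsto (fun δ : ℝ => X - δ • w) (𝓝 0) (𝓝 (X - (0 : ℝ) • w)) := by
      apply Continuous.tendsto
      fun_prop
    rw [zero_smul, sub_zero] at this
    exact this.mono_left nhdsWithin_le_nhds
  refine mem_closure_of_tendsto htend ?_
  filter_upwards [self_mem_nhdsWithin] with δ hδ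
  have hδ0 : δ ≠ 0 := hδ
  refine fill (A := A) (B := B) (c := fun i => if c i = 0 then δ else c i) (β := β) hs
    ?_ ?_ ?_
  · intro i hi j hj hE
    have hne : i ≠ i₁ := by
      rintro rfl
      exact (Finset.disjoint_left.1 hTS hi) hi₁
    have hwij : w i j = 0 := by
      simp only [w, hne, false_and, if_false]
    rw [hAB i hi j hj hE]
    simp only [Pi.sub_apply, Pi.smul_apply, smul_eq_mul, hwij, mul_zero, sub_zero]
  · intro i _
    by_cases hci : c i = 0
    · simp only [hci, if_true]; exact hδ0
    · simp only [hci, if_false]; exact hci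
  · intro j hj hall
    have hjC : j ∈ C := by
      rw [hCdef, Finset.mem_filter]; exact ⟨hj, hall⟩
    have hr := hrel j hjC
    have e1 : ∑ i ∈ S, (if c i = 0 then δ else c i) * (X - δ • w) i j =
        ∑ i ∈ S, c i * X i j + (∑ i ∈ S, δ * (if c i = 0 then X i j else 0)) -
          ∑ i ∈ S, (if i = i₁ then c i₁ * (δ * w i₁ j) else 0) := by
      rw [← Finset.sum_add_distrib, ← Finset.sum_sub_distrib]
      refine Finset.sum_congr rfl fun i _ => ?_
      simp only [Pi.sub_apply, Pi.smul_apply, smul_eq_mul]
      by_cases hi : i = i₁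
      · subst hi
        simp only [hci₁, if_false, if_true]
        ring
      · have hwij : w i j = 0 := by
          simp only [w, hi, false_and, if_false]
        rw [hwij]
        by_cases hci : c i = 0
        · simp only [hci, hi, if_true, if_false]; ring
        · simp only [hci, hi, if_false]; ring
    have e2 : c i₁ * (δ * w i₁ j) = ∑ i ∈ S, δ * (if c i = 0 then X i j else 0) := by
      have : w i₁ j = (∑ l ∈ S, (if c l = 0 then X l j else 0)) / c i₁ := by
        simp only [w, hjC, and_self, if_true]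
      rw [this, ← Finset.mul_sum]
      field_simp
    rw [e1, Finset.sum_ite_eq' S i₁, if_pos hi₁, e2]
    linarith

end Pool.MP_2cf74a
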