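import Pool.Agent.Lib.MP_2cf74a_ag.TR.Unif
import Pool.Agent.Lib.MP_2cf74a_ag.TR.Basic

/-!
ROW Comp (about 110 lines).  PROOF IN WORDS.
By good_gp for (T, J) and closure_closure it is enough to treat X with factors A, B of (T,J), B in general position; so the
R x R matrix B_K (columns in K, card K = R) is invertible: for i in S there is ga i : Fin R -> R with sum_a ga i a * B a k = X i k for all k in K.
Residual data: Y i j = X i j - sum_a ga i a * B a j (i in S, j in J \ K).  h' gives Y' arbitrarily near Y with Fac E R' S (J \ K) Y' (factors A', B').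
Put X' i j = X i j + (Y' i j - Y i j) for i in S, j in J \ K and X' = X elsewhere; X' is near X.  X' on (T union S) x J factors through
Fin R + Fin R': row i in T: (A i, 0); row i in S: (ga i, A' i); column j: (B j, B' j) for j in J \ K and (B j, 0) for j in K.
fac_of_type.  (For the closure: the map Y' |-> X' is continuous and maps Y to X; image of closure in closure of image:
image_closure_subset_closure_image / map_mem_closure.)
-/

open Finset

namespace Pool.MP_2cf74a

private theorem comp_surj_of_gp {n R : ℕ} {B : Fin R → Fin n → ℝ} (hB : GP (fun j a => B a j))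
    (K : Finset (Fin n)) (hK : K.card ≤ R) (y : Fin n → ℝ) :
    ∃ β : Fin R → ℝ, ∀ j ∈ K, ∑ a, β a * B a j = y j := by
  classical
  let M : Matrix K (Fin R) ℝ := fun j a => B a j
  have hli : LinearIndependent ℝ M.row := hB K hK
  have hr : M.rank = Fintype.card K := hli.rank_matrix
  have htop : LinearMap.range M.mulVecLin = ⊤ := by
    apply Submodule.eq_top_of_finrank_eq
    have : Module.finrank ℝ (LinearMap.range M.mulVecLin) = M.rank := rfl
    rw [this, hr, Module.finrank_fintype_fun_eq_card]
  have hy : (fun j : K => y j) ∈ LinearMap.range M.mulVecLin := by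
    rw [htop]; trivial
  obtain ⟨β, hβ⟩ := hy
  refine ⟨β, fun j hj => ?_⟩
  have := congrFun hβ ⟨j, hj⟩
  simp only [Matrix.mulVecLin_apply, Matrix.mulVec, dotProduct] at this
  rw [← this]
  exact Finset.sum_congr rfl fun a _ => mul_comm _ _

/-- Composition: a pattern whose residual pattern is completable. -/
theorem good_comp {m n : ℕ} {E : Finset (Fin m × Fin n)} {R R' : ℕ} {T S : Finset (Fin m)}
    {J K : Finset (Fin n)} (h : Good E R T J) (hTS : Disjoint T S) (hKJ : K ⊆ J)
    (hK : K.card = R) (hfull : ∀ i ∈ S, ∀ j ∈ K, (i, j) ∈ E) (h' : Good E R' S (J \ K)) :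
    Good E (R + R') (T ∪ S) J := by
  classical
  have hd := good_gp h
  unfold Good
  rw [dense_iff_closure_eq] at hd ⊢
  rw [← Set.univ_subset_iff, ← hd]
  refine closure_minimal ?_ isClosed_closure
  rintro X ⟨A, B, -, hB, hAB⟩
  choose ga hga using fun i : Fin m => comp_surj_of_gp hB K hK.le (fun j => X i j)
  have hY : (fun (i : Fin m) (j : Fin n) => X i j - ∑ a, ga i a * B a j) ∈
      closure {Y : Fin m → Fin n → ℝ | Fac E R' S (J \ K) Y} := h' _
  have hcont : Continuous (fun (Y : Fin m → Fin n → ℝ) (i : Fin m) (j : Fin n) =>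
      if i ∈ S ∧ j ∈ J \ K then Y i j + ∑ a, ga i a * B a j else X i j) := by
    refine continuous_pi fun i => continuous_pi fun j => ?_
    by_cases hij : i ∈ S ∧ j ∈ J \ K
    · simp only [if_pos hij]
      fun_prop
    · simp only [if_neg hij]
      fun_prop
  have hm := map_mem_closure (t := {Z : Fin m → Fin n → ℝ | Fac E (R + R') (T ∪ S) J Z})
    hcont hY ?_
  · have hX : (fun (i : Fin m) (j : Fin n) =>
        if i ∈ S ∧ j ∈ J \ K then (X i j - ∑ a, ga i a * B a j) + ∑ a, ga i a * B a j
        else X i j) = X := by
      funext i j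
      by_cases hij : i ∈ S ∧ j ∈ J \ K
      · rw [if_pos hij]; ring
      · rw [if_neg hij]
    rw [← hX]
    exact hm
  · rintro Y ⟨A', B', hAB'⟩
    refine fac_of_type (Fin R ⊕ Fin R') ?_
      (fun i k => Sum.elim (fun a => if i ∈ T then A i a else ga i a)
        (fun a => if i ∈ T then 0 else A' i a) k)
      (fun k j => Sum.elim (fun a => B a j) (fun a => if j ∈ K then 0 else B' a j) k) ?_
    · rw [Fintype.card_sum, Fintype.card_fin, Fintype.card_fin]
    · intro i hi j hj hE
      rw [Fintype.sum_sum_type]
      simp only [Sum.elim_inl, Sum.elim_inr]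
      by_cases hiT : i ∈ T
      · have hiS : i ∉ S := Finset.disjoint_left.1 hTS hiT
        rw [if_neg (fun h1 => hiS h1.1)]
        simp only [if_pos hiT, zero_mul, Finset.sum_const_zero, add_zero]
        exact hAB i hiT j hj hE
      · have hiS : i ∈ S := by
          rcases Finset.mem_union.1 hi with h1 | h1
          · exact absurd h1 hiT
          · exact h1
        simp only [if_neg hiT]
        by_cases hjK : j ∈ K
        · rw [if_neg (fun h1 => (Finset.mem_sdiff.1 h1.2).2 hjK)]
          simp only [if_pos hjK, mul_zero, Finset.sum_const_zero, add_zero]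
          exact hga i j hjK
        · have hjJ : j ∈ J \ K := Finset.mem_sdiff.2 ⟨hj, hjK⟩
          rw [if_pos ⟨hiS, hjJ⟩]
          simp only [if_neg hjK]
          rw [hAB' i hiS j hjJ hE]
          ring

end Pool.MP_2cf74a
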