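import Pool.Agent.Lib.MP_2cf74a_ag.TR.Block

/-!
ROW Eight (about 150 lines).  PROOF IN WORDS.
For i in T let U i = the 2 unspecified columns.  (a) choose a in T, and b in T, b != a, with U a, U b disjoint
(each of the two columns of U a has exactly one more row, so at most 2 rows other than a meet U a; 7 - 2 > 0).
(b) c any element of T other than a, b.  (c) d in T \ {a,b,c} with U d != U c and U c union U d != U a union U b: at most one
d other than c has U d = U c, and at most one d other than a, b, c has U d = (U a union U b) \ U c (a column of U a union U b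
has exactly one row other than a, b); 5 - 2 > 0.  (d) A1 = T \ {a,b,c,d}, card 4.  Let N = the columns of J completely
specified on A1.  CLAIM card N <= 3: every column of N has both its unspecified rows in {a,b,c,d}; as U a, U b are
disjoint it lies in U c union U d, so card N = 4 forces N = U c union U d, U c, U d disjoint and (in the same way)
N = U a union U b.
(e) good_block from the empty set (R = 0) with S = A1, s = 3: Good 3.  Then S = {a,b}, s = 1: the columns of J
completely specified on a, b are 8 - 4 = 4 <= 3 + 1: Good 4.  Then S = {c,d}, s = 1: 8 - card (U c union U d) <= 5 <= 4 + 1: Good 5.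
-/

open Finset

namespace Pool.MP_2cf74a

/-- the columns of `J` completely specified on the two rows `a`, `b` -/
private theorem eight_two {m n : ℕ} {E : Finset (Fin m × Fin n)} {J : Finset (Fin n)} (a b : Fin m) :
    (J.filter (fun j => ∀ i ∈ ({a, b} : Finset (Fin m)), (i, j) ∈ E)).card +
      ((J.filter (fun j => (a, j) ∉ E)) ∪ (J.filter (fun j => (b, j) ∉ E))).card = J.card := by
  have h : ((J.filter (fun j => (a, j) ∉ E)) ∪ (J.filter (fun j => (b, j) ∉ E))) =
      J.filter (fun j => ¬ ∀ i ∈ ({a, b} : Finset (Fin m)), (i, j) ∈ E) := by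
    ext j
    simp only [mem_union, mem_filter, mem_insert, mem_singleton, forall_eq_or_imp, forall_eq]
    tauto
  rw [h]
  exact card_filter_add_card_filter_not _

/-- a column with two unspecified entries in `T`, all of them in `{a, b, c, d}`, not in both of `a`, `b`, lies in
the union of the sets of `c` and `d` -/
private theorem eight_col {m n : ℕ} {E : Finset (Fin m × Fin n)} {T : Finset (Fin m)} {J : Finset (Fin n)}
    {a b c d : Fin m} {j : Fin n} (hj : j ∈ J) (hc : (T.filter (fun i => (i, j) ∉ E)).card = 2)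
    (hab : Disjoint (J.filter (fun j => (a, j) ∉ E)) (J.filter (fun j => (b, j) ∉ E)))
    (hN : ∀ i ∈ T, (i, j) ∉ E → i = a ∨ i = b ∨ i = c ∨ i = d) :
    j ∈ (J.filter (fun j => (c, j) ∉ E)) ∪ (J.filter (fun j => (d, j) ∉ E)) := by
  by_contra hcd
  simp only [mem_union, mem_filter, hj, true_and, not_or, not_not] at hcd
  have hsub : ∀ i ∈ T.filter (fun i => (i, j) ∉ E), i = a ∨ i = b := by
    intro i hi
    rw [mem_filter] at hi
    rcases hN i hi.1 hi.2 with h | h | h | h
    · exact Or.inl h
    · exact Or.inr h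
    · subst h
      exact absurd hcd.1 hi.2
    · subst h
      exact absurd hcd.2 hi.2
  have h1 : 1 < (T.filter (fun i => (i, j) ∉ E)).card := by rw [hc]; norm_num
  obtain ⟨x, hx, y, hy, hxy⟩ := one_lt_card.1 h1
  have hx' := (mem_filter.1 hx).2
  have hy' := (mem_filter.1 hy).2
  have hdis : (a, j) ∉ E → (b, j) ∉ E → False := fun h1 h2 =>
    disjoint_left.1 hab (mem_filter.2 ⟨hj, h1⟩) (mem_filter.2 ⟨hj, h2⟩)
  rcases hsub x hx with h | h <;> rcases hsub y hy with h' | h' <;> subst h <;> subst h'
  · exact hxy rfl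
  · exact hdis hx' hy'
  · exact hdis hy' hx'
  · exact hxy rfl

/-- An 8 x 8 pattern with exactly two unspecified entries in each row and each column has
real completions of rank 5. -/
theorem good_eight {m n : ℕ} {E : Finset (Fin m × Fin n)} {T : Finset (Fin m)}
    {J : Finset (Fin n)} (hT : T.card = 8) (hJ : J.card = 8)
    (hr : ∀ i ∈ T, (J.filter (fun j => (i, j) ∉ E)).card = 2)
    (hc : ∀ j ∈ J, (T.filter (fun i => (i, j) ∉ E)).card = 2) : Good E 5 T J := by
  classical
  -- choice of `a`
  obtain ⟨a, ha⟩ : T.Nonempty := card_pos.1 (by rw [hT]; norm_num)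
  -- choice of `b`
  obtain ⟨p, q, hpq, hUa⟩ := card_eq_two.1 (hr a ha)
  have hp : p ∈ J.filter (fun j => (a, j) ∉ E) := by rw [hUa]; simp
  have hq : q ∈ J.filter (fun j => (a, j) ∉ E) := by rw [hUa]; simp
  obtain ⟨b, hb, hbn⟩ : ∃ b ∈ T, b ∉ ({a} ∪ (T.filter (fun i => (i, p) ∉ E) ∪ T.filter (fun i => (i, q) ∉ E)) :
      Finset (Fin m)) := by
    apply exists_mem_notMem_of_card_lt_card
    have h1 := card_union_le ({a} : Finset (Fin m)) (T.filter (fun i => (i, p) ∉ E) ∪ T.filter (fun i => (i, q) ∉ E))
    have h2 := card_union_le (T.filter (fun i => (i, p) ∉ E)) (T.filter (fun i => (i, q) ∉ E))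
    rw [hc p (mem_filter.1 hp).1, hc q (mem_filter.1 hq).1] at h2
    rw [card_singleton] at h1
    omega
  simp only [mem_union, mem_singleton, mem_filter, hb, true_and, not_or, not_not] at hbn
  obtain ⟨hba, hbp, hbq⟩ := hbn
  have hab : Disjoint (J.filter (fun j => (a, j) ∉ E)) (J.filter (fun j => (b, j) ∉ E)) := by
    rw [disjoint_left]
    intro j hj hj'
    rw [hUa, mem_insert, mem_singleton] at hj
    rcases hj with rfl | rfl
    · exact (mem_filter.1 hj').2 hbp
    · exact (mem_filter.1 hj').2 hbq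
  have hcab : ((J.filter (fun j => (a, j) ∉ E)) ∪ (J.filter (fun j => (b, j) ∉ E))).card = 4 := by
    rw [card_union_of_disjoint hab, hr a ha, hr b hb]
  -- choice of `c`
  obtain ⟨c, hcT, hcn⟩ : ∃ c ∈ T, c ∉ ({a, b} : Finset (Fin m)) := by
    apply exists_mem_notMem_of_card_lt_card
    have := card_le_two (a := a) (b := b)
    omega
  simp only [mem_insert, mem_singleton, not_or] at hcn
  obtain ⟨hca, hcb⟩ := hcn
  -- choice of `d`
  obtain ⟨j1, hj1⟩ : (J.filter (fun j => (c, j) ∉ E)).Nonempty := card_pos.1 (by rw [hr c hcT]; norm_num)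
  obtain ⟨j0, hj0, hj0c⟩ : ∃ j ∈ (J.filter (fun j => (a, j) ∉ E)) ∪ (J.filter (fun j => (b, j) ∉ E)),
      j ∉ J.filter (fun j => (c, j) ∉ E) := by
    apply exists_mem_notMem_of_card_lt_card
    rw [hcab, hr c hcT]
    norm_num
  have hj0J : j0 ∈ J := by
    rcases mem_union.1 hj0 with h | h
    · exact (mem_filter.1 h).1
    · exact (mem_filter.1 h).1
  obtain ⟨d, hd, hdn⟩ : ∃ d ∈ T, d ∉ (({a, b} ∪ {c}) ∪ (T.filter (fun i => (i, j1) ∉ E) ∪ T.filter (fun i => (i, j0) ∉ E)) :
      Finset (Fin m)) := by
    apply exists_mem_notMem_of_card_lt_card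
    have h1 := card_union_le ({a, b} ∪ {c} : Finset (Fin m))
      (T.filter (fun i => (i, j1) ∉ E) ∪ T.filter (fun i => (i, j0) ∉ E))
    have h2 := card_union_le (T.filter (fun i => (i, j1) ∉ E)) (T.filter (fun i => (i, j0) ∉ E))
    rw [hc j1 (mem_filter.1 hj1).1, hc j0 hj0J] at h2
    have h3 := card_union_le ({a, b} : Finset (Fin m)) {c}
    rw [card_singleton] at h3
    have h4 := card_le_two (a := a) (b := b)
    omega
  simp only [mem_union, mem_insert, mem_singleton, mem_filter, hd, true_and, not_or, not_not] at hdn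
  obtain ⟨⟨⟨hda, hdb⟩, hdc⟩, hdj1, hdj0⟩ := hdn
  have hUcd : J.filter (fun j => (d, j) ∉ E) ≠ J.filter (fun j => (c, j) ∉ E) := by
    intro h
    have h1 := hj1
    rw [← h] at h1
    exact (mem_filter.1 h1).2 hdj1
  have hUne : (J.filter (fun j => (c, j) ∉ E)) ∪ (J.filter (fun j => (d, j) ∉ E)) ≠
      (J.filter (fun j => (a, j) ∉ E)) ∪ (J.filter (fun j => (b, j) ∉ E)) := by
    intro h
    rw [← h] at hj0
    rcases mem_union.1 hj0 with h1 | h1
    · exact hj0c h1
    · exact (mem_filter.1 h1).2 hdj0
  have hccd4 : ((J.filter (fun j => (c, j) ∉ E)) ∪ (J.filter (fun j => (d, j) ∉ E))).card ≤ 4 := by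
    have := card_union_le (J.filter (fun j => (c, j) ∉ E)) (J.filter (fun j => (d, j) ∉ E))
    rw [hr c hcT, hr d hd] at this
    exact this
  have hccd3 : 3 ≤ ((J.filter (fun j => (c, j) ∉ E)) ∪ (J.filter (fun j => (d, j) ∉ E))).card := by
    by_contra hlt
    have hle : ((J.filter (fun j => (c, j) ∉ E)) ∪ (J.filter (fun j => (d, j) ∉ E))).card ≤ 2 := by omega
    have e1 := eq_of_subset_of_card_le (subset_union_left (s₁ := J.filter (fun j => (c, j) ∉ E))
      (s₂ := J.filter (fun j => (d, j) ∉ E))) (by rw [hr c hcT]; exact hle)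
    have e2 := eq_of_subset_of_card_le (subset_union_right (s₁ := J.filter (fun j => (c, j) ∉ E))
      (s₂ := J.filter (fun j => (d, j) ∉ E))) (by rw [hr d hd]; exact hle)
    exact hUcd (e2.trans e1.symm)
  -- the four rows
  set Q : Finset (Fin m) := {a, b} ∪ {c, d} with hQ
  have hQT : Q ⊆ T := by
    intro x hx
    simp only [hQ, mem_union, mem_insert, mem_singleton] at hx
    rcases hx with (rfl | rfl) | (rfl | rfl) <;> assumption
  have hQab : ({a, b} : Finset (Fin m)).card = 2 := card_pair (Ne.symm hba)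
  have hQcd : ({c, d} : Finset (Fin m)).card = 2 := card_pair (Ne.symm hdc)
  have hQd : Disjoint ({a, b} : Finset (Fin m)) {c, d} := by
    rw [disjoint_left]
    intro x hx hx'
    simp only [mem_insert, mem_singleton] at hx hx'
    rcases hx with rfl | rfl <;> rcases hx' with h | h
    · exact hca h.symm
    · exact hda h.symm
    · exact hcb h.symm
    · exact hdb h.symm
  have hQ4 : Q.card = 4 := by rw [hQ, card_union_of_disjoint hQd, hQab, hQcd]
  set A1 : Finset (Fin m) := T \ Q with hA1
  have hA1c : A1.card = 4 := by rw [hA1, card_sdiff_of_subset hQT, hT, hQ4]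
  -- the columns completely specified on `A1`
  have hmem : ∀ j ∈ J.filter (fun j => ∀ i ∈ A1, (i, j) ∈ E), ∀ i ∈ T, (i, j) ∉ E → i ∈ Q := by
    intro j hj i hi hij
    by_contra hiQ
    exact hij ((mem_filter.1 hj).2 i (by rw [hA1, mem_sdiff]; exact ⟨hi, hiQ⟩))
  have hN : (J.filter (fun j => ∀ i ∈ A1, (i, j) ∈ E)).card ≤ 3 := by
    by_contra hlt
    have hge : 4 ≤ (J.filter (fun j => ∀ i ∈ A1, (i, j) ∈ E)).card := by omega
    have hsub1 : J.filter (fun j => ∀ i ∈ A1, (i, j) ∈ E) ⊆
        (J.filter (fun j => (c, j) ∉ E)) ∪ (J.filter (fun j => (d, j) ∉ E)) := by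
      intro j hj
      refine eight_col (mem_filter.1 hj).1 (hc j (mem_filter.1 hj).1) hab fun i hi hij => ?_
      have := hmem j hj i hi hij
      simp only [hQ, mem_union, mem_insert, mem_singleton] at this
      tauto
    have e1 := eq_of_subset_of_card_le hsub1 (hccd4.trans hge)
    have hcard4 : ((J.filter (fun j => (c, j) ∉ E)) ∪ (J.filter (fun j => (d, j) ∉ E))).card = 4 := by
      have := card_le_card hsub1
      omega
    have hcd : Disjoint (J.filter (fun j => (c, j) ∉ E)) (J.filter (fun j => (d, j) ∉ E)) := by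
      rw [← card_union_eq_card_add_card, hcard4, hr c hcT, hr d hd]
    have hsub2 : J.filter (fun j => ∀ i ∈ A1, (i, j) ∈ E) ⊆
        (J.filter (fun j => (a, j) ∉ E)) ∪ (J.filter (fun j => (b, j) ∉ E)) := by
      intro j hj
      refine eight_col (mem_filter.1 hj).1 (hc j (mem_filter.1 hj).1) hcd fun i hi hij => ?_
      have := hmem j hj i hi hij
      simp only [hQ, mem_union, mem_insert, mem_singleton] at this
      tauto
    have e2 := eq_of_subset_of_card_le hsub2 (by rw [hcab]; exact hge)
    exact hUne (e1.symm.trans e2)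
  -- the three blocks
  have g0 : Good E 0 (∅ : Finset (Fin m)) J := good_of_rows (by simp)
  have g1 : Good E (0 + 3) (∅ ∪ A1) J := good_block g0 (disjoint_empty_left _) hA1c (by omega)
  have g2 : Good E (0 + 3 + 1) (∅ ∪ A1 ∪ {a, b}) J := by
    refine good_block g1 ?_ hQab ?_
    · rw [empty_union, hA1]
      exact disjoint_of_subset_right (subset_union_left (s₂ := {c, d})) sdiff_disjoint
    · have := eight_two (E := E) (J := J) a b
      rw [hcab, hJ] at this
      omega
  have g3 : Good E (0 + 3 + 1 + 1) (∅ ∪ A1 ∪ {a, b} ∪ {c, d}) J := by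
    refine good_block g2 ?_ hQcd ?_
    · rw [empty_union, disjoint_union_left]
      refine ⟨?_, hQd⟩
      rw [hA1]
      exact disjoint_of_subset_right (subset_union_right (s₁ := {a, b})) sdiff_disjoint
    · have := eight_two (E := E) (J := J) c d
      rw [hJ] at this
      omega
  have hun : (∅ ∪ A1 ∪ {a, b} ∪ {c, d} : Finset (Fin m)) = T := by
    rw [empty_union, union_assoc, ← hQ, hA1]
    exact sdiff_union_of_subset hQT
  rw [hun] at g3
  exact g3

end Pool.MP_2cf74a
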