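import Pool.Agent.Lib.MP_2cf74a_ag.TR.RowCol
import Pool.Agent.Lib.MP_2cf74a_ag.TR.Eight

/-!
ROW Core: at most eight rows, by induction on the number of rows and columns.
-/

open Finset

namespace Pool.MP_2cf74a

private theorem core_rows {m n : ℕ} (E : Finset (Fin m × Fin n)) (T : Finset (Fin m)) (J : Finset (Fin n)) :
    cnt E T J = ∑ i ∈ T, (J.filter (fun j => (i, j) ∈ E)).card := by
  unfold cnt
  rw [Finset.card_eq_sum_card_fiberwise (f := Prod.fst) (t := T) (fun p hp => (mem_filter.1 hp).2.1)]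
  refine Finset.sum_congr rfl fun i hi => ?_
  refine Finset.card_bij (fun p _ => p.2) ?_ ?_ ?_
  · intro p hp
    simp only [mem_filter] at hp ⊢
    obtain ⟨⟨h1, h2, h3⟩, h4⟩ := hp
    refine ⟨h3, ?_⟩
    rw [← h4]
    exact h1
  · intro p hp p' hp' h
    simp only [mem_filter] at hp hp'
    exact Prod.ext (hp.2.trans hp'.2.symm) h
  · intro j hj
    rw [mem_filter] at hj
    refine ⟨(i, j), ?_, rfl⟩
    simp only [mem_filter]
    exact ⟨⟨hj.2, hi, hj.1⟩, trivial⟩

private theorem core_cols {m n : ℕ} (E : Finset (Fin m × Fin n)) (T : Finset (Fin m)) (J : Finset (Fin n)) :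
    cnt E T J = ∑ j ∈ J, (T.filter (fun i => (i, j) ∈ E)).card := by
  unfold cnt
  rw [Finset.card_eq_sum_card_fiberwise (f := Prod.snd) (t := J) (fun p hp => (mem_filter.1 hp).2.2)]
  refine Finset.sum_congr rfl fun j hj => ?_
  refine Finset.card_bij (fun p _ => p.1) ?_ ?_ ?_
  · intro p hp
    simp only [mem_filter] at hp ⊢
    obtain ⟨⟨h1, h2, h3⟩, h4⟩ := hp
    refine ⟨h2, ?_⟩
    rw [← h4]
    exact h1
  · intro p hp p' hp' h
    simp only [mem_filter] at hp hp'
    exact Prod.ext h (hp.2.trans hp'.2.symm)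
  · intro i hi
    rw [mem_filter] at hi
    refine ⟨(i, j), ?_, rfl⟩
    simp only [mem_filter]
    exact ⟨⟨hi.2, hi.1, hj⟩, trivial⟩

/-- eight numbers `≥ 6` with sum at most `48` are all `6` -/
private theorem core_six {α : Type} [DecidableEq α] {T : Finset α} {f : α → ℕ} (hT : T.card = 8) (hf : ∀ i ∈ T, 6 ≤ f i)
    (hs : ∑ i ∈ T, f i ≤ 48) {i : α} (hi : i ∈ T) : f i = 6 := by
  have h1 : ∑ j ∈ T.erase i, 6 ≤ ∑ j ∈ T.erase i, f j :=
    Finset.sum_le_sum fun j hj => hf j (mem_of_mem_erase hj)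
  have h2 := Finset.add_sum_erase T f hi
  rw [Finset.sum_const, card_erase_of_mem hi, hT, smul_eq_mul] at h1
  have h3 := hf i hi
  omega

/-- At most eight rows: the counts for `g` give completions of rank at most `g + 1`. -/
theorem good_of_eight {m n : ℕ} {E : Finset (Fin m × Fin n)} {g : ℕ}
    {T : Finset (Fin m)} {J : Finset (Fin n)}
    (hcnt : ∀ T' ⊆ T, ∀ J' ⊆ J, g ≤ T'.card → g ≤ J'.card →
      cnt E T' J' ≤ g * (T'.card + J'.card - g))
    (hT : T.card ≤ 8) : Good E (g + 1) T J := by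
  classical
  induction hN : T.card + J.card using Nat.strong_induction_on generalizing T J with
  | _ N ih =>
    by_cases h1 : T.card ≤ g + 1
    · exact good_of_rows h1
    by_cases h2 : J.card ≤ g + 1
    · exact good_of_cols h2
    push Not at h1 h2
    by_cases h3 : ∃ i ∈ T, (J.filter (fun j => (i, j) ∈ E)).card ≤ g + 1
    · obtain ⟨i, hi, hc⟩ := h3
      have hcard := card_erase_of_mem hi
      have hpos : 0 < T.card := card_pos.2 ⟨i, hi⟩
      have h4 := ih ((T.erase i).card + J.card) (by omega) (T := T.erase i) (J := J)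
        (fun T' hT' J' hJ' => hcnt T' (hT'.trans (erase_subset _ _)) J' hJ') (by omega) rfl
      have h5 := good_row (i := i) h4 hc
      rwa [insert_erase hi] at h5
    by_cases h4 : ∃ j ∈ J, (T.filter (fun i => (i, j) ∈ E)).card ≤ g + 1
    · obtain ⟨j, hj, hc⟩ := h4
      have hcard := card_erase_of_mem hj
      have hpos : 0 < J.card := card_pos.2 ⟨j, hj⟩
      have h4 := ih (T.card + (J.erase j).card) (by omega) (T := T) (J := J.erase j)
        (fun T' hT' J' hJ' => hcnt T' hT' J' (hJ'.trans (erase_subset _ _))) hT rfl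
      have h5 := good_col (j := j) h4 hc
      rwa [insert_erase hj] at h5
    push Not at h3 h4
    have hall := hcnt T (Subset.refl _) J (Subset.refl _) (by omega) (by omega)
    have hr1 : (g + 2) * T.card ≤ cnt E T J := by
      rw [core_rows, mul_comm]
      calc T.card * (g + 2) = ∑ _i ∈ T, (g + 2) := by rw [sum_const, smul_eq_mul]
        _ ≤ _ := Finset.sum_le_sum fun i hi => h3 i hi
    have hc1 : (g + 2) * J.card ≤ cnt E T J := by
      rw [core_cols, mul_comm]
      calc J.card * (g + 2) = ∑ _j ∈ J, (g + 2) := by rw [sum_const, smul_eq_mul]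
        _ ≤ _ := Finset.sum_le_sum fun j hj => h4 j hj
    obtain ⟨c, hc⟩ : ∃ c, c = cnt E T J := ⟨_, rfl⟩
    obtain ⟨M, hM⟩ : ∃ M, M = T.card := ⟨_, rfl⟩
    obtain ⟨K, hK⟩ : ∃ K, K = J.card := ⟨_, rfl⟩
    rw [← hM] at h1 hT hr1 hall
    rw [← hK] at h2 hc1 hall
    rw [← hc] at hr1 hc1 hall
    have h8 : g = 4 ∧ M = 8 ∧ K = 8 := by
      have hg : g ≤ 6 := by omega
      clear ih hcnt h3 h4
      interval_cases g <;> omega
    obtain ⟨hg, hM8, hK8⟩ := h8
    subst hg
    have hT8 : T.card = 8 := by omega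
    have hJ8 : J.card = 8 := by omega
    have hc48 : c ≤ 48 := by omega
    refine good_eight hT8 hJ8 ?_ ?_
    · intro i hi
      have h6 : (J.filter (fun j => (i, j) ∈ E)).card = 6 :=
        core_six hT8 (f := fun i => (J.filter (fun j => (i, j) ∈ E)).card) (fun i hi => h3 i hi)
          (by rw [← core_rows]; omega) hi
      have h7 := Finset.card_filter_add_card_filter_not (s := J) (fun j => (i, j) ∈ E)
      omega
    · intro j hj
      have h6 : (T.filter (fun i => (i, j) ∈ E)).card = 6 :=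
        core_six hJ8 (f := fun j => (T.filter (fun i => (i, j) ∈ E)).card) (fun j hj => h4 j hj)
          (by rw [← core_cols]; omega) hj
      have h7 := Finset.card_filter_add_card_filter_not (s := T) (fun i => (i, j) ∈ E)
      omega

end Pool.MP_2cf74a
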