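import Pool.Agent.Lib.MP_2cf74a_ag.TR.Block

/-!
ROW Crit (about 70 lines).  PROOF IN WORDS.
Induction on l <= k: Good E (card {c i < l} - l) {c i < l} univ and l <= card {c i < l}.  Step: S = {i | c i = l}.
If S is empty the hypothesis reads n + (l+1) <= card {c i <= l}, so good_of_cols.  Otherwise good_block with
s = card S - 1: R + s = card {c i < l+1} - (l+1), and the columns completely specified on S are n minus the
columns with an unspecified entry in S.  The inequality l <= card {c i < l} follows from the hypothesis as
the number of columns is n.  k = 0 is good_of_rows.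
-/

open Finset

namespace Pool.MP_2cf74a

/-- The corank criterion: an ordered partition of the rows (block `l` is `c i = l`). -/
theorem good_of_partition {m n : ℕ} {E : Finset (Fin m × Fin n)} {k : ℕ} (c : Fin m → ℕ)
    (hck : ∀ i, c i < k)
    (h : ∀ l < k, n + (l + 1) ≤ (univ.filter (fun i => c i ≤ l)).card +
      (univ.filter (fun j => ∃ i, c i = l ∧ (i, j) ∉ E)).card) :
    k ≤ m ∧ Good E (m - k) univ univ := by
  have key : ∀ l, l ≤ k → l ≤ (univ.filter (fun i => c i < l)).card ∧
      Good E ((univ.filter (fun i => c i < l)).card - l) (univ.filter (fun i => c i < l)) univ := by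
    intro l
    induction l with
    | zero =>
      intro _
      have h0 : (univ.filter (fun i : Fin m => c i < 0)) = ∅ := by
        ext i
        simp
      rw [h0]
      exact ⟨Nat.zero_le _, good_of_rows (by simp)⟩
    | succ l ih =>
      intro hl
      obtain ⟨h1, h2⟩ := ih (by omega)
      have h3 := h l (by omega)
      obtain ⟨T, hT⟩ : ∃ T : Finset (Fin m), T = univ.filter (fun i => c i < l) := ⟨_, rfl⟩
      obtain ⟨S, hS⟩ : ∃ S : Finset (Fin m), S = univ.filter (fun i => c i = l) := ⟨_, rfl⟩
      have hTS : Disjoint T S := by
        rw [Finset.disjoint_left]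
        intro i hi hi2
        rw [hT, mem_filter] at hi
        rw [hS, mem_filter] at hi2
        omega
      have hU : univ.filter (fun i => c i < l + 1) = T ∪ S := by
        ext i
        rw [mem_union, hT, hS, mem_filter, mem_filter, mem_filter]
        simp only [mem_univ, true_and]
        omega
      have hU2 : univ.filter (fun i => c i ≤ l) = T ∪ S := by
        rw [← hU]
        ext i
        rw [mem_filter, mem_filter]
        simp only [mem_univ, true_and]
        omega
      rw [← hT] at h1 h2
      rw [hU2] at h3
      rw [hU]
      have hcU : (T ∪ S).card = T.card + S.card := card_union_of_disjoint hTS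
      obtain ⟨q, hq⟩ : ∃ q : ℕ, q = (univ.filter (fun j : Fin n => ∃ i, c i = l ∧ (i, j) ∉ E)).card := ⟨_, rfl⟩
      rw [← hq] at h3
      have hqn : q ≤ n := by
        rw [hq]
        refine (card_filter_le _ _).trans ?_
        simp
      refine ⟨by omega, ?_⟩
      rcases Nat.eq_zero_or_pos S.card with h0 | hpos
      · have hS0 : S = ∅ := card_eq_zero.1 h0
        have hq0 : q = 0 := by
          rw [hq, card_eq_zero]
          ext j
          simp only [mem_filter, mem_univ, true_and, notMem_empty, iff_false]
          rintro ⟨i, hi, -⟩
          have : i ∈ S := by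
            rw [hS, mem_filter]
            exact ⟨mem_univ _, hi⟩
          rw [hS0] at this
          exact notMem_empty _ this
        refine good_of_cols ?_
        rw [card_univ, Fintype.card_fin]
        omega
      · obtain ⟨s, hs⟩ : ∃ s, S.card = s + 1 := ⟨S.card - 1, by omega⟩
        have hsum : (univ.filter (fun j : Fin n => ∀ i ∈ S, (i, j) ∈ E)).card + q = n := by
          have e1 := card_filter_add_card_filter_not (s := (univ : Finset (Fin n))) (fun j => ∀ i ∈ S, (i, j) ∈ E)
          rw [card_univ, Fintype.card_fin] at e1
          have e2 : q = (univ.filter (fun j : Fin n => ¬ ∀ i ∈ S, (i, j) ∈ E)).card := by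
            rw [hq]
            congr 1
            ext j
            rw [mem_filter, mem_filter]
            simp only [mem_univ, true_and, not_forall]
            constructor
            · rintro ⟨i, hi, hj⟩
              refine ⟨i, ?_, hj⟩
              rw [hS, mem_filter]
              exact ⟨mem_univ _, hi⟩
            · rintro ⟨i, hi, hj⟩
              rw [hS, mem_filter] at hi
              exact ⟨i, hi.2, hj⟩
          omega
        have hg := good_block h2 hTS hs (by omega)
        have he : T.card - l + s = (T ∪ S).card - (l + 1) := by omega
        rwa [he] at hg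
  obtain ⟨h1, h2⟩ := key k le_rfl
  have hU : univ.filter (fun i => c i < k) = univ := by
    ext i
    simp [hck i]
  rw [hU, card_univ, Fintype.card_fin] at h1 h2
  exact ⟨h1, h2⟩

end Pool.MP_2cf74a
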