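import Pool.Agent.Lib.MP_2cf74a_ag.TR.Basic

/-!
ROW Kern (about 150 lines).  PROOF IN WORDS.
For e > 0 small construct X^e -> X with Fac E (card T - 2) T J X^e.  Put a i = sum_(l in T.erase i) u l * X l j, b i = the same with v, when
i = rho j, j in D and u i = v i = 0 (a bad row; j is unique by injectivity), a i = b i = 0 for all other i.
u^e = u + e a, v^e = v + e b (pointwise); for small e the minor of u^e, v^e at i1, i2 is still not 0 (i1, i2 are not bad).
First matrix M: for j in J without unspecified entry M_j = X_j.  For j in D, i = rho j: M l j = X l j for l != i, and M i j = mu_j with mu_j chosen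
as follows: if i is not bad there is mu with sum_(l in T.erase i) u l X l j = - mu * u i and the same for v (from the hypothesis hD:
if u i != 0 take mu = - (sum u)/ u i, ...); if i is bad mu = - 1 / e (then mu * u^e i = - a i).
Then d_u(j) = sum_(l in T) u^e l * M l j and d_v(j) tend to 0 as e -> 0 (they are e times bounded quantities: e * sum a l X l j
over l != i, plus e * a i * mu_j = 0 for good i as a i = 0).
Correct M in the rows i1, i2: add to M i1 j, M i2 j the solution (c1, c2) of the 2 x 2 system u^e i1 c1 + u^e i2 c2 = - d_u(j),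
v^e i1 c1 + v^e i2 c2 = - d_v(j) (Cramer), c -> 0.  X^e := M corrected at the specified entries (i.e. X^e i j = X i j + correction for
i in {i1,i2}, j in J, and X elsewhere).  Now u^e and v^e annihilate all columns j in J of the corrected matrix M', so by the nonzero minor the rows
i1 and i2 of M' are linear combinations of the rows in T minus {i1,i2}: M' factors through the index type
{i // i in (T.erase i1).erase i2} (card T - 2 elements): fac_of_type.  mem_closure_of_tendsto along the filter nhdsWithin 0 (Set.Ioi 0).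
-/

open Finset

namespace Pool.MP_2cf74a

private theorem kern_fac {m n : ℕ} {E : Finset (Fin m × Fin n)} {T : Finset (Fin m)}
    {J : Finset (Fin n)} (u' v' : Fin m → ℝ) (i₁ i₂ : Fin m) (h₁ : i₁ ∈ T) (h₂ : i₂ ∈ T) (h12 : i₁ ≠ i₂)
    (hΔ : u' i₁ * v' i₂ - u' i₂ * v' i₁ ≠ 0) (M' : Fin m → Fin n → ℝ)
    (hu : ∀ j ∈ J, ∑ i ∈ T, u' i * M' i j = 0) (hv : ∀ j ∈ J, ∑ i ∈ T, v' i * M' i j = 0)
    (Y : Fin m → Fin n → ℝ) (hY : ∀ i ∈ T, ∀ j ∈ J, (i, j) ∈ E → M' i j = Y i j) :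
    Fac E (T.card - 2) T J Y := by
  classical
  have hm2 : i₂ ∈ T.erase i₁ := mem_erase.2 ⟨h12.symm, h₂⟩
  have hc : Fintype.card {i // i ∈ (T.erase i₁).erase i₂} ≤ T.card - 2 := by
    rw [Fintype.card_coe, Finset.card_erase_of_mem hm2, Finset.card_erase_of_mem h₁]
    omega
  obtain ⟨Δ, hΔd⟩ : ∃ Δ, Δ = u' i₁ * v' i₂ - u' i₂ * v' i₁ := ⟨_, rfl⟩
  rw [← hΔd] at hΔ
  refine fac_of_type {i // i ∈ (T.erase i₁).erase i₂} hc
    (fun i a => if i = i₁ then -(u' a.1 * v' i₂ - v' a.1 * u' i₂) / Δ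
      else if i = i₂ then -(v' a.1 * u' i₁ - u' a.1 * v' i₁) / Δ else if i = a.1 then 1 else 0)
    (fun a j => M' a.1 j) ?_
  intro i hi j hj hij
  rw [← hY i hi j hj hij]
  have split : ∀ w : Fin m → ℝ, ∑ l ∈ T, w l * M' l j = w i₁ * M' i₁ j + (w i₂ * M' i₂ j +
      ∑ a : {i // i ∈ (T.erase i₁).erase i₂}, w a.1 * M' a.1 j) := by
    intro w
    rw [← Finset.add_sum_erase T (fun l => w l * M' l j) h₁,
      ← Finset.add_sum_erase (T.erase i₁) (fun l => w l * M' l j) hm2,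
      ← Finset.sum_coe_sort ((T.erase i₁).erase i₂) (fun l => w l * M' l j)]
  have eu := hu j hj
  have ev := hv j hj
  rw [split] at eu ev
  obtain ⟨P, hP⟩ : ∃ P, P = ∑ a : {i // i ∈ (T.erase i₁).erase i₂}, u' a.1 * M' a.1 j := ⟨_, rfl⟩
  obtain ⟨Q, hQ⟩ : ∃ Q, Q = ∑ a : {i // i ∈ (T.erase i₁).erase i₂}, v' a.1 * M' a.1 j := ⟨_, rfl⟩
  rw [← hP] at eu
  rw [← hQ] at ev
  by_cases e1 : i = i₁
  · have e2 : ∑ a : {i // i ∈ (T.erase i₁).erase i₂}, (-(u' a.1 * v' i₂ - v' a.1 * u' i₂) / Δ) * M' a.1 j =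
        -(v' i₂ * P - u' i₂ * Q) / Δ := by
      rw [hP, hQ, Finset.mul_sum, Finset.mul_sum, ← Finset.sum_sub_distrib, ← Finset.sum_neg_distrib,
        Finset.sum_div]
      refine Finset.sum_congr rfl fun a _ => ?_
      ring
    simp only [e1, if_true]
    rw [e2, div_eq_iff hΔ, hΔd]
    have e3 : P = -(u' i₁ * M' i₁ j + u' i₂ * M' i₂ j) := by linarith
    have e4 : Q = -(v' i₁ * M' i₁ j + v' i₂ * M' i₂ j) := by linarith
    rw [e3, e4]
    ring
  · by_cases e5 : i = i₂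
    · have e2 : ∑ a : {i // i ∈ (T.erase i₁).erase i₂}, (-(v' a.1 * u' i₁ - u' a.1 * v' i₁) / Δ) * M' a.1 j =
          -(u' i₁ * Q - v' i₁ * P) / Δ := by
        rw [hP, hQ, Finset.mul_sum, Finset.mul_sum, ← Finset.sum_sub_distrib, ← Finset.sum_neg_distrib,
          Finset.sum_div]
        refine Finset.sum_congr rfl fun a _ => ?_
        ring
      simp only [e5, if_true, if_neg h12.symm]
      rw [e2, div_eq_iff hΔ, hΔd]
      have e3 : P = -(u' i₁ * M' i₁ j + u' i₂ * M' i₂ j) := by linarith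
      have e4 : Q = -(v' i₁ * M' i₁ j + v' i₂ * M' i₂ j) := by linarith
      rw [e3, e4]
      ring
    · simp only [if_neg e1, if_neg e5]
      rw [Finset.sum_eq_single (⟨i, mem_erase.2 ⟨e5, mem_erase.2 ⟨e1, hi⟩⟩⟩ :
        {i // i ∈ (T.erase i₁).erase i₂})]
      · rw [if_pos rfl, one_mul]
      · intro a _ ha
        rw [if_neg, zero_mul]
        intro h
        exact ha (Subtype.ext h.symm)
      · intro h
        exact absurd (Finset.mem_univ _) h

private theorem kern_two {m : ℕ} {T : Finset (Fin m)} (w : Fin m → ℝ) (i₁ i₂ : Fin m) (h₁ : i₁ ∈ T)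
    (h₂ : i₂ ∈ T) (h12 : i₁ ≠ i₂) (c₁ c₂ : ℝ) :
    ∑ l ∈ T, w l * (if l = i₁ then c₁ else if l = i₂ then c₂ else 0) = w i₁ * c₁ + w i₂ * c₂ := by
  classical
  have hm2 : i₂ ∈ T.erase i₁ := mem_erase.2 ⟨h12.symm, h₂⟩
  rw [← Finset.add_sum_erase T _ h₁, ← Finset.add_sum_erase (T.erase i₁) _ hm2, Finset.sum_eq_zero]
  · rw [if_pos rfl, if_neg h12.symm, if_pos rfl, add_zero]
  · intro l hl
    rw [mem_erase, mem_erase] at hl
    rw [if_neg hl.2.1, if_neg hl.1, mul_zero]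

/-- Data with a two dimensional isotropic space of row relations are limits of data completable with
corank two. -/
theorem mem_closure_of_kernel {m n : ℕ} {E : Finset (Fin m × Fin n)} {T : Finset (Fin m)}
    {J D : Finset (Fin n)} (X : Fin m → Fin n → ℝ) (ρ : Fin n → Fin m) (hDJ : D ⊆ J)
    (hρT : ∀ j ∈ D, ρ j ∈ T) (hinj : Set.InjOn ρ (D : Set (Fin n)))
    (hunk : ∀ j ∈ D, (ρ j, j) ∉ E) (u v : Fin m → ℝ) (i₁ i₂ : Fin m) (h₁ : i₁ ∈ T) (h₂ : i₂ ∈ T)
    (hmin : u i₁ * v i₂ - u i₂ * v i₁ ≠ 0)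
    (hfull : ∀ j ∈ J, j ∉ D → ∑ i ∈ T, u i * X i j = 0 ∧ ∑ i ∈ T, v i * X i j = 0)
    (hD : ∀ j ∈ D, u (ρ j) * ∑ i ∈ T.erase (ρ j), v i * X i j =
      v (ρ j) * ∑ i ∈ T.erase (ρ j), u i * X i j) :
    X ∈ closure {X' : Fin m → Fin n → ℝ | Fac E (T.card - 2) T J X'} := by
  classical
  have h12 : i₁ ≠ i₂ := by
    rintro rfl
    apply hmin
    ring
  obtain ⟨Su, hSu⟩ : ∃ Su : Fin n → ℝ, Su = fun j => ∑ l ∈ T.erase (ρ j), u l * X l j := ⟨_, rfl⟩
  obtain ⟨Sv, hSv⟩ : ∃ Sv : Fin n → ℝ, Sv = fun j => ∑ l ∈ T.erase (ρ j), v l * X l j := ⟨_, rfl⟩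
  obtain ⟨α, hα⟩ : ∃ α : Fin n → ℝ, α = fun j => if u (ρ j) = 0 ∧ v (ρ j) = 0 then Su j else 0 := ⟨_, rfl⟩
  obtain ⟨β, hβ⟩ : ∃ β : Fin n → ℝ, β = fun j => if u (ρ j) = 0 ∧ v (ρ j) = 0 then Sv j else 0 := ⟨_, rfl⟩
  obtain ⟨a, ha⟩ : ∃ a : Fin m → ℝ, a = fun i => ∑ j ∈ D, if ρ j = i then α j else 0 := ⟨_, rfl⟩
  obtain ⟨b, hb⟩ : ∃ b : Fin m → ℝ, b = fun i => ∑ j ∈ D, if ρ j = i then β j else 0 := ⟨_, rfl⟩
  have hsel : ∀ (γ : Fin n → ℝ), ∀ j ∈ D, (∑ k ∈ D, if ρ k = ρ j then γ k else 0) = γ j := by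
    intro γ j hj
    rw [Finset.sum_eq_single j]
    · rw [if_pos rfl]
    · intro k hk hkj
      rw [if_neg]
      intro h
      exact hkj (hinj (mem_coe.2 hk) (mem_coe.2 hj) h)
    · intro h
      exact absurd hj h
  have haρ : ∀ j ∈ D, a (ρ j) = α j := by
    intro j hj
    rw [ha]
    exact hsel α j hj
  have hbρ : ∀ j ∈ D, b (ρ j) = β j := by
    intro j hj
    rw [hb]
    exact hsel β j hj
  obtain ⟨μ, hμ⟩ : ∃ μ : ℝ → Fin n → ℝ, μ = fun e j => if u (ρ j) = 0 ∧ v (ρ j) = 0 then -(1 / e)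
    else if u (ρ j) = 0 then -(Sv j) / (v (ρ j)) else -(Su j) / (u (ρ j)) := ⟨_, rfl⟩
  obtain ⟨M, hM⟩ : ∃ M : ℝ → Fin m → Fin n → ℝ, M = fun e i j => if j ∈ D ∧ i = ρ j then μ e j else X i j := ⟨_, rfl⟩
  obtain ⟨Pu, hPu⟩ : ∃ Pu : Fin n → ℝ, Pu = fun j => ∑ l ∈ (if j ∈ D then T.erase (ρ j) else T), a l * X l j :=
    ⟨_, rfl⟩
  obtain ⟨Pv, hPv⟩ : ∃ Pv : Fin n → ℝ, Pv = fun j => ∑ l ∈ (if j ∈ D then T.erase (ρ j) else T), b l * X l j :=
    ⟨_, rfl⟩
  -- the residues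
  have gen : ∀ (w c : Fin m → ℝ) (e : ℝ), ∀ j ∈ J, (j ∉ D → ∑ l ∈ T, w l * X l j = 0) →
      (j ∈ D → (w (ρ j) + e * c (ρ j)) * μ e j + ∑ l ∈ T.erase (ρ j), w l * X l j = 0) →
      ∑ l ∈ T, (w l + e * c l) * M e l j = e * ∑ l ∈ (if j ∈ D then T.erase (ρ j) else T), c l * X l j := by
    intro w c e j _ h1 h2
    by_cases hj : j ∈ D
    · rw [if_pos hj, ← Finset.add_sum_erase T _ (hρT j hj)]
      have e1 : M e (ρ j) j = μ e j := by
        rw [hM]
        exact if_pos ⟨hj, rfl⟩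
      have e2 : ∑ l ∈ T.erase (ρ j), (w l + e * c l) * M e l j =
          ∑ l ∈ T.erase (ρ j), w l * X l j + e * ∑ l ∈ T.erase (ρ j), c l * X l j := by
        rw [Finset.mul_sum, ← Finset.sum_add_distrib]
        refine Finset.sum_congr rfl fun l hl => ?_
        have e3 : M e l j = X l j := by
          rw [hM]
          exact if_neg fun h => (mem_erase.1 hl).1 h.2
        rw [e3]
        ring
      rw [e1, e2]
      have := h2 hj
      linarith
    · rw [if_neg hj]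
      have e2 : ∑ l ∈ T, (w l + e * c l) * M e l j = ∑ l ∈ T, w l * X l j + e * ∑ l ∈ T, c l * X l j := by
        rw [Finset.mul_sum, ← Finset.sum_add_distrib]
        refine Finset.sum_congr rfl fun l hl => ?_
        have e3 : M e l j = X l j := by
          rw [hM]
          exact if_neg fun h => hj h.1
        rw [e3]
        ring
      rw [e2, h1 hj, zero_add]
  have keyu : ∀ e : ℝ, e ≠ 0 → ∀ j ∈ J, ∑ l ∈ T, (u l + e * a l) * M e l j = e * Pu j := by
    intro e he j hj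
    rw [hPu]
    refine gen u a e j hj (fun h => (hfull j hj h).1) fun h => ?_
    have h3 := hD j h
    have h4 : ∑ l ∈ T.erase (ρ j), u l * X l j = Su j := by rw [hSu]
    have h5 : ∑ l ∈ T.erase (ρ j), v l * X l j = Sv j := by rw [hSv]
    rw [h4, h5] at h3
    rw [haρ j h, h4, hα, hμ]
    simp only
    by_cases c1 : u (ρ j) = 0
    · by_cases c2 : v (ρ j) = 0
      · rw [if_pos ⟨c1, c2⟩, if_pos ⟨c1, c2⟩, c1]
        field_simp
        ring
      · rw [if_neg fun h => c2 h.2, if_neg fun h => c2 h.2, if_pos c1, c1]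
        rw [c1, zero_mul] at h3
        have h6 : Su j = 0 := (mul_eq_zero.1 h3.symm).resolve_left c2
        rw [h6]
        ring
    · rw [if_neg fun h => c1 h.1, if_neg fun h => c1 h.1, if_neg c1]
      field_simp
      ring
  have keyv : ∀ e : ℝ, e ≠ 0 → ∀ j ∈ J, ∑ l ∈ T, (v l + e * b l) * M e l j = e * Pv j := by
    intro e he j hj
    rw [hPv]
    refine gen v b e j hj (fun h => (hfull j hj h).2) fun h => ?_
    have h3 := hD j h
    have h4 : ∑ l ∈ T.erase (ρ j), u l * X l j = Su j := by rw [hSu]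
    have h5 : ∑ l ∈ T.erase (ρ j), v l * X l j = Sv j := by rw [hSv]
    rw [h4, h5] at h3
    rw [hbρ j h, h5, hβ, hμ]
    simp only
    by_cases c1 : u (ρ j) = 0
    · by_cases c2 : v (ρ j) = 0
      · rw [if_pos ⟨c1, c2⟩, if_pos ⟨c1, c2⟩, c2]
        field_simp
        ring
      · rw [if_neg fun h => c2 h.2, if_neg fun h => c2 h.2, if_pos c1]
        field_simp
        ring
    · rw [if_neg fun h => c1 h.1, if_neg fun h => c1 h.1, if_neg c1]
      field_simp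
      linarith
  -- the corrected data
  obtain ⟨Δ, hΔ⟩ : ∃ Δ : ℝ → ℝ, Δ = fun e => (u i₁ + e * a i₁) * (v i₂ + e * b i₂) -
    (u i₂ + e * a i₂) * (v i₁ + e * b i₁) := ⟨_, rfl⟩
  obtain ⟨c₁, hc₁⟩ : ∃ c₁ : ℝ → Fin n → ℝ, c₁ = fun e j => (-(e * Pu j) * (v i₂ + e * b i₂) +
    (e * Pv j) * (u i₂ + e * a i₂)) / Δ e := ⟨_, rfl⟩
  obtain ⟨c₂, hc₂⟩ : ∃ c₂ : ℝ → Fin n → ℝ, c₂ = fun e j => (-(e * Pv j) * (u i₁ + e * a i₁) +
    (e * Pu j) * (v i₁ + e * b i₁)) / Δ e := ⟨_, rfl⟩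
  have hΔc : ContinuousAt Δ 0 := by
    rw [hΔ]
    fun_prop
  have hΔ0 : Δ 0 ≠ 0 := by
    rw [hΔ]
    simpa using hmin
  have hΔe : ∀ᶠ e in nhds (0 : ℝ), Δ e ≠ 0 := hΔc.eventually_ne hΔ0
  have t1 : ∀ j, Filter.Tendsto (fun e => c₁ e j) (nhds 0) (nhds 0) := by
    intro j
    have h : ContinuousAt (fun e => c₁ e j) 0 := by
      rw [hc₁]
      exact ContinuousAt.div (by fun_prop) hΔc hΔ0
    have h2 := h.tendsto
    have h3 : c₁ 0 j = 0 := by
      rw [hc₁]
      simp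
    rwa [h3] at h2
  have t2 : ∀ j, Filter.Tendsto (fun e => c₂ e j) (nhds 0) (nhds 0) := by
    intro j
    have h : ContinuousAt (fun e => c₂ e j) 0 := by
      rw [hc₂]
      exact ContinuousAt.div (by fun_prop) hΔc hΔ0
    have h2 := h.tendsto
    have h3 : c₂ 0 j = 0 := by
      rw [hc₂]
      simp
    rwa [h3] at h2
  refine mem_closure_of_tendsto (b := nhdsWithin (0 : ℝ) (Set.Ioi 0))
    (f := fun e i j => X i j + (if i = i₁ then c₁ e j else if i = i₂ then c₂ e j else 0)) ?_ ?_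
  · refine tendsto_pi_nhds.2 fun i => tendsto_pi_nhds.2 fun j => ?_
    refine Filter.Tendsto.mono_left ?_ nhdsWithin_le_nhds
    have h0 : X i j = X i j + 0 := (add_zero _).symm
    nth_rewrite 2 [h0]
    refine Filter.Tendsto.add tendsto_const_nhds ?_
    by_cases g1 : i = i₁
    · simp only [if_pos g1]
      exact t1 j
    · by_cases g2 : i = i₂
      · simp only [if_neg g1, if_pos g2]
        exact t2 j
      · simp only [if_neg g1, if_neg g2]
        exact tendsto_const_nhds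
  · filter_upwards [self_mem_nhdsWithin, nhdsWithin_le_nhds hΔe] with e he hΔne
    have he0 : e ≠ 0 := (Set.mem_Ioi.1 he).ne'
    have hΔv : (u i₁ + e * a i₁) * (v i₂ + e * b i₂) - (u i₂ + e * a i₂) * (v i₁ + e * b i₁) = Δ e := by
      rw [hΔ]
    refine kern_fac (fun l => u l + e * a l) (fun l => v l + e * b l) i₁ i₂ h₁ h₂ h12 ?_
      (fun i j => M e i j + (if i = i₁ then c₁ e j else if i = i₂ then c₂ e j else 0)) ?_ ?_ _ ?_
    · rw [hΔv]
      exact hΔne
    · intro j hj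
      simp only [mul_add]
      rw [Finset.sum_add_distrib, keyu e he0 j hj, kern_two _ i₁ i₂ h₁ h₂ h12, hc₁, hc₂]
      simp only
      have hne : Δ e ≠ 0 := hΔne
      have q : (u i₁ + e * a i₁) * ((-(e * Pu j) * (v i₂ + e * b i₂) + (e * Pv j) * (u i₂ + e * a i₂)) / Δ e) +
          (u i₂ + e * a i₂) * ((-(e * Pv j) * (u i₁ + e * a i₁) + (e * Pu j) * (v i₁ + e * b i₁)) / Δ e) =
          -(e * Pu j) * (((u i₁ + e * a i₁) * (v i₂ + e * b i₂) - (u i₂ + e * a i₂) * (v i₁ + e * b i₁)) / Δ e) := by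
        ring
      rw [q, hΔv, div_self hne]
      ring
    · intro j hj
      simp only [mul_add]
      rw [Finset.sum_add_distrib, keyv e he0 j hj, kern_two _ i₁ i₂ h₁ h₂ h12, hc₁, hc₂]
      simp only
      have hne : Δ e ≠ 0 := hΔne
      have q : (v i₁ + e * b i₁) * ((-(e * Pu j) * (v i₂ + e * b i₂) + (e * Pv j) * (u i₂ + e * a i₂)) / Δ e) +
          (v i₂ + e * b i₂) * ((-(e * Pv j) * (u i₁ + e * a i₁) + (e * Pu j) * (v i₁ + e * b i₁)) / Δ e) =
          -(e * Pv j) * (((u i₁ + e * a i₁) * (v i₂ + e * b i₂) - (u i₂ + e * a i₂) * (v i₁ + e * b i₁)) / Δ e) := by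
        ring
      rw [q, hΔv, div_self hne]
      ring
    · intro i hi j hj hij
      have e3 : M e i j = X i j := by
        rw [hM]
        refine if_neg fun h => ?_
        rw [h.2] at hij
        exact hunk j h.1 hij
      rw [e3]

end Pool.MP_2cf74a
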