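import Pool.Agent.Lib.MP_2cf74a_ag.TR.QDense
import Pool.Agent.Lib.MP_2cf74a_ag.TR.Kern

/-!
ROW Six (about 90 lines).  PROOF IN WORDS.
Choose a bijection of Fin 6 with D (D.equivFin / orderIsoOfFin), columns c : Fin 7 -> Fin n with c (castSucc l) = the l-th element of D and
c 6 = the remaining column j7 of J, rows r l = rho (c (castSucc l)); the rows r : Fin 6 -> Fin m are a bijection onto T (injective,
card T = 6).  The map X |-> (fun i j => X (r i) (c j)) from data on Fin m x Fin n to Fin 6 -> Fin 7 -> R is continuous, open and surjective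
(coordinate projection), so the X with Iso of the restriction are dense (Dense.preimage for open maps: Dense.preimage hs (IsOpenMap)).
For such X transport u, v to Fin m (zero outside T: via Function.extend r or by the inverse) and apply mem_closure_of_kernel; conclude with
closure_closure as in TR/Block.
-/

open Finset

namespace Pool.MP_2cf74a

private theorem six_open {m n a b : ℕ} (r : Fin a → Fin m) (c : Fin b → Fin n)
    (hr : Function.Injective r) (hc : Function.Injective c)
    {S : Set (Fin a → Fin b → ℝ)} (hS : Dense S) :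
    Dense {X : Fin m → Fin n → ℝ | (fun i j => X (r i) (c j)) ∈ S} := by
  let Φ : (Fin m → Fin n → ℝ) →ₗ[ℝ] (Fin a → Fin b → ℝ) :=
    { toFun := fun X i j => X (r i) (c j)
      map_add' := fun _ _ => rfl
      map_smul' := fun _ _ => rfl }
  have hsurj : Function.Surjective Φ := by
    intro Y
    refine ⟨Function.extend r (fun i => Function.extend c (Y i) 0) 0, ?_⟩
    funext i j
    show Function.extend r (fun i => Function.extend c (Y i) 0) 0 (r i) (c j) = Y i j
    rw [hr.extend_apply, hc.extend_apply]
  have hopen : IsOpenMap Φ := LinearMap.isOpenMap_of_finiteDimensional Φ hsurj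
  exact hS.preimage hopen

/-- A 6 x 7 pattern with six unspecified entries in different rows and different columns has real
completions of rank four. -/
theorem good_six {m n : ℕ} {E : Finset (Fin m × Fin n)} {T : Finset (Fin m)}
    {J D : Finset (Fin n)} (hT : T.card = 6) (hJ : J.card = 7) (hDJ : D ⊆ J) (hDc : D.card = 6)
    (ρ : Fin n → Fin m) (hρT : ∀ j ∈ D, ρ j ∈ T) (hinj : Set.InjOn ρ (D : Set (Fin n)))
    (hunk : ∀ j ∈ D, (ρ j, j) ∉ E) : Good E 4 T J := by
  classical
  obtain ⟨e⟩ : Nonempty (Fin 6 ≃ D) := ⟨(D.equivFinOfCardEq hDc).symm⟩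
  have hsd : (J \ D).card = 1 := by
    rw [Finset.card_sdiff_of_subset hDJ, hJ, hDc]
  obtain ⟨j7, hj7⟩ := Finset.card_eq_one.1 hsd
  have hj7m : j7 ∈ J \ D := by
    rw [hj7]
    exact Finset.mem_singleton_self j7
  have hj7D : j7 ∉ D := (Finset.mem_sdiff.1 hj7m).2
  obtain ⟨c, hc⟩ : ∃ c : Fin 6 → Fin n, c = fun l => ((e l : D) : Fin n) := ⟨_, rfl⟩
  have hcD : ∀ l, c l ∈ D := fun l => by rw [hc]; exact (e l).2
  have hcinj : Function.Injective c := by
    intro l l' h
    rw [hc] at h
    exact e.injective (Subtype.ext h)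
  obtain ⟨r, hr⟩ : ∃ r : Fin 6 → Fin m, r = fun l => ρ (c l) := ⟨_, rfl⟩
  have hrinj : Function.Injective r := by
    intro l l' h
    rw [hr] at h
    exact hcinj (hinj (hcD l) (hcD l') h)
  have hrT : ∀ l, r l ∈ T := fun l => by rw [hr]; exact hρT _ (hcD l)
  have hTim : Finset.univ.image r = T := by
    refine Finset.eq_of_subset_of_card_le ?_ ?_
    · intro i hi
      obtain ⟨l, _, rfl⟩ := Finset.mem_image.1 hi
      exact hrT l
    · rw [hT, Finset.card_image_of_injective _ hrinj, Finset.card_univ, Fintype.card_fin]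
  have hTer : ∀ L, (Finset.univ.erase L).image r = T.erase (r L) := by
    intro L
    rw [Finset.image_erase hrinj, hTim]
  obtain ⟨d, hd⟩ : ∃ d : Fin 7 → Fin n, d = Fin.snoc (α := fun _ => Fin n) c j7 := ⟨_, rfl⟩
  have hd1 : ∀ L : Fin 6, d L.castSucc = c L := fun L => by
    rw [hd, Fin.snoc_castSucc]
  have hd2 : d 6 = j7 := by
    rw [hd]
    exact Fin.snoc_last (α := fun _ => Fin n) j7 c
  have hdinj : Function.Injective d := by
    intro a b
    refine Fin.lastCases ?_ (fun a => ?_) a
    · refine Fin.lastCases ?_ (fun b => ?_) b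
      · intro _
        rfl
      · intro h
        exfalso
        rw [hd1 b] at h
        have h2 : d (Fin.last 6) = j7 := hd2
        rw [h2] at h
        exact hj7D (h ▸ hcD b)
    · refine Fin.lastCases ?_ (fun b => ?_) b
      · intro h
        exfalso
        rw [hd1 a] at h
        have h2 : d (Fin.last 6) = j7 := hd2
        rw [h2] at h
        exact hj7D (h ▸ hcD a)
      · intro h
        rw [hd1 a, hd1 b] at h
        rw [hcinj h]
  have hdense := six_open r d hrinj hdinj dense_iso
  unfold Good
  refine dense_closure.1 (Dense.mono ?_ hdense)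
  rintro X ⟨u, v, ⟨i₁, i₂, hmin⟩, hu, hv, hom⟩
  have key := mem_closure_of_kernel (E := E) (T := T) (J := J) (D := D) X ρ hDJ hρT hinj hunk
    (Function.extend r u 0) (Function.extend r v 0) (r i₁) (r i₂) (hrT i₁) (hrT i₂)
    (by rw [hrinj.extend_apply, hrinj.extend_apply, hrinj.extend_apply, hrinj.extend_apply]
        exact hmin)
    (by
      intro j hj hjD
      have hjj : j = j7 := by
        have : j ∈ J \ D := Finset.mem_sdiff.2 ⟨hj, hjD⟩
        rw [hj7] at this
        exact Finset.mem_singleton.1 this
      subst hjj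
      rw [← hTim, Finset.sum_image fun a _ b _ h => hrinj h,
        Finset.sum_image fun a _ b _ h => hrinj h]
      constructor
      · rw [← hu]
        refine Finset.sum_congr rfl fun i _ => ?_
        rw [hrinj.extend_apply]
        show u i * X (r i) j = u i * X (r i) (d 6)
        rw [hd2]
      · rw [← hv]
        refine Finset.sum_congr rfl fun i _ => ?_
        rw [hrinj.extend_apply]
        show v i * X (r i) j = v i * X (r i) (d 6)
        rw [hd2])
    (by
      intro j hj
      obtain ⟨L, hL⟩ : ∃ L, c L = j := ⟨e.symm ⟨j, hj⟩, by rw [hc]; simp⟩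
      have hρ : ρ j = r L := by
        rw [hr, ← hL]
      rw [hρ, ← hTer L, Finset.sum_image fun a _ b _ h => hrinj h,
        Finset.sum_image fun a _ b _ h => hrinj h, hrinj.extend_apply, hrinj.extend_apply]
      have h := hom L
      unfold om at h
      have e1 : ∀ w : Fin 6 → ℝ, ∑ i ∈ Finset.univ.erase L, w i * X (r i) (d L.castSucc) =
          ∑ i ∈ Finset.univ.erase L, Function.extend r w 0 (r i) * X (r i) j := by
        intro w
        refine Finset.sum_congr rfl fun i _ => ?_
        rw [hrinj.extend_apply, hd1, hL]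
      rw [← e1 u, ← e1 v]
      exact sub_eq_zero.1 h)
  rw [hT] at key
  exact key

end Pool.MP_2cf74a
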