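import Pool.Agent.Lib.MP_2cf74a_ag.TR.DimB
import Pool.Agent.Lib.MP_2cf74a_ag.TR.Six
import Pool.Agent.Lib.MP_2cf74a_ag.TR.Comp
import Pool.Agent.Lib.MP_2cf74a_ag.TR.Block

/-!
Square patterns whose unspecified entries lie in different rows and different columns.
-/

open Finset

namespace Pool.MP_2cf74a

/-- All positions except `(ρ j, j)` for `j ∈ D`. -/
def coMatching (n : ℕ) (D : Finset (Fin n)) (ρ : Fin n → Fin n) : Finset (Fin n × Fin n) :=
  univ.filter (fun p => ¬ (p.2 ∈ D ∧ p.1 = ρ p.2))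

theorem mem_coMatching {n : ℕ} {D : Finset (Fin n)} {ρ : Fin n → Fin n} {i j : Fin n} :
    (i, j) ∈ coMatching n D ρ ↔ ¬ (j ∈ D ∧ i = ρ j) := by
  simp [coMatching]

/-- The columns completely specified on a set of rows. -/
theorem full_match {n : ℕ} {D D' : Finset (Fin n)} {ρ : Fin n → Fin n} {S : Finset (Fin n)}
    (hD' : D' ⊆ D) (hS : ∀ j ∈ D', ρ j ∈ S) :
    ((univ : Finset (Fin n)).filter (fun j => ∀ i ∈ S, (i, j) ∈ coMatching n D ρ)).card
      ≤ n - D'.card := by
  have h1 : (univ : Finset (Fin n)).filter (fun j => ∀ i ∈ S, (i, j) ∈ coMatching n D ρ) ⊆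
      univ \ D' := by
    intro j hj
    rw [Finset.mem_filter] at hj
    rw [Finset.mem_sdiff]
    exact ⟨Finset.mem_univ _, fun hs => (mem_coMatching.1 (hj.2 (ρ j) (hS j hs))) ⟨hD' hs, rfl⟩⟩
  have h2 := Finset.card_le_card h1
  rwa [Finset.card_sdiff_of_subset (Finset.subset_univ _), Finset.card_univ,
    Fintype.card_fin] at h2

/-- Adding the rows outside of `T`, in matched columns `D'`, to `T`. -/
theorem good_match {n R s : ℕ} {D D' : Finset (Fin n)} {ρ : Fin n → Fin n} {T S : Finset (Fin n)}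
    (hD' : D' ⊆ D) (hS : ∀ j ∈ D', ρ j ∈ S) (hTS : Disjoint T S) (hs : S.card = s + 1)
    (hc : n ≤ R + s + D'.card) (h : Good (coMatching n D ρ) R T univ) :
    Good (coMatching n D ρ) (R + s) (T ∪ S) univ := by
  refine good_block h hTS hs ?_
  have := full_match hD' hS
  omega

/-- The first block. -/
theorem good_last {n R : ℕ} {D D' : Finset (Fin n)} {ρ : Fin n → Fin n} {T : Finset (Fin n)}
    (hD' : D' ⊆ D) (hT : ∀ j ∈ D', ρ j ∈ T) (hs : T.card = R + 1) (hc : n ≤ R + D'.card) :
    Good (coMatching n D ρ) R T univ := by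
  have h := good_match (n := n) (R := 0) (s := R) (D := D) (D' := D') (ρ := ρ) (T := ∅)
    (S := T) hD' hT (Finset.disjoint_empty_left _) hs (by omega)
    (good_of_rows (by rw [Finset.card_empty]))
  rwa [Finset.empty_union, zero_add] at h

theorem card_rest {n : ℕ} {D D' : Finset (Fin n)} {ρ : Fin n → Fin n}
    (hinj : Set.InjOn ρ (D : Set (Fin n))) {T : Finset (Fin n)} (hD' : D' ⊆ D)
    (hT : ∀ j ∈ D', ρ j ∈ T) : (T \ D'.image ρ).card = T.card - D'.card := by
  have hsub : D'.image ρ ⊆ T := by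
    intro i hi
    obtain ⟨j, hj, rfl⟩ := Finset.mem_image.1 hi
    exact hT j hj
  rw [Finset.card_sdiff_of_subset hsub,
    Finset.card_image_of_injOn (hinj.mono (by exact_mod_cast hD'))]

theorem mem_rest {n : ℕ} {D D' : Finset (Fin n)} {ρ : Fin n → Fin n}
    (hinj : Set.InjOn ρ (D : Set (Fin n))) {T : Finset (Fin n)} (hD' : D' ⊆ D) {j : Fin n}
    (hj : j ∈ D) (hj' : j ∉ D') (hT : ρ j ∈ T) : ρ j ∈ T \ D'.image ρ := by
  rw [Finset.mem_sdiff, Finset.mem_image]
  refine ⟨hT, ?_⟩
  rintro ⟨l, hl, hlj⟩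
  exact hj' (hinj (hD' hl) hj hlj ▸ hl)

/-- Splitting off the rows of a set of matched columns. -/
theorem good_split {n R R' s : ℕ} {D D' : Finset (Fin n)} {ρ : Fin n → Fin n}
    (hinj : Set.InjOn ρ (D : Set (Fin n))) {T : Finset (Fin n)}
    (hD' : D' ⊆ D) (hT : ∀ j ∈ D', ρ j ∈ T) (hs : D'.card = s + 1)
    (hc : n ≤ R + s + D'.card) (hR : R + s = R')
    (h : Good (coMatching n D ρ) R (T \ D'.image ρ) univ) :
    Good (coMatching n D ρ) R' T univ := by
  subst hR
  have himg : (D'.image ρ).card = s + 1 := by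
    rw [Finset.card_image_of_injOn (hinj.mono (by exact_mod_cast hD')), hs]
  have hsub : D'.image ρ ⊆ T := by
    intro i hi
    obtain ⟨j, hj, rfl⟩ := Finset.mem_image.1 hi
    exact hT j hj
  have h2 := good_match (S := D'.image ρ) hD' (fun j hj => Finset.mem_image_of_mem ρ hj)
    Finset.sdiff_disjoint himg hc h
  rwa [Finset.sdiff_union_of_subset hsub] at h2

theorem card_le_n {n : ℕ} (D : Finset (Fin n)) : D.card ≤ n := by
  have := Finset.card_le_univ D
  rwa [Fintype.card_fin] at this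

theorem good_match_one {n : ℕ} {D : Finset (Fin n)} {ρ : Fin n → Fin n} (hD : 1 ≤ D.card) :
    Good (coMatching n D ρ) (n - 1) univ univ := by
  have hn := card_le_n D
  exact good_last (D' := D) (Finset.Subset.refl _) (fun j _ => Finset.mem_univ _)
    (by rw [Finset.card_univ, Fintype.card_fin]; omega) (by omega)

theorem good_match_two {n : ℕ} {D : Finset (Fin n)} {ρ : Fin n → Fin n}
    (hinj : Set.InjOn ρ (D : Set (Fin n))) (hD : 5 ≤ D.card) :
    Good (coMatching n D ρ) (n - 2) univ univ := by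
  have hn := card_le_n D
  obtain ⟨D₂, hD₂, hc₂⟩ := Finset.exists_subset_card_eq (s := D) (n := 2) (by omega)
  have hrest : (D \ D₂).card = D.card - 2 := by
    rw [Finset.card_sdiff_of_subset hD₂, hc₂]
  have hTc := card_rest hinj (T := univ) hD₂ (fun _ _ => Finset.mem_univ _)
  rw [Finset.card_univ, Fintype.card_fin, hc₂] at hTc
  refine good_split hinj (D' := D₂) (s := 1) (R := n - 3) hD₂ (fun _ _ => Finset.mem_univ _) hc₂
    (by omega) (by omega) ?_
  refine good_last (D' := D \ D₂) Finset.sdiff_subset ?_ (by rw [hTc]; omega) (by omega)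
  intro j hj
  rw [Finset.mem_sdiff] at hj
  exact mem_rest hinj hD₂ hj.1 hj.2 (Finset.mem_univ _)

theorem good_match_three {n : ℕ} {D : Finset (Fin n)} {ρ : Fin n → Fin n}
    (hinj : Set.InjOn ρ (D : Set (Fin n))) (hD : 17 ≤ D.card) :
    Good (coMatching n D ρ) (n - 3) univ univ := by
  have hn := card_le_n D
  obtain ⟨D₃, hD₃, hc₃⟩ := Finset.exists_subset_card_eq (s := D) (n := 3) (by omega)
  have hr₃ : (D \ D₃).card = D.card - 3 := by
    rw [Finset.card_sdiff_of_subset hD₃, hc₃]
  obtain ⟨D₂, hD₂, hc₂⟩ := Finset.exists_subset_card_eq (s := D \ D₃) (n := 5) (by omega)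
  have hr₂ : ((D \ D₃) \ D₂).card = D.card - 8 := by
    rw [Finset.card_sdiff_of_subset hD₂, hc₂, hr₃]; omega
  have hD₂' : D₂ ⊆ D := hD₂.trans Finset.sdiff_subset
  have hT₁ : ∀ j ∈ D₂, ρ j ∈ univ \ D₃.image ρ := by
    intro j hj
    have h := hD₂ hj
    rw [Finset.mem_sdiff] at h
    exact mem_rest hinj hD₃ h.1 h.2 (Finset.mem_univ _)
  have hc1 := card_rest hinj (T := univ) hD₃ (fun _ _ => Finset.mem_univ _)
  rw [Finset.card_univ, Fintype.card_fin, hc₃] at hc1
  have hc2 := card_rest hinj (T := univ \ D₃.image ρ) hD₂' hT₁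
  rw [hc1, hc₂] at hc2
  refine good_split hinj (D' := D₃) (s := 2) (R := n - 5) hD₃ (fun _ _ => Finset.mem_univ _) hc₃
    (by omega) (by omega) ?_
  refine good_split hinj (D' := D₂) (s := 4) (R := n - 9) hD₂' hT₁ hc₂ (by omega) (by omega) ?_
  refine good_last (D' := (D \ D₃) \ D₂) (Finset.sdiff_subset.trans Finset.sdiff_subset) ?_
    (by rw [hc2]; omega) (by omega)
  intro j hj
  rw [Finset.mem_sdiff, Finset.mem_sdiff] at hj
  exact mem_rest hinj hD₂' hj.1.1 hj.2 (mem_rest hinj hD₃ hj.1.1 hj.1.2 (Finset.mem_univ _))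

/-- Sixteen unspecified entries. -/
theorem good_match_sixteen {n : ℕ} {D : Finset (Fin n)} {ρ : Fin n → Fin n}
    (hinj : Set.InjOn ρ (D : Set (Fin n))) (hD : D.card = 16) :
    Good (coMatching n D ρ) (n - 3) univ univ := by
  have hn := card_le_n D
  obtain ⟨D₆, hD₆, hc₆⟩ := Finset.exists_subset_card_eq (s := D) (n := 6) (by omega)
  have hr₆ : (D \ D₆).card = 10 := by
    rw [Finset.card_sdiff_of_subset hD₆, hc₆, hD]
  have hcT := card_rest hinj (T := univ) hD₆ (fun _ _ => Finset.mem_univ _)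
  rw [Finset.card_univ, Fintype.card_fin, hc₆] at hcT
  have hTm : ∀ j ∈ D \ D₆, ρ j ∈ univ \ D₆.image ρ := by
    intro j hj
    rw [Finset.mem_sdiff] at hj
    exact mem_rest hinj hD₆ hj.1 hj.2 (Finset.mem_univ _)
  have h1 : Good (coMatching n D ρ) (n - 7) (univ \ D₆.image ρ) univ :=
    good_last (D' := D \ D₆) Finset.sdiff_subset hTm (by rw [hcT]; omega) (by omega)
  have hcol : ((univ : Finset (Fin n)) \ D₆).card = n - 6 := by
    rw [Finset.card_sdiff_of_subset (Finset.subset_univ _), Finset.card_univ, Fintype.card_fin,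
      hc₆]
  obtain ⟨K, hK, hKc⟩ := Finset.exists_subset_card_eq (s := univ \ D₆) (n := n - 7) (by omega)
  have himg : (D₆.image ρ).card = 6 := by
    rw [Finset.card_image_of_injOn (hinj.mono (by exact_mod_cast hD₆)), hc₆]
  have hsix : Good (coMatching n D ρ) 4 (D₆.image ρ) (univ \ K) := by
    refine good_six (D := D₆) himg ?_ ?_ hc₆ ρ ?_ ?_ ?_
    · rw [Finset.card_sdiff_of_subset (Finset.subset_univ _), Finset.card_univ,
        Fintype.card_fin, hKc]
      omega
    · intro j hj
      rw [Finset.mem_sdiff]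
      refine ⟨Finset.mem_univ _, fun hjK => ?_⟩
      have := hK hjK
      rw [Finset.mem_sdiff] at this
      exact this.2 hj
    · intro j hj
      exact Finset.mem_image_of_mem ρ hj
    · exact hinj.mono (by exact_mod_cast hD₆)
    · intro j hj h
      exact (mem_coMatching.1 h) ⟨hD₆ hj, rfl⟩
  have h2 := good_comp (S := D₆.image ρ) (K := K) (R' := 4) h1 Finset.sdiff_disjoint
    (Finset.subset_univ _) hKc ?_ hsix
  · rw [Finset.sdiff_union_of_subset (Finset.subset_univ _)] at h2
    have : n - 7 + 4 = n - 3 := by omega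
    rwa [this] at h2
  · intro i hi j hj
    obtain ⟨l, hl, rfl⟩ := Finset.mem_image.1 hi
    rw [mem_coMatching]
    rintro ⟨hjD, hlj⟩
    have hlj' := hinj (hD₆ hl) hjD hlj
    subst hlj'
    have := hK hj
    rw [Finset.mem_sdiff] at this
    exact this.2 hl

theorem card_coMatching {n : ℕ} (D : Finset (Fin n)) (ρ : Fin n → Fin n) :
    (coMatching n D ρ).card + D.card = n * n := by
  have h1 : (univ : Finset (Fin n × Fin n)).filter (fun p => p.2 ∈ D ∧ p.1 = ρ p.2) =
      D.image (fun j => (ρ j, j)) := by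
    ext ⟨i, j⟩
    simp only [Finset.mem_filter, Finset.mem_univ, true_and, Finset.mem_image, Prod.mk.injEq]
    constructor
    · rintro ⟨hj, rfl⟩; exact ⟨j, hj, rfl, rfl⟩
    · rintro ⟨l, hl, rfl, rfl⟩; exact ⟨hl, rfl⟩
  have h2 : (D.image (fun j => (ρ j, j))).card = D.card :=
    Finset.card_image_of_injective _ (fun a b h => (Prod.mk.inj h).2)
  have h3 := Finset.card_filter_add_card_filter_not (s := (univ : Finset (Fin n × Fin n)))
    (fun p => p.2 ∈ D ∧ p.1 = ρ p.2)
  rw [h1, h2, Finset.card_univ, Fintype.card_prod, Fintype.card_fin] at h3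
  unfold coMatching
  omega

theorem cnt_univ {m n : ℕ} (E : Finset (Fin m × Fin n)) : cnt E univ univ = E.card := by
  unfold cnt
  congr 1
  ext p
  simp

/-- Any two typical ranks of a square pattern with at most 24 unspecified entries, in different rows
and different columns, differ by at most one. -/
theorem match_gap {n : ℕ} {D : Finset (Fin n)} {ρ : Fin n → Fin n}
    (hinj : Set.InjOn ρ (D : Set (Fin n))) (hD : D.card ≤ 24) {r s : ℕ}
    (hr : Typical (coMatching n D ρ) r) (hs : Typical (coMatching n D ρ) s) : s ≤ r + 1 := by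
  by_contra hcon
  have hn := card_le_n D
  have hle : s ≤ n := typical_le_of_good
    (good_of_rows (by rw [Finset.card_univ, Fintype.card_fin])) hs
  have hrn : r ≤ n := by omega
  have hc := count_of_typical hr univ univ (by rw [Finset.card_univ, Fintype.card_fin]; exact hrn)
    (by rw [Finset.card_univ, Fintype.card_fin]; exact hrn)
  rw [cnt_univ, Finset.card_univ, Fintype.card_fin] at hc
  have hcard := card_coMatching D ρ
  have hs1 : 1 ≤ D.card → s ≤ n - 1 := fun h => typical_le_of_good (good_match_one h) hs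
  have hs2 : 5 ≤ D.card → s ≤ n - 2 := fun h => typical_le_of_good (good_match_two hinj h) hs
  have hs3 : 16 ≤ D.card → s ≤ n - 3 := by
    intro h
    rcases Nat.lt_or_ge 16 D.card with h' | h'
    · exact typical_le_of_good (good_match_three hinj h') hs
    · exact typical_le_of_good (good_match_sixteen hinj (le_antisymm h' h)) hs
  obtain ⟨k, rfl⟩ : ∃ k, n = r + k := ⟨n - r, by omega⟩
  have hk : k * k ≤ D.card := by
    have e : (r + k) * (r + k) = r * (r + k + (r + k) - r) + k * k := by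
      have : r + k + (r + k) - r = r + 2 * k := by omega
      rw [this]; ring
    omega
  have hk2 : k ≤ 4 := by nlinarith
  interval_cases k <;> omega

end Pool.MP_2cf74a
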