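import Pool.Agent.Lib.MP_2cf74a_ag.TR.Base

/-!
ROW DimA (about 60 lines).  PROOF IN WORDS.
(1) fac_of_rank: the row space W of M has dimension M.rank <= R; take a basis of W (Module.finBasis),
indexed by Fin (M.rank), padded by 0 to Fin R (or use any Fintype index and pad with
Function.extend / Fintype.sum_of_injective): B = the basis vectors, A i = coordinates of row i.
(2) complRank_le: from a factorisation of the data x on E the matrix of the products is a completion of
rank at most R (Matrix.rank_mul_le_left, rank <= width), so Nat.sInf_le and Nat.le_trans.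
(3) typical_le_of_good: the restriction map (Fin m -> Fin n -> R) -> (E -> R) is continuous and
surjective, so the image of a dense set is dense (DenseRange.dense_image); a point of the image lies in
the nonempty open set interior {complRank = r}, and there complRank <= R by (2).
(4) fac_of_typical: every x has a completion of rank exactly complRank E x (Nat.sInf_mem, the set is not
empty), hence a factorisation of inner size complRank E x by (1).
-/

open Finset

namespace Pool.MP_2cf74a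

private theorem dimA_pad {m n k R : ℕ} (hkR : k ≤ R) (f : Fin m → Fin k → ℝ) (g : Fin k → Fin n → ℝ) :
    ∃ (A : Fin m → Fin R → ℝ) (B : Fin R → Fin n → ℝ), ∀ i j, ∑ a, A i a * B a j = ∑ a, f i a * g a j := by
  obtain ⟨A, hA⟩ : ∃ A : Fin m → Fin R → ℝ, ∀ i a, A i a = if h : (a : ℕ) < k then f i ⟨a, h⟩ else 0 :=
    ⟨fun i a => if h : (a : ℕ) < k then f i ⟨a, h⟩ else 0, fun _ _ => rfl⟩
  obtain ⟨B, hB⟩ : ∃ B : Fin R → Fin n → ℝ, ∀ a j, B a j = if h : (a : ℕ) < k then g ⟨a, h⟩ j else 0 :=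
    ⟨fun a j => if h : (a : ℕ) < k then g ⟨a, h⟩ j else 0, fun _ _ => rfl⟩
  refine ⟨A, B, fun i j => ?_⟩
  symm
  refine Fintype.sum_of_injective (Fin.castLE hkR) (Fin.castLE_injective hkR) _ _ ?_ ?_
  · intro a ha
    have hak : ¬ (a : ℕ) < k := fun hlt => ha ⟨⟨a, hlt⟩, by ext; rfl⟩
    rw [hA, dif_neg hak, zero_mul]
  · intro a
    have hak : ((Fin.castLE hkR a : Fin R) : ℕ) < k := a.2
    rw [hA, hB, dif_pos hak, dif_pos hak]
    rfl

/-- A matrix of rank at most `R` is a product of inner size `R`. -/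
theorem fac_of_rank {m n R : ℕ} (M : Matrix (Fin m) (Fin n) ℝ) (h : M.rank ≤ R) :
    ∃ (A : Fin m → Fin R → ℝ) (B : Fin R → Fin n → ℝ), ∀ i j, ∑ a, A i a * B a j = M i j := by
  obtain ⟨k, hk⟩ : ∃ k, k = Module.finrank ℝ (LinearMap.range M.mulVecLin) := ⟨_, rfl⟩
  have hkR : k ≤ R := by rw [hk]; exact h
  obtain ⟨b⟩ : Nonempty (Module.Basis (Fin k) ℝ (LinearMap.range M.mulVecLin)) :=
    ⟨Module.finBasisOfFinrankEq ℝ _ hk.symm⟩
  have hcol : ∀ j : Fin n, (fun i => M i j) ∈ LinearMap.range M.mulVecLin := by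
    intro j
    refine ⟨Pi.single j 1, ?_⟩
    rw [Matrix.mulVecLin_apply, Matrix.mulVec_single_one]
    rfl
  have hsum : ∀ i j, ∑ a : Fin k, (b a : Fin m → ℝ) i * b.repr ⟨fun i => M i j, hcol j⟩ a = M i j := by
    intro i j
    have h1 := congrArg (fun v : LinearMap.range M.mulVecLin => (v : Fin m → ℝ) i) (b.sum_repr ⟨fun i => M i j, hcol j⟩)
    simp only [Submodule.coe_sum, Submodule.coe_smul, Finset.sum_apply, Pi.smul_apply, smul_eq_mul] at h1
    rw [← h1]
    exact Finset.sum_congr rfl fun a _ => mul_comm _ _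
  obtain ⟨A, B, hAB⟩ := dimA_pad hkR (fun i a => (b a : Fin m → ℝ) i) (fun a j => b.repr ⟨fun i => M i j, hcol j⟩ a)
  exact ⟨A, B, fun i j => (hAB i j).trans (hsum i j)⟩

/-- A factorisation of size `R` bounds the completion rank. -/
theorem complRank_le {m n : ℕ} {E : Finset (Fin m × Fin n)} {R : ℕ} (x : E → ℝ)
    (A : Fin m → Fin R → ℝ) (B : Fin R → Fin n → ℝ)
    (h : ∀ e : E, ∑ a, A e.1.1 a * B a e.1.2 = x e) : complRank E x ≤ R := by
  have h1 : Completes E x (Matrix.of A * Matrix.of B) := by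
    intro e
    rw [Matrix.mul_apply]
    exact h e
  have h2 : complRank E x ≤ (Matrix.of A * Matrix.of B).rank := Nat.sInf_le ⟨_, h1, rfl⟩
  exact h2.trans ((Matrix.rank_mul_le_left _ _).trans (Matrix.rank_le_width _))

private theorem dimA_ext {m n : ℕ} {E : Finset (Fin m × Fin n)} (x : E → ℝ) :
    ∃ X : Fin m → Fin n → ℝ, ∀ e : E, X e.1.1 e.1.2 = x e := by
  classical
  refine ⟨fun i j => if h : (i, j) ∈ E then x ⟨(i, j), h⟩ else 0, fun e => ?_⟩
  have h : (e.1.1, e.1.2) ∈ E := e.2
  simp only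
  rw [dif_pos h]

/-- A partial matrix has a factorisation of size its completion rank. -/
theorem exists_fac_complRank {m n : ℕ} {E : Finset (Fin m × Fin n)} (x : E → ℝ) :
    ∃ (A : Fin m → Fin (complRank E x) → ℝ) (B : Fin (complRank E x) → Fin n → ℝ),
      ∀ e : E, ∑ a, A e.1.1 a * B a e.1.2 = x e := by
  have hne : {r | ∃ M : Matrix (Fin m) (Fin n) ℝ, Completes E x M ∧ M.rank = r}.Nonempty := by
    obtain ⟨X, hX⟩ := dimA_ext x
    exact ⟨_, Matrix.of X, hX, rfl⟩
  obtain ⟨M, hM, hr⟩ := Nat.sInf_mem hne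
  obtain ⟨A, B, hAB⟩ := fac_of_rank (R := complRank E x) M (le_of_eq hr)
  exact ⟨A, B, fun e => (hAB _ _).trans (hM e)⟩

/-- If completable data of size `R` are dense then every typical rank is at most `R`. -/
theorem typical_le_of_good {m n : ℕ} {E : Finset (Fin m × Fin n)} {R r : ℕ}
    (h : Good E R univ univ) (ht : Typical E r) : r ≤ R := by
  obtain ⟨x0, hx0⟩ := ht
  obtain ⟨X0, hX0⟩ := dimA_ext x0
  have hcont : Continuous fun (X : Fin m → Fin n → ℝ) (e : E) => X e.1.1 e.1.2 := by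
    fun_prop
  have hopen : IsOpen ((fun (X : Fin m → Fin n → ℝ) (e : E) => X e.1.1 e.1.2) ⁻¹'
      interior {x : E → ℝ | complRank E x = r}) := isOpen_interior.preimage hcont
  have hmem : X0 ∈ (fun (X : Fin m → Fin n → ℝ) (e : E) => X e.1.1 e.1.2) ⁻¹'
      interior {x : E → ℝ | complRank E x = r} := by
    have : (fun e : E => X0 e.1.1 e.1.2) = x0 := funext hX0
    rw [Set.mem_preimage, this]
    exact hx0
  obtain ⟨X, hX1, hX2⟩ := h.inter_open_nonempty _ hopen ⟨X0, hmem⟩
  obtain ⟨A, B, hAB⟩ := hX2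
  have h0 : (fun e : E => X e.1.1 e.1.2) ∈ interior {x : E → ℝ | complRank E x = r} := hX1
  have h1 : (fun e : E => X e.1.1 e.1.2) ∈ {x : E → ℝ | complRank E x = r} := interior_subset h0
  have h1 : complRank E (fun e : E => X e.1.1 e.1.2) = r := h1
  rw [← h1]
  exact complRank_le _ A B fun e => hAB _ (mem_univ _) _ (mem_univ _) e.2

end Pool.MP_2cf74a
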