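import Pool.Agent.Lib.MP_2cf74a_ag.TR.Base

/-!
ROW Span (about 50 lines).  PROOF IN WORDS.
exists_linearIndepOn_extension (or exists_linearIndependent) gives a maximal linearly independent
subfamily b of T with every v i (i in T) in the span; card b <= finrank (Fin r -> R) = r; enlarge b inside
T to a set I with exactly r elements (Finset.exists_subsuperset_card_eq); the coefficients: membership in
the span of the image of a finset (Submodule.mem_span_finset / Fintype version) and reindexing by the
equivalence e : Fin r = I.
-/

open Finset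

namespace Pool.MP_2cf74a

/-- Among vectors of dimension `r` some `r` indices of `T` span all vectors with index in `T`. -/
theorem exists_spanning_rows {m r : ℕ} (v : Fin m → Fin r → ℝ) (T : Finset (Fin m))
    (hT : r ≤ T.card) :
    ∃ I ⊆ T, I.card = r ∧ ∃ C : Fin m → Fin m → ℝ, ∀ i ∈ T, ∀ a, v i a = ∑ l ∈ I, C i l * v l a := by
  classical
  obtain ⟨b, hbT, -, hspan, hli⟩ := exists_linearIndepOn_extension (K := ℝ) (v := v)
    (linearIndepOn_empty ℝ v) (Set.empty_subset (T : Set (Fin m)))
  have hfin : b.Finite := Set.toFinite b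
  have hcard : hfin.toFinset.card ≤ r := by
    have h1 : LinearIndependent ℝ (fun i : hfin.toFinset => v i) := by
      have h2 := hli.linearIndependent
      exact h2.comp (fun i : hfin.toFinset => (⟨i.1, hfin.mem_toFinset.1 i.2⟩ : b))
        (fun x y h => Subtype.ext (congrArg (fun z : b => z.1) h))
    have h3 := h1.fintype_card_le_finrank
    rwa [Fintype.card_coe, Module.finrank_fin_fun] at h3
  have hsub : hfin.toFinset ⊆ T := fun i hi => by
    have := hbT (hfin.mem_toFinset.1 hi)
    exact_mod_cast this
  obtain ⟨I, h1, h2, h3⟩ := Finset.exists_subsuperset_card_eq hsub hcard hT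
  have key : ∀ i : Fin m, ∃ c : Fin m → ℝ, i ∈ T → ∀ a, v i a = ∑ l ∈ I, c l * v l a := by
    intro i
    by_cases hi : i ∈ T
    · have h4 : v i ∈ Submodule.span ℝ (v '' b) := hspan ⟨i, by exact_mod_cast hi, rfl⟩
      have h5 : v i ∈ Submodule.span ℝ (v '' (I : Set (Fin m))) := by
        refine Submodule.span_mono (Set.image_mono ?_) h4
        intro j hj
        exact_mod_cast h1 (hfin.mem_toFinset.2 hj)
      rw [Submodule.mem_span_image_finset_iff_exists_fun'] at h5
      obtain ⟨c, hc⟩ := h5
      refine ⟨fun l => c l, fun _ a => ?_⟩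
      have h6 := congrFun hc a
      rw [Finset.sum_apply] at h6
      rw [← h6]
      rfl
    · exact ⟨0, fun h => absurd h hi⟩
  choose C hC using key
  exact ⟨I, h2, h3, C, fun i hi a => hC i hi a⟩

end Pool.MP_2cf74a
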