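import Pool.Agent.Lib.MP_2cf74a_ag.TR.DimA
import Pool.Agent.Lib.MP_2cf74a_ag.TR.Span

/-!
ROW DimB (about 120 lines).  PROOF IN WORDS.
Let E' = E.filter (p.1 in T and p.2 in J), so cnt E T J = E'.card, and U = interior {complRank = r}, open
and nonempty in (E -> R).  The restriction map rho : (E -> R) -> (E' -> R) is open (a coordinate
projection; or: continuous linear and surjective between finite dimensional spaces) so rho(U) is open
and nonempty.  By exists_fac_complRank every x in U has a factorisation A : Fin m -> Fin r -> R,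
B : Fin r -> Fin n -> R, and by exists_spanning_rows (v = A) there is I inside T, card I = r, with
A i = sum over l in I of C i l * A l for i in T; so x(i,j) = sum over l in I of C i l * Y l j with
Y l j = sum_a A l a * B a j, and for i in I simply x(i,j) = Y i j.  Hence rho(U) is contained in the
finite union over I in T.powersetCard r of the ranges of
  phi_I : (({i // i in T sdiff I} x {l // l in I}) + ({l // l in I} x {j // j in J}) -> R) -> (E' -> R)
which are C^1 (polynomial) maps from a space of dimension (card T - r) * r + r * card J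
= r * (card T + card J - r).  ContDiff.dimH_range_le and dimH_iUnion / dimH_biUnion bound the Hausdorff
dimension of rho(U) by that number; Real.dimH_of_nonempty_interior (or dimH_univ type lemmas:
Real.dimH_of_mem_nhds) says dimH rho(U) = card E' (finrank).  Compare in ENNReal.
-/

open Finset

namespace Pool.MP_2cf74a

/-- Coefficient of row `l` in row `i`. -/
private noncomputable def dimB_c {m n : ℕ} (T I : Finset (Fin m)) (J : Finset (Fin n))
    (z : ({p // p ∈ (T \ I) ×ˢ I} → ℝ) × ({q // q ∈ I ×ˢ J} → ℝ)) (i l : Fin m) : ℝ :=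
  if h : (i, l) ∈ (T \ I) ×ˢ I then z.1 ⟨(i, l), h⟩ else if i = l then 1 else 0

/-- Entry of row `l` and column `j`. -/
private noncomputable def dimB_y {m n : ℕ} (T I : Finset (Fin m)) (J : Finset (Fin n))
    (z : ({p // p ∈ (T \ I) ×ˢ I} → ℝ) × ({q // q ∈ I ×ˢ J} → ℝ)) (l : Fin m) (j : Fin n) : ℝ :=
  if h : (l, j) ∈ I ×ˢ J then z.2 ⟨(l, j), h⟩ else 0

private noncomputable def dimB_phi {m n : ℕ} (T I : Finset (Fin m)) (J : Finset (Fin n))
    (E' : Finset (Fin m × Fin n))
    (z : ({p // p ∈ (T \ I) ×ˢ I} → ℝ) × ({q // q ∈ I ×ˢ J} → ℝ)) (e : E') : ℝ :=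
  ∑ l ∈ I, dimB_c T I J z e.1.1 l * dimB_y T I J z l e.1.2

private theorem dimB_c_contDiff {m n : ℕ} (T I : Finset (Fin m)) (J : Finset (Fin n)) (i l : Fin m) :
    ContDiff ℝ 1 (fun z => dimB_c T I J z i l) := by
  unfold dimB_c
  by_cases h : (i, l) ∈ (T \ I) ×ˢ I
  · simp only [dif_pos h]
    exact (contDiff_apply ℝ ℝ _).comp contDiff_fst
  · simp only [dif_neg h]
    exact contDiff_const

private theorem dimB_y_contDiff {m n : ℕ} (T I : Finset (Fin m)) (J : Finset (Fin n)) (l : Fin m)
    (j : Fin n) : ContDiff ℝ 1 (fun z => dimB_y T I J z l j) := by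
  unfold dimB_y
  by_cases h : (l, j) ∈ I ×ˢ J
  · simp only [dif_pos h]
    exact (contDiff_apply ℝ ℝ _).comp contDiff_snd
  · simp only [dif_neg h]
    exact contDiff_const

private theorem dimB_phi_contDiff {m n : ℕ} (T I : Finset (Fin m)) (J : Finset (Fin n))
    (E' : Finset (Fin m × Fin n)) : ContDiff ℝ 1 (dimB_phi T I J E') := by
  rw [contDiff_pi]
  intro e
  unfold dimB_phi
  exact ContDiff.sum fun l _ => (dimB_c_contDiff T I J _ _).mul (dimB_y_contDiff T I J _ _)

private theorem dimB_range_le {m n r : ℕ} (T I : Finset (Fin m)) (J : Finset (Fin n))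
    (E' : Finset (Fin m × Fin n)) (hI : I ⊆ T) (hr : I.card = r) :
    dimH (Set.range (dimB_phi T I J E')) ≤ ((r * (T.card + J.card - r) : ℕ) : ENNReal) := by
  refine (dimB_phi_contDiff T I J E').dimH_range_le.trans ?_
  rw [Nat.cast_le, Module.finrank_prod, Module.finrank_fintype_fun_eq_card,
    Module.finrank_fintype_fun_eq_card, Fintype.card_coe, Fintype.card_coe, card_product,
    card_product, card_sdiff_of_subset hI, hr]
  have hrT : r ≤ T.card := hr ▸ card_le_card hI
  obtain ⟨d, hd⟩ := Nat.exists_eq_add_of_le hrT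
  rw [hd]
  have e1 : r + d - r = d := by omega
  have e2 : r + d + J.card - r = d + J.card := by omega
  rw [e1, e2]
  exact le_of_eq (by ring)

/-- The dimension count for a typical rank, in every subpattern. -/
theorem count_of_typical {m n : ℕ} {E : Finset (Fin m × Fin n)} {r : ℕ} (ht : Typical E r)
    (T : Finset (Fin m)) (J : Finset (Fin n)) (hT : r ≤ T.card) (hJ : r ≤ J.card) :
    cnt E T J ≤ r * (T.card + J.card - r) := by
  classical
  obtain ⟨E', hE'⟩ : ∃ E', E' = E.filter (fun p => p.1 ∈ T ∧ p.2 ∈ J) := ⟨_, rfl⟩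
  have hsub : ∀ p, p ∈ E' → p ∈ E := fun p hp => (mem_filter.1 (hE' ▸ hp)).1
  have hTm : ∀ p, p ∈ E' → p.1 ∈ T := fun p hp => (mem_filter.1 (hE' ▸ hp)).2.1
  have hJm : ∀ p, p ∈ E' → p.2 ∈ J := fun p hp => (mem_filter.1 (hE' ▸ hp)).2.2
  have hcnt : cnt E T J = E'.card := by rw [hE']; rfl
  let inc : E' → E := fun e => ⟨e.1, hsub _ e.2⟩
  have hinc : Function.Injective inc := by
    intro a b hab
    have : (inc a).1 = (inc b).1 := congrArg Subtype.val hab
    exact Subtype.ext this
  let ρ : (E → ℝ) →ₗ[ℝ] (E' → ℝ) := LinearMap.funLeft ℝ ℝ inc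
  have hρs : Function.Surjective ρ := LinearMap.funLeft_surjective_of_injective ℝ ℝ inc hinc
  have hρo : IsOpenMap ρ := LinearMap.isOpenMap_of_finiteDimensional ρ hρs
  have hUo : IsOpen (ρ '' interior {x : E → ℝ | complRank E x = r}) := hρo _ isOpen_interior
  have hUn : (ρ '' interior {x : E → ℝ | complRank E x = r}).Nonempty := ht.image _
  have hdim : dimH (ρ '' interior {x : E → ℝ | complRank E x = r}) = (E'.card : ENNReal) := by
    rw [Real.dimH_of_nonempty_interior (by rw [hUo.interior_eq]; exact hUn),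
      Module.finrank_fintype_fun_eq_card, Fintype.card_coe]
  have hcov : ρ '' interior {x : E → ℝ | complRank E x = r} ⊆
      ⋃ I ∈ (↑(T.powersetCard r) : Set (Finset (Fin m))), Set.range (dimB_phi T I J E') := by
    rintro y ⟨x, hx, rfl⟩
    have hx' : x ∈ {x : E → ℝ | complRank E x = r} := interior_subset hx
    have hxr : complRank E x = r := hx'
    have hfac := exists_fac_complRank x
    rw [hxr] at hfac
    obtain ⟨A, B, hAB⟩ := hfac
    obtain ⟨I, hIT, hIr, C, hC⟩ := exists_spanning_rows A T hT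
    refine Set.mem_biUnion (x := I) (Finset.mem_coe.2 (mem_powersetCard.2 ⟨hIT, hIr⟩)) ?_
    refine ⟨(fun p => C p.1.1 p.1.2, fun q => ∑ a, A q.1.1 a * B a q.1.2), ?_⟩
    funext e
    have hy : ∀ l ∈ I, dimB_y T I J (fun p => C p.1.1 p.1.2, fun q => ∑ a, A q.1.1 a * B a q.1.2) l e.1.2 =
        ∑ a, A l a * B a e.1.2 := by
      intro l hl
      have hm : (l, e.1.2) ∈ I ×ˢ J := mem_product.2 ⟨hl, hJm e.1 e.2⟩
      unfold dimB_y
      rw [dif_pos hm]
    have hx2 : ρ x e = ∑ a, A e.1.1 a * B a e.1.2 := (hAB (inc e)).symm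
    rw [hx2]
    unfold dimB_phi
    by_cases hi : e.1.1 ∈ I
    · have hc : ∀ l ∈ I, dimB_c T I J (fun p => C p.1.1 p.1.2, fun q => ∑ a, A q.1.1 a * B a q.1.2) e.1.1 l =
          if e.1.1 = l then 1 else 0 := by
        intro l _
        unfold dimB_c
        rw [dif_neg]
        intro h
        exact (mem_sdiff.1 (mem_product.1 h).1).2 hi
      rw [Finset.sum_congr rfl fun l hl => by rw [hc l hl, hy l hl]]
      simp only [ite_mul, one_mul, zero_mul]
      rw [Finset.sum_ite_eq, if_pos hi]
    · have hc : ∀ l ∈ I, dimB_c T I J (fun p => C p.1.1 p.1.2, fun q => ∑ a, A q.1.1 a * B a q.1.2) e.1.1 l =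
          C e.1.1 l := by
        intro l hl
        have hm : (e.1.1, l) ∈ (T \ I) ×ˢ I := mem_product.2 ⟨mem_sdiff.2 ⟨hTm e.1 e.2, hi⟩, hl⟩
        unfold dimB_c
        rw [dif_pos hm]
      rw [Finset.sum_congr rfl fun l hl => by rw [hc l hl, hy l hl]]
      have h3 : ∀ a, A e.1.1 a = ∑ l ∈ I, C e.1.1 l * A l a := fun a => hC _ (hTm _ e.2) a
      simp only [h3, Finset.mul_sum, Finset.sum_mul]
      rw [Finset.sum_comm]
      exact Finset.sum_congr rfl fun a _ => Finset.sum_congr rfl fun l _ => by ring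
  have h1 : dimH (ρ '' interior {x : E → ℝ | complRank E x = r}) ≤
      ((r * (T.card + J.card - r) : ℕ) : ENNReal) := by
    refine (dimH_mono hcov).trans ?_
    rw [dimH_bUnion (Set.Finite.countable (Finset.finite_toSet _))]
    refine iSup₂_le fun I hI => ?_
    have hI' := mem_powersetCard.1 (Finset.mem_coe.1 hI)
    exact dimB_range_le T I J E' hI'.1 hI'.2
  rw [hdim, Nat.cast_le] at h1
  rw [hcnt]
  exact h1

end Pool.MP_2cf74a
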