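import Pool.Agent.Lib.MP_2cf74a_ag.TR.RowCol

/-!
Elimination of blocks of rows and of columns.
-/

open Finset

namespace Pool.MP_2cf74a

/-- Block elimination on the rows `T` and columns `J` with bound `R`. -/
inductive Elim {m n : ℕ} (E : Finset (Fin m × Fin n)) :
    ℕ → Finset (Fin m) → Finset (Fin n) → Prop
  /-- At most `R` rows are left. -/
  | rows {R : ℕ} {T : Finset (Fin m)} {J : Finset (Fin n)} (h : T.card ≤ R) : Elim E R T J
  /-- At most `R` columns are left. -/
  | cols {R : ℕ} {T : Finset (Fin m)} {J : Finset (Fin n)} (h : J.card ≤ R) : Elim E R T J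
  /-- Delete `s + 1` rows on which at most `R + s` columns are completely specified. -/
  | rowBlock {R s : ℕ} {T S : Finset (Fin m)} {J : Finset (Fin n)} (h : Elim E R T J)
      (hTS : Disjoint T S) (hs : S.card = s + 1)
      (hc : (J.filter (fun j => ∀ i ∈ S, (i, j) ∈ E)).card ≤ R + s) : Elim E (R + s) (T ∪ S) J
  /-- Delete `s + 1` columns on which at most `R + s` rows are completely specified. -/
  | colBlock {R s : ℕ} {T : Finset (Fin m)} {J S : Finset (Fin n)} (h : Elim E R T J)
      (hJS : Disjoint J S) (hs : S.card = s + 1)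
      (hc : (T.filter (fun i => ∀ j ∈ S, (i, j) ∈ E)).card ≤ R + s) : Elim E (R + s) T (J ∪ S)

theorem mem_image_swap {m n : ℕ} {E : Finset (Fin m × Fin n)} {i : Fin m} {j : Fin n} :
    (j, i) ∈ E.image Prod.swap ↔ (i, j) ∈ E := by
  simp only [Finset.mem_image, Prod.exists, Prod.swap_prod_mk, Prod.mk.injEq]
  constructor
  · rintro ⟨a, b, hab, rfl, rfl⟩; exact hab
  · intro h; exact ⟨i, j, h, rfl, rfl⟩

/-- The block step for columns. -/
theorem good_block_cols {m n : ℕ} {E : Finset (Fin m × Fin n)} {R s : ℕ} {T : Finset (Fin m)}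
    {J S : Finset (Fin n)} (h : Good E R T J) (hJS : Disjoint J S) (hs : S.card = s + 1)
    (hc : (T.filter (fun i => ∀ j ∈ S, (i, j) ∈ E)).card ≤ R + s) :
    Good E (R + s) T (J ∪ S) := by
  rw [← good_swap]
  refine good_block (good_swap.2 h) hJS hs ?_
  simp only [mem_image_swap]
  exact hc

/-- Block elimination gives completable data. -/
theorem good_of_elim {m n : ℕ} {E : Finset (Fin m × Fin n)} {R : ℕ} {T : Finset (Fin m)}
    {J : Finset (Fin n)} (h : Elim E R T J) : Good E R T J := by
  induction h with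
  | rows h => exact good_of_rows h
  | cols h => exact good_of_cols h
  | rowBlock _ hTS hs hc ih => exact good_block ih hTS hs hc
  | colBlock _ hJS hs hc ih => exact good_block_cols ih hJS hs hc

end Pool.MP_2cf74a
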