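import Pool.Agent.Lib.MP_2cf74a_ag.TR.B3

/-!
ROW F3a (about 120 lines; pure combinatorics + good_three_blocks).  PROOF IN WORDS.
Let a be a row with two unspecified entries.  Rows with exactly one entry: at least 16 - 2 * 2 = 12 (sum of card (unk E i) = number of
single rows + 2 * number of double rows).  The union of unk over the single rows has at least 12 - 2 = 10
columns (a column with two unspecified entries is counted at most twice, and there are at most 2 such columns), so
outside unk a there are at least 8 such columns: choose 5 of them and for each a single row: x, y1, y2, y3, y4.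
A3 = {a, x} (3 columns), A2 = {y1,..,y4} (4 = 2 + card A3 columns).  All rows together have v >= 16 - 2 = 14 columns with
unspecified entries (v = sum - number of double columns), at most 7 of them are met by A2 union A3, so A1 meets at least 7 = 1 + 4 + 2.
-/

open Finset

namespace Pool.MP_2cf74a

private theorem f3a_cover {n : ℕ} {E : Finset (Fin n × Fin n)} (hc : ∀ j, (unkc E j).card ≤ 2)
    (h3 : (univ.filter (fun j => (unkc E j).card = 2)).card ≤ 2) (S : Finset (Fin n)) :
    ∑ i ∈ S, (unk E i).card ≤ (S.biUnion (unk E)).card + 2 := by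
  have e1 : ∑ i ∈ S, (unk E i).card = ∑ j, (S.filter (fun i => (i, j) ∉ E)).card := by
    simp only [unk, Finset.card_filter]
    rw [Finset.sum_comm]
  have e2 : ∀ j, (S.filter (fun i => (i, j) ∉ E)).card ≤
      (if j ∈ S.biUnion (unk E) then 1 else 0) + (if (unkc E j).card = 2 then 1 else 0) := by
    intro j
    by_cases hj : j ∈ S.biUnion (unk E)
    · have h4 : (S.filter (fun i => (i, j) ∉ E)).card ≤ (unkc E j).card :=
        Finset.card_le_card (fun i hi => mem_unkc.2 (Finset.mem_filter.1 hi).2)
      have h5 := hc j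
      rw [if_pos hj]
      split_ifs <;> omega
    · have h4 : S.filter (fun i => (i, j) ∉ E) = ∅ := by
        rw [Finset.filter_eq_empty_iff]
        intro i hi hij
        exact hj (Finset.mem_biUnion.2 ⟨i, hi, mem_unk.2 hij⟩)
      rw [h4, Finset.card_empty]
      exact Nat.zero_le _
  rw [e1]
  refine le_trans (Finset.sum_le_sum (fun j _ => e2 j)) ?_
  rw [Finset.sum_add_distrib, ← Finset.card_filter, ← Finset.card_filter, Finset.filter_univ_mem]
  omega

/-- One or two double rows, at most two double columns. -/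
theorem good_two_double {n : ℕ} {E : Finset (Fin n × Fin n)} (hr : ∀ i, (unk E i).card ≤ 2)
    (hc : ∀ j, (unkc E j).card ≤ 2) (hu : 16 ≤ ∑ i, (unk E i).card)
    (h1 : 1 ≤ (univ.filter (fun i => (unk E i).card = 2)).card)
    (h2 : (univ.filter (fun i => (unk E i).card = 2)).card ≤ 2)
    (h3 : (univ.filter (fun j => (unkc E j).card = 2)).card ≤ 2) :
    Good E (n - 3) univ univ := by
  classical
  have hcov := f3a_cover hc h3
  obtain ⟨a, ha⟩ := Finset.card_pos.1 (show 0 < (univ.filter (fun i => (unk E i).card = 2)).card by omega)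
  have ha2 : (unk E a).card = 2 := (Finset.mem_filter.1 ha).2
  have hs : ∑ i, (unk E i).card ≤ (univ.filter (fun i => (unk E i).card = 1)).card
      + 2 * (univ.filter (fun i => (unk E i).card = 2)).card := by
    rw [Finset.card_filter, Finset.card_filter, Finset.mul_sum, ← Finset.sum_add_distrib]
    refine Finset.sum_le_sum (fun i _ => ?_)
    have := hr i
    split_ifs <;> omega
  set S : Finset (Fin n) := univ.filter (fun i => (unk E i).card = 1) with hS
  have hS1 : ∀ i ∈ S, (unk E i).card = 1 := fun i hi => (Finset.mem_filter.1 hi).2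
  have hsum : ∑ i ∈ S, (unk E i).card = S.card := by
    rw [Finset.sum_congr rfl hS1, Finset.sum_const, smul_eq_mul, mul_one]
  have hVS : 10 ≤ (S.biUnion (unk E)).card := by
    have := hcov S
    omega
  have hW : 5 ≤ ((S.biUnion (unk E)) \ unk E a).card := by
    have := Finset.le_card_sdiff (unk E a) (S.biUnion (unk E))
    omega
  obtain ⟨T, hT, hTc⟩ := Finset.exists_subset_card_eq hW
  have hrow : ∀ t ∈ T, ∃ i ∈ S, t ∈ unk E i := fun t ht =>
    Finset.mem_biUnion.1 (Finset.mem_sdiff.1 (hT ht)).1
  choose! ρ hρS hρt using hrow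
  obtain ⟨t0, ht0⟩ := Finset.card_pos.1 (show 0 < T.card by omega)
  have ht0a : t0 ∉ unk E a := (Finset.mem_sdiff.1 (hT ht0)).2
  have hρ1 : ∀ t ∈ T, (unk E (ρ t)).card = 1 := fun t ht => hS1 _ (hρS t ht)
  have hA2c : ((T.erase t0).image ρ).card ≤ 4 := by
    refine le_trans Finset.card_image_le ?_
    rw [Finset.card_erase_of_mem ht0, hTc]
  have hA3c : ({a, ρ t0} : Finset (Fin n)).card ≤ 2 := Finset.card_le_two
  have hV2 : 4 ≤ (((T.erase t0).image ρ).biUnion (unk E)).card := by
    have h4 : T.erase t0 ⊆ ((T.erase t0).image ρ).biUnion (unk E) := fun t ht =>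
      Finset.mem_biUnion.2 ⟨ρ t, Finset.mem_image_of_mem _ ht, hρt t (Finset.mem_of_mem_erase ht)⟩
    have h5 := Finset.card_le_card h4
    rw [Finset.card_erase_of_mem ht0, hTc] at h5
    exact h5
  have hV2' : (((T.erase t0).image ρ).biUnion (unk E)).card ≤ 4 := by
    refine le_trans Finset.card_biUnion_le ?_
    have h4 : ∀ i ∈ (T.erase t0).image ρ, (unk E i).card = 1 := by
      intro i hi
      obtain ⟨t, ht, rfl⟩ := Finset.mem_image.1 hi
      exact hρ1 t (Finset.mem_of_mem_erase ht)
    rw [Finset.sum_congr rfl h4, Finset.sum_const, smul_eq_mul, mul_one]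
    exact hA2c
  have hV3e : ({a, ρ t0} : Finset (Fin n)).biUnion (unk E) = unk E a ∪ unk E (ρ t0) := by
    rw [Finset.biUnion_insert, Finset.singleton_biUnion]
  have hV3 : 3 ≤ (({a, ρ t0} : Finset (Fin n)).biUnion (unk E)).card := by
    rw [hV3e]
    have h4 : insert t0 (unk E a) ⊆ unk E a ∪ unk E (ρ t0) := by
      intro t ht
      rcases Finset.mem_insert.1 ht with rfl | ht
      · exact Finset.mem_union_right _ (hρt _ ht0)
      · exact Finset.mem_union_left _ ht
    have h5 := Finset.card_le_card h4
    rw [Finset.card_insert_of_notMem ht0a, ha2] at h5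
    exact h5
  have hV3' : (({a, ρ t0} : Finset (Fin n)).biUnion (unk E)).card ≤ 3 := by
    rw [hV3e]
    refine le_trans (Finset.card_union_le _ _) ?_
    rw [ha2, hρ1 t0 ht0]
  have hd : Disjoint ((T.erase t0).image ρ) ({a, ρ t0} : Finset (Fin n)) := by
    rw [Finset.disjoint_left]
    intro i hi hi'
    obtain ⟨t, ht, rfl⟩ := Finset.mem_image.1 hi
    have htT := Finset.mem_of_mem_erase ht
    rcases Finset.mem_insert.1 hi' with h | h
    · have := hρ1 t htT
      rw [h, ha2] at this
      omega
    · rw [Finset.mem_singleton] at h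
      have h6 : t0 ∈ unk E (ρ t) := by rw [h]; exact hρt t0 ht0
      have h7 := Finset.card_le_one.1 (le_of_eq (hρ1 t htT)) t (hρt t htT) t0 h6
      exact Finset.ne_of_mem_erase ht h7
  have hall : 14 ≤ ((univ : Finset (Fin n)).biUnion (unk E)).card := by
    have := hcov univ
    omega
  refine good_three_blocks ((T.erase t0).image ρ) {a, ρ t0} hd hV3 (by omega) ?_
  have hsub : (univ : Finset (Fin n)).biUnion (unk E) ⊆
      (univ \ ((T.erase t0).image ρ ∪ {a, ρ t0})).biUnion (unk E) ∪
        (((T.erase t0).image ρ).biUnion (unk E) ∪ ({a, ρ t0} : Finset (Fin n)).biUnion (unk E)) := by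
    intro j hj
    obtain ⟨i, _, hij⟩ := Finset.mem_biUnion.1 hj
    by_cases h6 : i ∈ (T.erase t0).image ρ
    · exact Finset.mem_union_right _ (Finset.mem_union_left _ (Finset.mem_biUnion.2 ⟨i, h6, hij⟩))
    · by_cases h7 : i ∈ ({a, ρ t0} : Finset (Fin n))
      · exact Finset.mem_union_right _ (Finset.mem_union_right _ (Finset.mem_biUnion.2 ⟨i, h7, hij⟩))
      · refine Finset.mem_union_left _ (Finset.mem_biUnion.2 ⟨i, ?_, hij⟩)
        rw [Finset.mem_sdiff, Finset.mem_union]
        exact ⟨Finset.mem_univ _, fun h => h.elim h6 h7⟩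
  have h8 := Finset.card_le_card hsub
  have h9 := Finset.card_union_le ((univ \ ((T.erase t0).image ρ ∪ {a, ρ t0})).biUnion (unk E))
    (((T.erase t0).image ρ).biUnion (unk E) ∪ ({a, ρ t0} : Finset (Fin n)).biUnion (unk E))
  have h10 := Finset.card_union_le (((T.erase t0).image ρ).biUnion (unk E))
    (({a, ρ t0} : Finset (Fin n)).biUnion (unk E))
  omega

end Pool.MP_2cf74a
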