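import Pool.Agent.Lib.MP_2cf74a_ag.TR.B3

/-!
ROW F3b (about 120 lines; pure combinatorics + good_three_blocks).  PROOF IN WORDS.
Let a, a' be two different rows with two unspecified entries.  There are exactly 3 double rows, so at least 16 - 6 = 10 rows with exactly one
entry (sum of card (unk E i) = single rows + 2 * double rows).  The union of unk over the single rows has at least 10 - 3 = 7 columns
(at most 3 double columns), so outside unk a union unk a' at least 3: choose 3 of them and for each a single row: x, y, z.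
A3 = {a, x} (3 columns), A2 = {a', y, z} (4 = 2 + card A3 columns).  All rows together have v >= 16 - 3 = 13 columns with
unspecified entries, at most 7 of them are met by A2 union A3, so A1 meets at least 6 = 1 + 3 + 2.
-/

open Finset

namespace Pool.MP_2cf74a

private theorem F3b_count {n : ℕ} {E : Finset (Fin n × Fin n)} (hc : ∀ j, (unkc E j).card ≤ 2)
    (S : Finset (Fin n)) : ∑ i ∈ S, (unk E i).card ≤
      (S.biUnion (unk E)).card + (univ.filter (fun j => (unkc E j).card = 2)).card := by
  classical
  have e1 : ∑ i ∈ S, (unk E i).card = ∑ j, (S.filter (fun i => (i, j) ∉ E)).card := by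
    simp only [unk, Finset.card_filter]
    exact Finset.sum_comm
  have e2 : (S.biUnion (unk E)).card = ∑ j, if j ∈ S.biUnion (unk E) then 1 else 0 := by
    rw [← Finset.card_filter]
    congr 1
    ext j
    simp
  rw [e1, e2, Finset.card_filter, ← Finset.sum_add_distrib]
  refine Finset.sum_le_sum fun j _ => ?_
  have h1 : (S.filter (fun i => (i, j) ∉ E)).card ≤ (unkc E j).card := by
    refine Finset.card_le_card fun i hi => ?_
    rw [mem_unkc]
    exact (Finset.mem_filter.1 hi).2
  by_cases hj : j ∈ S.biUnion (unk E)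
  · rw [if_pos hj]
    have h2 := hc j
    split_ifs with h3 <;> omega
  · have h2 : S.filter (fun i => (i, j) ∉ E) = ∅ := by
      rw [Finset.filter_eq_empty_iff]
      intro i hi hij
      exact hj (Finset.mem_biUnion.2 ⟨i, hi, mem_unk.2 hij⟩)
    rw [h2, Finset.card_empty]
    exact Nat.zero_le _

/-- Three double rows, at most three double columns. -/
theorem good_three_double {n : ℕ} {E : Finset (Fin n × Fin n)} (hr : ∀ i, (unk E i).card ≤ 2)
    (hc : ∀ j, (unkc E j).card ≤ 2) (hu : 16 ≤ ∑ i, (unk E i).card)
    (h2 : (univ.filter (fun i => (unk E i).card = 2)).card = 3)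
    (h3 : (univ.filter (fun j => (unkc E j).card = 2)).card ≤ 3) :
    Good E (n - 3) univ univ := by
  classical
  obtain ⟨S, hS⟩ : ∃ S : Finset (Fin n), S = univ.filter (fun i => (unk E i).card = 1) := ⟨_, rfl⟩
  obtain ⟨D, hD⟩ : ∃ D : Finset (Fin n), D = univ.filter (fun i => (unk E i).card = 2) := ⟨_, rfl⟩
  rw [← hD] at h2
  -- number of single rows
  have hS10 : 10 ≤ S.card := by
    have e1 : ∑ i, (unk E i).card ≤ S.card + 2 * D.card := by
      rw [hS, hD, Finset.card_filter, Finset.card_filter, Finset.mul_sum, ← Finset.sum_add_distrib]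
      refine Finset.sum_le_sum fun i _ => ?_
      have := hr i
      split_ifs <;> omega
    omega
  have hSs : ∑ i ∈ S, (unk E i).card = S.card := by
    have e1 : ∀ i ∈ S, (unk E i).card = 1 := by
      intro i hi
      rw [hS] at hi
      exact (Finset.mem_filter.1 hi).2
    rw [Finset.sum_congr rfl e1, Finset.sum_const, smul_eq_mul, mul_one]
  have hU7 : 7 ≤ (S.biUnion (unk E)).card := by
    have := F3b_count hc S
    omega
  obtain ⟨a, ha, a', ha', haa⟩ := Finset.one_lt_card.1 (by omega : 1 < D.card)
  have ha2 : (unk E a).card = 2 := by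
    rw [hD] at ha
    exact (Finset.mem_filter.1 ha).2
  have ha2' : (unk E a').card = 2 := by
    rw [hD] at ha'
    exact (Finset.mem_filter.1 ha').2
  have hU3 : 2 < (S.biUnion (unk E) \ (unk E a ∪ unk E a')).card := by
    have e1 := Finset.le_card_sdiff (unk E a ∪ unk E a') (S.biUnion (unk E))
    have e2 := Finset.card_union_le (unk E a) (unk E a')
    omega
  obtain ⟨c₁, hc₁, c₂, hc₂, c₃, hc₃, h12, h13, h23⟩ := Finset.two_lt_card.1 hU3
  have hrow : ∀ c ∈ S.biUnion (unk E) \ (unk E a ∪ unk E a'),
      ∃ x, unk E x = {c} ∧ c ∉ unk E a ∧ c ∉ unk E a' := by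
    intro c hc
    obtain ⟨h3, h4⟩ := Finset.mem_sdiff.1 hc
    obtain ⟨x, hx, hxc⟩ := Finset.mem_biUnion.1 h3
    rw [Finset.mem_union, not_or] at h4
    have h5 : (unk E x).card = 1 := by
      rw [hS] at hx
      exact (Finset.mem_filter.1 hx).2
    obtain ⟨d, hd⟩ := Finset.card_eq_one.1 h5
    rw [hd, Finset.mem_singleton] at hxc
    exact ⟨x, by rw [hd, hxc], h4⟩
  obtain ⟨x, hx, hxa, hxa'⟩ := hrow c₁ hc₁
  obtain ⟨y, hy, hya, hya'⟩ := hrow c₂ hc₂
  obtain ⟨z, hz, hza, hza'⟩ := hrow c₃ hc₃
  have hne : ∀ {p q : Fin n}, unk E p ≠ unk E q → p ≠ q := fun h h' => h (by rw [h'])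
  have hcard1 : ∀ {c : Fin n} {p q : Fin n}, unk E p = {c} → (unk E q).card = 2 → p ≠ q := by
    intro c p q h h' hpq
    rw [← hpq, h, Finset.card_singleton] at h'
    omega
  have hxy : x ≠ y := hne (by rw [hx, hy]; exact fun h => h12 (Finset.singleton_injective h))
  have hxz : x ≠ z := hne (by rw [hx, hz]; exact fun h => h13 (Finset.singleton_injective h))
  have hyz : y ≠ z := hne (by rw [hy, hz]; exact fun h => h23 (Finset.singleton_injective h))
  have xa := hcard1 hx ha2
  have xa' := hcard1 hx ha2'
  have ya := hcard1 hy ha2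
  have ya' := hcard1 hy ha2'
  have za := hcard1 hz ha2
  have za' := hcard1 hz ha2'
  have b3 : (({a, x} : Finset (Fin n)).biUnion (unk E)).card = 3 := by
    rw [Finset.biUnion_insert, Finset.singleton_biUnion, hx, Finset.card_union_of_disjoint
      (Finset.disjoint_singleton_right.2 hxa), ha2, Finset.card_singleton]
  have b2 : (({a', y, z} : Finset (Fin n)).biUnion (unk E)).card = 4 := by
    rw [Finset.biUnion_insert, Finset.biUnion_insert, Finset.singleton_biUnion, hy, hz,
      Finset.card_union_of_disjoint, ha2', Finset.card_union_of_disjoint, Finset.card_singleton, Finset.card_singleton]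
    · exact Finset.disjoint_singleton.2 h23
    · rw [Finset.disjoint_union_right]
      exact ⟨Finset.disjoint_singleton_right.2 hya', Finset.disjoint_singleton_right.2 hza'⟩
  have k3 : ({a, x} : Finset (Fin n)).card = 2 := Finset.card_pair xa.symm
  have k2 : ({a', y, z} : Finset (Fin n)).card = 3 :=
    Finset.card_eq_three.2 ⟨a', y, z, ya'.symm, za'.symm, hyz, rfl⟩
  have hall := F3b_count hc (univ : Finset (Fin n))
  refine good_three_blocks {a', y, z} {a, x} ?_ (by omega) (by omega) ?_
  · rw [Finset.disjoint_left]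
    intro i hi hi'
    simp only [Finset.mem_insert, Finset.mem_singleton] at hi hi'
    rcases hi with rfl | rfl | rfl <;> rcases hi' with h | h
    · exact haa h.symm
    · exact xa' h.symm
    · exact ya h
    · exact hxy h.symm
    · exact za h
    · exact hxz h.symm
  · have e1 : (univ : Finset (Fin n)).biUnion (unk E) ⊆
        (univ \ ({a', y, z} ∪ {a, x})).biUnion (unk E) ∪
          (({a', y, z} : Finset (Fin n)).biUnion (unk E) ∪ ({a, x} : Finset (Fin n)).biUnion (unk E)) := by
      intro j hj
      obtain ⟨i, _, hi⟩ := Finset.mem_biUnion.1 hj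
      rw [Finset.mem_union, Finset.mem_union]
      by_cases h4 : i ∈ ({a', y, z} : Finset (Fin n))
      · exact Or.inr (Or.inl (Finset.mem_biUnion.2 ⟨i, h4, hi⟩))
      · by_cases h5 : i ∈ ({a, x} : Finset (Fin n))
        · exact Or.inr (Or.inr (Finset.mem_biUnion.2 ⟨i, h5, hi⟩))
        · refine Or.inl (Finset.mem_biUnion.2 ⟨i, ?_, hi⟩)
          rw [Finset.mem_sdiff, Finset.mem_union]
          exact ⟨Finset.mem_univ _, fun h => h.elim h4 h5⟩
    have e2 := Finset.card_le_card e1
    have e3 := Finset.card_union_le ((univ \ ({a', y, z} ∪ {a, x})).biUnion (unk E))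
      (({a', y, z} : Finset (Fin n)).biUnion (unk E) ∪ ({a, x} : Finset (Fin n)).biUnion (unk E))
    have e4 := Finset.card_union_le (({a', y, z} : Finset (Fin n)).biUnion (unk E))
      (({a, x} : Finset (Fin n)).biUnion (unk E))
    omega

end Pool.MP_2cf74a
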