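import Pool.Agent.Lib.MP_2cf74a_ag.TR.B3

/-!
ROW F4 (about 150 lines; pure combinatorics + good_three_blocks).  PROOF IN WORDS.
Let u = sum of card (unk E i) >= 16; a row is double if card (unk E i) = 2.
(1) Choose four double rows a, b, a', a'' with unk a', unk a'' disjoint and card (unk a union unk b) >= 3: let a' be any double row; each of its
two columns lies in at most one other row, so at most 2 rows other than a' meet it and among 3 other double rows one, a'', is disjoint
from a'.  Let a, b be the two remaining ones of the four.  If unk a != unk b fine.  If unk a = unk b then these two columns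
are used up by a and b, so a and a' are disjoint and so are b and a'': take the pairs {a', a} and {a'', b}
(card of each union 4).
(2) A3 = {a,b}, A2 = {a',a''}, A1 = the rest; good_three_blocks needs card (union of unk over A1) >= 5.  The rows of A1 contain at
least u - 8 >= 8 unspecified entries and each column at most 2 of them, so the union has at least 4 columns, and at least 5 if u >= 17.
(3) If it has exactly 4 columns then u = 16, these 4 columns have both unspecified rows in A1 (closed), and sum over A1 = 8.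
Take any y in A1 with unk y nonempty, a, b the two rows of A3: new A3 = {a, y} (at least 3 columns, unk y is
disjoint from unk a since the 4 columns are closed), A2 unchanged, A1' = A1 - y + b: the 4 closed columns are still met (each has two rows in
A1, one of them different from y) and the 2 columns of b are new: 6 >= 5 = 1 + 2 + 2.
-/

open Finset

namespace Pool.MP_2cf74a

private theorem meet_le {n : ℕ} {E : Finset (Fin n × Fin n)} (hr : ∀ i, (unk E i).card ≤ 2)
    (hc : ∀ j, (unkc E j).card ≤ 2) (x : Fin n) :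
    (univ.filter (fun y => y ≠ x ∧ ¬ Disjoint (unk E x) (unk E y))).card ≤ 2 := by
  have h1 : univ.filter (fun y => y ≠ x ∧ ¬ Disjoint (unk E x) (unk E y)) ⊆
      (unk E x).biUnion (fun j => (unkc E j).erase x) := by
    intro y hy
    rw [mem_filter] at hy
    obtain ⟨-, hy1, hy2⟩ := hy
    rw [Finset.not_disjoint_iff] at hy2
    obtain ⟨j, hj1, hj2⟩ := hy2
    rw [mem_biUnion]
    exact ⟨j, hj1, mem_erase.2 ⟨hy1, mem_unkc.2 (mem_unk.1 hj2)⟩⟩
  refine (card_le_card h1).trans (card_biUnion_le.trans ?_)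
  refine le_trans (sum_le_card_nsmul _ _ 1 fun j hj => ?_) ?_
  · rw [card_erase_of_mem (mem_unkc.2 (mem_unk.1 hj))]
    have := hc j
    omega
  · rw [smul_eq_mul, mul_one]
    exact hr x

private theorem dis_of_eq {n : ℕ} {E : Finset (Fin n × Fin n)} (hc : ∀ j, (unkc E j).card ≤ 2)
    {a b c : Fin n} (hab : a ≠ b) (hac : a ≠ c) (hbc : b ≠ c) (h : unk E a = unk E b) :
    Disjoint (unk E c) (unk E a) := by
  rw [Finset.disjoint_left]
  intro j hj hja
  have hjb : j ∈ unk E b := h ▸ hja
  have h1 : ({a, b, c} : Finset (Fin n)) ⊆ unkc E j := by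
    intro i hi
    rw [mem_insert, mem_insert, mem_singleton] at hi
    rcases hi with rfl | rfl | rfl
    · exact mem_unkc.2 (mem_unk.1 hja)
    · exact mem_unkc.2 (mem_unk.1 hjb)
    · exact mem_unkc.2 (mem_unk.1 hj)
  have h2 := card_le_card h1
  rw [card_eq_three.2 ⟨a, b, c, hab, hac, hbc, rfl⟩] at h2
  have := hc j
  omega

private theorem union_ge {n : ℕ} {E : Finset (Fin n × Fin n)} {a b : Fin n}
    (ha : (unk E a).card = 2) (hb : (unk E b).card = 2) (h : unk E a ≠ unk E b) :
    3 ≤ (unk E a ∪ unk E b).card := by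
  by_contra hlt
  have h1 := eq_of_subset_of_card_le (subset_union_left (s₁ := unk E a) (s₂ := unk E b)) (by omega)
  have h2 := eq_of_subset_of_card_le (subset_union_right (s₁ := unk E a) (s₂ := unk E b)) (by omega)
  exact h (h1.trans h2.symm)

private theorem four_fix {n : ℕ} {E : Finset (Fin n × Fin n)} (hc : ∀ j, (unkc E j).card ≤ 2)
    {a b c d : Fin n} (hab : a ≠ b) (hac : a ≠ c) (had : a ≠ d) (hbc : b ≠ c) (hbd : b ≠ d)
    (hcd : c ≠ d) (ha : (unk E a).card = 2) (hb : (unk E b).card = 2) (hc' : (unk E c).card = 2)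
    (hd : (unk E d).card = 2) (hdis : Disjoint (unk E c) (unk E d)) :
    ∃ a b c d : Fin n, a ≠ b ∧ a ≠ c ∧ a ≠ d ∧ b ≠ c ∧ b ≠ d ∧ c ≠ d ∧ (unk E a).card = 2 ∧
      (unk E b).card = 2 ∧ (unk E c).card = 2 ∧ (unk E d).card = 2 ∧
      Disjoint (unk E c) (unk E d) ∧ 3 ≤ (unk E a ∪ unk E b).card := by
  by_cases h : unk E a = unk E b
  · have h1 := dis_of_eq hc hab hac hbc h
    have h2 := dis_of_eq hc hab had hbd h
    refine ⟨d, b, c, a, hbd.symm, hcd.symm, had.symm, hbc, hab.symm, hac.symm, hd, hb, hc', ha, h1,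
      ?_⟩
    rw [← h, card_union_of_disjoint h2]
    omega
  · exact ⟨a, b, c, d, hab, hac, had, hbc, hbd, hcd, ha, hb, hc', hd, hdis, union_ge ha hb h⟩

private theorem exists_four {n : ℕ} {E : Finset (Fin n × Fin n)} (hr : ∀ i, (unk E i).card ≤ 2)
    (hc : ∀ j, (unkc E j).card ≤ 2)
    (h4 : 4 ≤ (univ.filter (fun i => (unk E i).card = 2)).card) :
    ∃ a b c d : Fin n, a ≠ b ∧ a ≠ c ∧ a ≠ d ∧ b ≠ c ∧ b ≠ d ∧ c ≠ d ∧ (unk E a).card = 2 ∧
      (unk E b).card = 2 ∧ (unk E c).card = 2 ∧ (unk E d).card = 2 ∧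
      Disjoint (unk E c) (unk E d) ∧ 3 ≤ (unk E a ∪ unk E b).card := by
  obtain ⟨D, hD, hD4⟩ := exists_subset_card_eq h4
  have hD2 : ∀ i ∈ D, (unk E i).card = 2 := fun i hi => (mem_filter.1 (hD hi)).2
  obtain ⟨x, hx⟩ : D.Nonempty := by
    rw [← card_pos]
    omega
  have h3 : (D.erase x).card = 3 := by
    rw [card_erase_of_mem hx]
    omega
  obtain ⟨p, q, r, hpq, hpr, hqr, he⟩ := card_eq_three.1 h3
  have hp : p ∈ D.erase x := by rw [he]; simp
  have hq : q ∈ D.erase x := by rw [he]; simp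
  have hr' : r ∈ D.erase x := by rw [he]; simp
  rw [mem_erase] at hp hq hr'
  by_cases d1 : Disjoint (unk E x) (unk E p)
  · exact four_fix hc hqr hq.1 hpq.symm hr'.1 hpr.symm hp.1.symm (hD2 _ hq.2) (hD2 _ hr'.2)
      (hD2 _ hx) (hD2 _ hp.2) d1
  by_cases d2 : Disjoint (unk E x) (unk E q)
  · exact four_fix hc hpr hp.1 hpq hr'.1 hqr.symm hq.1.symm (hD2 _ hp.2) (hD2 _ hr'.2)
      (hD2 _ hx) (hD2 _ hq.2) d2
  by_cases d3 : Disjoint (unk E x) (unk E r)
  · exact four_fix hc hpq hp.1 hpr hq.1 hqr hr'.1.symm (hD2 _ hp.2) (hD2 _ hq.2)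
      (hD2 _ hx) (hD2 _ hr'.2) d3
  exfalso
  have h1 : ({p, q, r} : Finset (Fin n)) ⊆
      univ.filter (fun y => y ≠ x ∧ ¬ Disjoint (unk E x) (unk E y)) := by
    intro i hi
    rw [mem_insert, mem_insert, mem_singleton] at hi
    rw [mem_filter]
    rcases hi with rfl | rfl | rfl
    · exact ⟨mem_univ _, hp.1, d1⟩
    · exact ⟨mem_univ _, hq.1, d2⟩
    · exact ⟨mem_univ _, hr'.1, d3⟩
  have h2 := card_le_card h1
  rw [card_eq_three.2 ⟨p, q, r, hpq, hpr, hqr, rfl⟩] at h2
  have := meet_le hr hc x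
  omega

private theorem count {n : ℕ} {E : Finset (Fin n × Fin n)} (A : Finset (Fin n)) :
    ∑ i ∈ A, (unk E i).card =
      ∑ j ∈ A.biUnion (unk E), (A.filter (fun i => (i, j) ∉ E)).card := by
  have h := Finset.sum_card_bipartiteAbove_eq_sum_card_bipartiteBelow (s := A)
    (t := A.biUnion (unk E)) (fun i j => (i, j) ∉ E)
  unfold Finset.bipartiteAbove Finset.bipartiteBelow at h
  rw [← h]
  refine sum_congr rfl fun i hi => ?_
  congr 1
  ext j
  rw [mem_unk, mem_filter, mem_biUnion]
  exact ⟨fun h => ⟨⟨i, hi, mem_unk.2 h⟩, h⟩, fun h => h.2⟩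

/-- At least four rows with two unspecified entries. -/
theorem good_four_double {n : ℕ} {E : Finset (Fin n × Fin n)} (hr : ∀ i, (unk E i).card ≤ 2)
    (hc : ∀ j, (unkc E j).card ≤ 2) (hu : 16 ≤ ∑ i, (unk E i).card)
    (h4 : 4 ≤ (univ.filter (fun i => (unk E i).card = 2)).card) :
    Good E (n - 3) univ univ := by
  obtain ⟨a, b, c, d, hab, hac, had, hbc, hbd, hcd, ha, hb, hc', hd', hdis, h3⟩ :=
    exists_four hr hc h4
  have hu2 : (unk E c ∪ unk E d).card = 4 := by
    rw [card_union_of_disjoint hdis]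
    omega
  set A : Finset (Fin n) := univ \ ({c, d} ∪ {a, b}) with hA
  have hmemA : ∀ i, i ∈ A ↔ i ≠ a ∧ i ≠ b ∧ i ≠ c ∧ i ≠ d := by
    intro i
    rw [hA, mem_sdiff, mem_union, mem_insert, mem_singleton, mem_insert, mem_singleton]
    constructor
    · rintro ⟨-, h⟩
      push Not at h
      exact ⟨h.2.1, h.2.2, h.1.1, h.1.2⟩
    · rintro ⟨h1, h2, h3, h4⟩
      refine ⟨mem_univ _, ?_⟩
      push Not
      exact ⟨⟨h3, h4⟩, h1, h2⟩
  have hdisj : Disjoint ({c, d} : Finset (Fin n)) {a, b} := by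
    rw [Finset.disjoint_left]
    intro i hi hi'
    rw [mem_insert, mem_singleton] at hi hi'
    rcases hi with rfl | rfl <;> rcases hi' with h | h
    · exact hac h.symm
    · exact hbc h.symm
    · exact had h.symm
    · exact hbd h.symm
  have hsum : 8 ≤ ∑ i ∈ A, (unk E i).card := by
    have h1 := Finset.sum_sdiff (f := fun i => (unk E i).card)
      (subset_univ (({c, d} : Finset (Fin n)) ∪ {a, b}))
    rw [sum_union hdisj, sum_pair hcd, sum_pair hab, ← hA] at h1
    omega
  have hle : ∀ j, (A.filter (fun i => (i, j) ∉ E)).card ≤ 2 := by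
    intro j
    refine (card_le_card fun i hi => ?_).trans (hc j)
    exact mem_unkc.2 (mem_filter.1 hi).2
  have hcount := count (E := E) A
  have hge : 4 ≤ (A.biUnion (unk E)).card := by
    have h1 : ∑ j ∈ A.biUnion (unk E), (A.filter (fun i => (i, j) ∉ E)).card ≤
        (A.biUnion (unk E)).card * 2 := by
      have := sum_le_card_nsmul (A.biUnion (unk E))
        (fun j => (A.filter (fun i => (i, j) ∉ E)).card) 2 fun j _ => hle j
      rwa [smul_eq_mul] at this
    omega
  by_cases h5 : 5 ≤ (A.biUnion (unk E)).card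
  · refine good_three_blocks {c, d} {a, b} hdisj ?_ ?_ ?_
    · rw [biUnion_insert, singleton_biUnion]
      exact h3
    · rw [biUnion_insert, singleton_biUnion, hu2, card_pair hab]
    · rw [← hA, card_pair hab, card_pair hcd]
      exact h5
  have hcl : ∀ j ∈ A.biUnion (unk E), (A.filter (fun i => (i, j) ∉ E)).card = 2 := by
    by_contra hcon
    push Not at hcon
    obtain ⟨j, hj, hj2⟩ := hcon
    have h1 : ∑ j ∈ A.biUnion (unk E), (A.filter (fun i => (i, j) ∉ E)).card <
        ∑ j ∈ A.biUnion (unk E), 2 :=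
      sum_lt_sum (fun j _ => hle j) ⟨j, hj, lt_of_le_of_ne (hle j) hj2⟩
    rw [sum_const, smul_eq_mul] at h1
    omega
  have hcl2 : ∀ j ∈ A.biUnion (unk E), ∀ i, (i, j) ∉ E → i ∈ A := by
    intro j hj i hi
    have h1 : A.filter (fun i => (i, j) ∉ E) = unkc E j := by
      refine eq_of_subset_of_card_le (fun i hi => mem_unkc.2 (mem_filter.1 hi).2) ?_
      rw [hcl j hj]
      exact hc j
    have h2 : i ∈ A.filter (fun i => (i, j) ∉ E) := by
      rw [h1]
      exact mem_unkc.2 hi
    exact (mem_filter.1 h2).1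
  obtain ⟨y, hy, hy0⟩ : ∃ y ∈ A, (unk E y).card ≠ 0 := by
    by_contra hcon
    push Not at hcon
    have := sum_eq_zero hcon
    omega
  have hy' := (hmemA y).1 hy
  have haA : a ∉ A := fun h => ((hmemA a).1 h).1 rfl
  have hbA : b ∉ A := fun h => ((hmemA b).1 h).2.1 rfl
  have hay : Disjoint (unk E a) (unk E y) := by
    rw [Finset.disjoint_left]
    intro j hja hjy
    exact haA (hcl2 j (mem_biUnion.2 ⟨y, hy, hjy⟩) a (mem_unk.1 hja))
  have hbU : Disjoint (A.biUnion (unk E)) (unk E b) := by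
    rw [Finset.disjoint_left]
    intro j hj hjb
    exact hbA (hcl2 j hj b (mem_unk.1 hjb))
  refine good_three_blocks {c, d} {a, y} ?_ ?_ ?_ ?_
  · rw [Finset.disjoint_left]
    intro i hi hi'
    rw [mem_insert, mem_singleton] at hi hi'
    rcases hi with rfl | rfl <;> rcases hi' with h | h
    · exact hac h.symm
    · exact hy'.2.2.1 h.symm
    · exact had h.symm
    · exact hy'.2.2.2 h.symm
  · rw [biUnion_insert, singleton_biUnion, card_union_of_disjoint hay]
    omega
  · rw [biUnion_insert, singleton_biUnion, hu2, card_pair hy'.1.symm]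
  · rw [card_pair hcd, card_pair hy'.1.symm]
    have h1 : A.biUnion (unk E) ∪ unk E b ⊆
        (univ \ (({c, d} : Finset (Fin n)) ∪ {a, y})).biUnion (unk E) := by
      intro j hj
      rw [mem_union] at hj
      rw [mem_biUnion]
      rcases hj with hj | hj
      · obtain ⟨i, hi, hiy⟩ := exists_mem_ne (by rw [hcl j hj]; norm_num :
          1 < (A.filter (fun i => (i, j) ∉ E)).card) y
        rw [mem_filter] at hi
        have hi' := (hmemA i).1 hi.1
        refine ⟨i, ?_, mem_unk.2 hi.2⟩
        rw [mem_sdiff, mem_union, mem_insert, mem_singleton, mem_insert, mem_singleton]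
        refine ⟨mem_univ _, ?_⟩
        push Not
        exact ⟨⟨hi'.2.2.1, hi'.2.2.2⟩, hi'.1, hiy⟩
      · refine ⟨b, ?_, hj⟩
        rw [mem_sdiff, mem_union, mem_insert, mem_singleton, mem_insert, mem_singleton]
        refine ⟨mem_univ _, ?_⟩
        push Not
        exact ⟨⟨hbc, hbd⟩, hab.symm, fun h => hy'.2.1 h.symm⟩
    have h2 := card_le_card h1
    rw [card_union_of_disjoint hbU] at h2
    omega

end Pool.MP_2cf74a
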