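import Pool.Agent.Lib.MP_2cf74a_ag.TR.RowCol

/-!
ROW K3 (about 150 lines; may be shared, e.g. the choice of A2 is pure combinatorics).  PROOF IN WORDS.
If card T <= g + 1: good_of_rows.  If card T = g + 2: let J0 = the columns of J completely specified on T;
if card J0 >= g then cnt E T J0 = (g+2) card J0 <= g (card J0 + 2), so card J0 <= g; always card J0 <= g + 1, so
good_of_cols and then good_cols (all other columns have at most card T - 1 = g + 1 specified entries in T).
If card T = g + 3: let J1 = the columns of J with at most one unspecified entry in T; the other columns have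
at most g + 1 specified entries, so by good_cols it is enough to treat J1; let N = card J1.  If N <= g + 1:
good_of_cols.  Otherwise q = N - g >= 2.  For i in T let u i = number of j in J1 with (i,j) not in E.  Then
cnt E T J1 = (g+3) N - sum_T u and cnt E (T.erase i) J1 = (g+2) N - (sum_T u - u i), so the counts give
   sum_T u >= 3 q,      sum_T u - u i >= 2 q  for every i in T.
Choose A2 inside T with sum_(A2) u >= q - 1 of MINIMAL cardinality s2 (s2 >= 1); A1 = T sdiff A2.
CLAIM: sum_(A1) u + 2 >= q + s2.  If s2 = 1 this follows from the second inequality.  If s2 >= 2 let i in A2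
have minimal mu = u i; by minimality sum_(A2.erase i) u <= q - 2, so (s2-1) mu <= q - 2, mu >= 1,
sum_(A1) u >= 3q - (q - 2 + mu) = 2q + 2 - mu, and mu + s2 <= (s2-1) mu + 2 <= q.
A1 is not empty (otherwise 2 >= q + card T).  Since every column of J1 has at most one unspecified entry, the
number of columns of J1 completely specified on a set S of rows is N - sum_S u.  good_block with R = 0, T = empty,
S = A1, s = card A1 - 1 (condition N - sum_(A1) u <= card T - s2 - 1: the claim), then good_block with S = A2, s = s2 - 1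
(condition N - sum_(A2) u <= g + 1).
-/

open Finset

namespace Pool.MP_2cf74a

private theorem K3_cnt_eq {m n : ℕ} (E : Finset (Fin m × Fin n)) (T : Finset (Fin m))
    (J : Finset (Fin n)) :
    cnt E T J = ∑ i ∈ T, (J.filter (fun j => (i, j) ∈ E)).card := by
  have h : E.filter (fun p => p.1 ∈ T ∧ p.2 ∈ J) = (T ×ˢ J).filter (fun p => p ∈ E) := by
    ext p
    simp only [mem_filter, mem_product]
    tauto
  rw [cnt, h, card_filter, sum_product]
  refine sum_congr rfl fun i _ => ?_
  rw [card_filter]

/-- The combinatorial choice of the second block. -/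
private theorem K3_choice {m : ℕ} (T : Finset (Fin m)) (u : Fin m → ℕ) (q : ℕ) (hq : 2 ≤ q)
    (h3 : 3 * q ≤ ∑ i ∈ T, u i) (h2 : ∀ i ∈ T, 2 * q + u i ≤ ∑ i ∈ T, u i) :
    ∃ A ⊆ T, 1 ≤ A.card ∧ q ≤ ∑ i ∈ A, u i + 1 ∧ q + A.card ≤ ∑ i ∈ T \ A, u i + 2 := by
  classical
  obtain ⟨A, hA, hmin⟩ := exists_min_image (T.powerset.filter (fun S => q ≤ ∑ i ∈ S, u i + 1))
    (fun S => S.card) ⟨T, by
      rw [mem_filter, mem_powerset]
      exact ⟨Subset.refl _, by omega⟩⟩
  rw [mem_filter, mem_powerset] at hA
  obtain ⟨hAT, hAq⟩ := hA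
  have hne : A.Nonempty := by
    rw [nonempty_iff_ne_empty]
    rintro rfl
    simp at hAq
    omega
  have hsplit : ∑ i ∈ T \ A, u i + ∑ i ∈ A, u i = ∑ i ∈ T, u i := sum_sdiff hAT
  have hpos : 1 ≤ A.card := hne.card_pos
  refine ⟨A, hAT, hpos, hAq, ?_⟩
  by_cases h1 : A.card = 1
  · obtain ⟨i, rfl⟩ := card_eq_one.mp h1
    have := h2 i (hAT (mem_singleton_self i))
    rw [sum_singleton] at hsplit
    rw [card_singleton]
    omega
  · obtain ⟨i, hiA, hi⟩ := exists_min_image A u hne
    have her : ∑ j ∈ A.erase i, u j + u i = ∑ j ∈ A, u j := sum_erase_add A u hiA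
    have hcard : (A.erase i).card + 1 = A.card := card_erase_add_one hiA
    have hlt : ∑ j ∈ A.erase i, u j + 1 < q := by
      by_contra hc
      have := hmin (A.erase i) (by
        rw [mem_filter, mem_powerset]
        exact ⟨(erase_subset _ _).trans hAT, by omega⟩)
      omega
    have hmul : (A.erase i).card * u i ≤ ∑ j ∈ A.erase i, u j := by
      rw [← smul_eq_mul]
      exact card_nsmul_le_sum _ _ _ fun j hj => hi j (mem_of_mem_erase hj)
    have hmu : 1 ≤ u i := by omega
    obtain ⟨c, hc⟩ : ∃ c, A.card = c + 2 := ⟨A.card - 2, by omega⟩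
    obtain ⟨d, hd⟩ : ∃ d, u i = d + 1 := ⟨u i - 1, by omega⟩
    have hc1 : (A.erase i).card = c + 1 := by omega
    rw [hc1, hd] at hmul
    have hcd : (c + 1) * (d + 1) = c * d + c + d + 1 := by ring
    have := Nat.zero_le (c * d)
    omega

private theorem K3_full {m n : ℕ} (E : Finset (Fin m × Fin n)) (T S : Finset (Fin m))
    (J : Finset (Fin n)) (hS : S ⊆ T)
    (hJ : ∀ j ∈ J, (T.filter (fun i => (i, j) ∉ E)).card ≤ 1) :
    (J.filter (fun j => ∀ i ∈ S, (i, j) ∈ E)).card +
      ∑ i ∈ S, (J.filter (fun j => (i, j) ∉ E)).card = J.card := by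
  classical
  have hb : ∑ i ∈ S, (J.filter (fun j => (i, j) ∉ E)).card =
      (S.biUnion (fun i => J.filter (fun j => (i, j) ∉ E))).card := by
    rw [card_biUnion]
    intro i hi i' hi' hne
    change Disjoint (J.filter (fun j => (i, j) ∉ E)) (J.filter (fun j => (i', j) ∉ E))
    rw [Finset.disjoint_left]
    intro j hj hj'
    rw [mem_filter] at hj hj'
    have h1 := hJ j hj.1
    rw [card_le_one] at h1
    exact hne (h1 i (by rw [mem_filter]; exact ⟨hS hi, hj.2⟩) i'
      (by rw [mem_filter]; exact ⟨hS hi', hj'.2⟩))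
  rw [hb]
  have hc : S.biUnion (fun i => J.filter (fun j => (i, j) ∉ E)) =
      J.filter (fun j => ¬ ∀ i ∈ S, (i, j) ∈ E) := by
    ext j
    simp only [mem_biUnion, mem_filter, not_forall]
    constructor
    · rintro ⟨i, hi, hj, h⟩
      exact ⟨hj, i, hi, h⟩
    · rintro ⟨hj, i, hi, h⟩
      exact ⟨i, hi, hj, h⟩
  rw [hc]
  exact card_filter_add_card_filter_not _

/-- Corank at most three: the counts for `g` give completions of rank at most `g + 1`. -/
theorem good_of_corank_three {m n : ℕ} {E : Finset (Fin m × Fin n)} {g : ℕ}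
    {T : Finset (Fin m)} {J : Finset (Fin n)}
    (hcnt : ∀ T' ⊆ T, ∀ J' ⊆ J, g ≤ T'.card → g ≤ J'.card →
      cnt E T' J' ≤ g * (T'.card + J'.card - g))
    (hg : T.card ≤ g + 3) : Good E (g + 1) T J := by
  classical
  rcases Nat.lt_or_ge (g + 1) T.card with h1 | h1
  swap
  · exact good_of_rows h1
  rcases Nat.lt_or_ge (g + 2) T.card with h2 | h2
  swap
  · -- card T = g + 2
    have hT : T.card = g + 2 := by omega
    have hJ0s : J.filter (fun j => ∀ i ∈ T, (i, j) ∈ E) ⊆ J := filter_subset _ _
    have hJ0 : (J.filter (fun j => ∀ i ∈ T, (i, j) ∈ E)).card ≤ g + 1 := by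
      by_contra hc
      have h := hcnt T (Subset.refl _) _ hJ0s (by omega) (by omega)
      have hfull : cnt E T (J.filter (fun j => ∀ i ∈ T, (i, j) ∈ E)) =
          (g + 2) * (J.filter (fun j => ∀ i ∈ T, (i, j) ∈ E)).card := by
        rw [K3_cnt_eq]
        have : ∀ i ∈ T, ((J.filter (fun j => ∀ i ∈ T, (i, j) ∈ E)).filter
            (fun j => (i, j) ∈ E)).card = (J.filter (fun j => ∀ i ∈ T, (i, j) ∈ E)).card := by
          intro i hi
          congr 1
          rw [filter_eq_self]
          intro j hj
          exact (mem_filter.mp hj).2 i hi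
        rw [sum_congr rfl this, sum_const, hT, smul_eq_mul]
      rw [hfull, hT] at h
      set c := (J.filter (fun j => ∀ i ∈ T, (i, j) ∈ E)).card with hcdef
      have e : g + 2 + c - g = c + 2 := by omega
      rw [e] at h
      have e1 : (g + 2) * c = g * c + 2 * c := by ring
      have e2 : g * (c + 2) = g * c + 2 * g := by ring
      omega
    have hgood := good_cols (D := J \ J.filter (fun j => ∀ i ∈ T, (i, j) ∈ E))
      (good_of_cols (E := E) (T := T) hJ0) (by
        intro j hj
        rw [mem_sdiff, mem_filter] at hj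
        obtain ⟨hjJ, hj2⟩ := hj
        have : T.filter (fun i => (i, j) ∈ E) ⊂ T := by
          rw [filter_ssubset]
          by_contra hcon
          push Not at hcon
          exact hj2 ⟨hjJ, hcon⟩
        have := card_lt_card this
        omega)
    rwa [union_sdiff_of_subset hJ0s] at hgood
  · -- card T = g + 3
    have hT : T.card = g + 3 := by omega
    set J1 := J.filter (fun j => (T.filter (fun i => (i, j) ∉ E)).card ≤ 1) with hJ1
    have hJ1s : J1 ⊆ J := filter_subset _ _
    suffices hmain : Good E (g + 1) T J1 by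
      have hgood := good_cols (D := J \ J1) hmain (by
        intro j hj
        rw [mem_sdiff, hJ1, mem_filter] at hj
        obtain ⟨hjJ, hj2⟩ := hj
        have hj3 : 2 ≤ (T.filter (fun i => (i, j) ∉ E)).card := by
          by_contra hcon
          exact hj2 ⟨hjJ, by omega⟩
        have := card_filter_add_card_filter_not (s := T) (fun i => (i, j) ∈ E)
        omega)
      rwa [union_sdiff_of_subset hJ1s] at hgood
    have hcol : ∀ j ∈ J1, (T.filter (fun i => (i, j) ∉ E)).card ≤ 1 := fun j hj =>
      (mem_filter.mp hj).2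
    rcases Nat.lt_or_ge (g + 1) J1.card with hN | hN
    swap
    · exact good_of_cols hN
    obtain ⟨q, hq⟩ : ∃ q, J1.card = g + q := ⟨J1.card - g, by omega⟩
    have hq2 : 2 ≤ q := by omega
    set u : Fin m → ℕ := fun i => (J1.filter (fun j => (i, j) ∉ E)).card with hu
    have hrow : ∀ i, (J1.filter (fun j => (i, j) ∈ E)).card + u i = g + q := by
      intro i
      rw [← hq]
      exact card_filter_add_card_filter_not _
    have hsum : ∀ S : Finset (Fin m), cnt E S J1 + ∑ i ∈ S, u i = S.card * (g + q) := by
      intro S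
      rw [K3_cnt_eq, ← sum_add_distrib, sum_congr rfl (fun i _ => hrow i), sum_const, smul_eq_mul]
    have h3 : 3 * q ≤ ∑ i ∈ T, u i := by
      have h := hcnt T (Subset.refl _) J1 hJ1s (by omega) (by omega)
      have h' := hsum T
      rw [hT] at h h'
      rw [hq] at h
      have e : g + 3 + (g + q) - g = g + q + 3 := by omega
      rw [e] at h
      have e1 : (g + 3) * (g + q) = g * (g + q) + 3 * g + 3 * q := by ring
      have e2 : g * (g + q + 3) = g * (g + q) + 3 * g := by ring
      omega
    have h2' : ∀ i ∈ T, 2 * q + u i ≤ ∑ i ∈ T, u i := by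
      intro i hi
      have hce : (T.erase i).card = g + 2 := by
        rw [card_erase_of_mem hi]; omega
      have h := hcnt (T.erase i) (erase_subset _ _) J1 hJ1s (by omega) (by omega)
      have h' := hsum (T.erase i)
      have h'' : ∑ j ∈ T.erase i, u j + u i = ∑ j ∈ T, u j := sum_erase_add T u hi
      rw [hce] at h h'
      rw [hq] at h
      have e : g + 2 + (g + q) - g = g + q + 2 := by omega
      rw [e] at h
      have e1 : (g + 2) * (g + q) = g * (g + q) + 2 * g + 2 * q := by ring
      have e2 : g * (g + q + 2) = g * (g + q) + 2 * g := by ring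
      omega
    obtain ⟨A, hAT, hA1, hAq, hclaim⟩ := K3_choice T u q hq2 h3 h2'
    have hcardA : (T \ A).card + A.card = g + 3 := by
      rw [card_sdiff_add_card_eq_card hAT, hT]
    have hB1 : 1 ≤ (T \ A).card := by
      by_contra hcon
      have h0 : T \ A = ∅ := by
        rw [← card_eq_zero]; omega
      rw [h0] at hclaim hcardA
      simp at hclaim hcardA
      omega
    have hf1 := K3_full E T (T \ A) J1 sdiff_subset hcol
    have hf2 := K3_full E T A J1 hAT hcol
    rw [hq] at hf1 hf2
    have g0 : Good E 0 (∅ : Finset (Fin m)) J1 := good_of_rows (by simp)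
    have g1 := good_block (s := (T \ A).card - 1) g0 (disjoint_empty_left (T \ A)) (by omega)
      (by
        change _ + ∑ i ∈ T \ A, u i = _ at hf1
        omega)
    have g2 := good_block (s := A.card - 1) g1 (by
      rw [empty_union]
      exact sdiff_disjoint) (S := A) (by omega)
      (by
        change _ + ∑ i ∈ A, u i = _ at hf2
        omega)
    have e1 : 0 + ((T \ A).card - 1) + (A.card - 1) = g + 1 := by omega
    have e2 : ∅ ∪ T \ A ∪ A = T := by
      rw [empty_union, sdiff_union_of_subset hAT]
    rwa [e1, e2] at g2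

end Pool.MP_2cf74a
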