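import Pool.Agent.Lib.MP_2cf74a_ag.TR.RowCol

/-!
Reduction to the core, and patterns whose smallest typical rank is at most two.
-/

open Finset

namespace Pool.MP_2cf74a

/-- A pattern that is not completable in size `R` contains one all of whose rows and columns have
more than `R` specified entries. -/
theorem exists_core {m n : ℕ} {E : Finset (Fin m × Fin n)} {R : ℕ} (N : ℕ) :
    ∀ (T : Finset (Fin m)) (J : Finset (Fin n)), T.card + J.card ≤ N → ¬ Good E R T J →
    ∃ T' ⊆ T, ∃ J' ⊆ J, ¬ Good E R T' J' ∧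
      (∀ i ∈ T', R < (J'.filter (fun j => (i, j) ∈ E)).card) ∧
      (∀ j ∈ J', R < (T'.filter (fun i => (i, j) ∈ E)).card) := by
  classical
  induction N with
  | zero =>
    intro T J hN hG
    exact absurd (good_of_rows (by omega)) hG
  | succ N ih =>
    intro T J hN hG
    by_cases h1 : ∀ i ∈ T, R < (J.filter (fun j => (i, j) ∈ E)).card
    · by_cases h2 : ∀ j ∈ J, R < (T.filter (fun i => (i, j) ∈ E)).card
      · exact ⟨T, Subset.refl _, J, Subset.refl _, hG, h1, h2⟩
      · push Not at h2
        obtain ⟨j, hj, hdeg⟩ := h2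
        have hG' : ¬ Good E R T (J.erase j) := by
          intro hg
          apply hG
          have := good_col (j := j) hg hdeg
          rwa [Finset.insert_erase hj] at this
        have hcard := Finset.card_erase_of_mem hj
        have hpos : 0 < J.card := Finset.card_pos.2 ⟨j, hj⟩
        obtain ⟨T', hT', J', hJ', h⟩ := ih T (J.erase j) (by omega) hG'
        exact ⟨T', hT', J', hJ'.trans (Finset.erase_subset _ _), h⟩
    · push Not at h1
      obtain ⟨i, hi, hdeg⟩ := h1
      have hG' : ¬ Good E R (T.erase i) J := by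
        intro hg
        apply hG
        have := good_row (i := i) hg hdeg
        rwa [Finset.insert_erase hi] at this
      have hcard := Finset.card_erase_of_mem hi
      have hpos : 0 < T.card := Finset.card_pos.2 ⟨i, hi⟩
      obtain ⟨T', hT', J', hJ', h⟩ := ih (T.erase i) J (by omega) hG'
      exact ⟨T', hT'.trans (Finset.erase_subset _ _), J', hJ', h⟩

/-- `cnt` as the sum of the row degrees. -/
theorem cnt_eq_sum_rows {m n : ℕ} (E : Finset (Fin m × Fin n)) (T : Finset (Fin m))
    (J : Finset (Fin n)) :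
    cnt E T J = ∑ i ∈ T, (J.filter (fun j => (i, j) ∈ E)).card := by
  classical
  unfold cnt
  rw [Finset.card_eq_sum_card_fiberwise (f := Prod.fst) (t := T)]
  · refine Finset.sum_congr rfl fun i hi => ?_
    refine Finset.card_bij (fun p _ => p.2) ?_ ?_ ?_
    · rintro ⟨a, b⟩ hp
      simp only [Finset.mem_filter] at hp ⊢
      obtain ⟨⟨hE, _, hb⟩, rfl⟩ := hp
      exact ⟨hb, hE⟩
    · rintro ⟨a, b⟩ hp ⟨a', b'⟩ hp' hbb
      simp only [Finset.mem_filter] at hp hp'
      obtain ⟨_, rfl⟩ := hp
      obtain ⟨_, rfl⟩ := hp'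
      simp only at hbb
      rw [hbb]
    · intro b hb
      simp only [Finset.mem_filter] at hb
      exact ⟨(i, b), by simp only [Finset.mem_filter]; exact ⟨⟨hb.2, hi, hb.1⟩, trivial⟩, rfl⟩
  · intro p hp
    simp only [Finset.coe_filter, Set.mem_setOf_eq] at hp
    exact hp.2.1

/-- `cnt` as the sum of the column degrees. -/
theorem cnt_eq_sum_cols {m n : ℕ} (E : Finset (Fin m × Fin n)) (T : Finset (Fin m))
    (J : Finset (Fin n)) :
    cnt E T J = ∑ j ∈ J, (T.filter (fun i => (i, j) ∈ E)).card := by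
  classical
  rw [← cnt_swap, cnt_eq_sum_rows]
  refine Finset.sum_congr rfl fun j _ => ?_
  congr 1
  ext i
  simp only [Finset.mem_filter, Finset.mem_image, Prod.exists, Prod.swap_prod_mk, Prod.mk.injEq]
  constructor
  · rintro ⟨hi, a, b, hab, rfl, rfl⟩; exact ⟨hi, hab⟩
  · rintro ⟨hi, h⟩; exact ⟨hi, i, j, h, rfl, rfl⟩

/-- In a core the number of specified entries is large. -/
theorem core_count {m n : ℕ} {E : Finset (Fin m × Fin n)} {R : ℕ} {T : Finset (Fin m)}
    {J : Finset (Fin n)} (h1 : ∀ i ∈ T, R < (J.filter (fun j => (i, j) ∈ E)).card)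
    (h2 : ∀ j ∈ J, R < (T.filter (fun i => (i, j) ∈ E)).card) :
    T.card * (R + 1) ≤ cnt E T J ∧ J.card * (R + 1) ≤ cnt E T J := by
  constructor
  · rw [cnt_eq_sum_rows, ← smul_eq_mul]
    exact Finset.card_nsmul_le_sum _ _ _ fun i hi => h1 i hi
  · rw [cnt_eq_sum_cols, ← smul_eq_mul]
    exact Finset.card_nsmul_le_sum _ _ _ fun j hj => h2 j hj

/-- Smallest typical rank at most two. -/
theorem good_of_small {m n : ℕ} {E : Finset (Fin m × Fin n)} {g : ℕ}
    {T : Finset (Fin m)} {J : Finset (Fin n)}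
    (hcnt : ∀ T' ⊆ T, ∀ J' ⊆ J, g ≤ T'.card → g ≤ J'.card →
      cnt E T' J' ≤ g * (T'.card + J'.card - g))
    (hg : g ≤ 2) : Good E (g + 1) T J := by
  classical
  by_contra hG
  obtain ⟨T', hT', J', hJ', hG', h1, h2⟩ := exists_core _ T J le_rfl hG
  have hT1 : g + 1 < T'.card := by
    by_contra h
    exact hG' (good_of_rows (by omega))
  have hJ1 : g + 1 < J'.card := by
    by_contra h
    exact hG' (good_of_cols (by omega))
  have hc := hcnt T' hT' J' hJ' (by omega) (by omega)
  obtain ⟨hr, hcl⟩ := core_count h1 h2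
  have hsub : T'.card + J'.card - g = (T'.card - g) + J'.card := by omega
  obtain ⟨a, ha⟩ : ∃ a, T'.card = a + (g + 2) := ⟨T'.card - (g + 2), by omega⟩
  obtain ⟨b, hb⟩ : ∃ b, J'.card = b + (g + 2) := ⟨J'.card - (g + 2), by omega⟩
  rw [ha, hb] at hc
  rw [ha] at hr
  rw [hb] at hcl
  have hsub : a + (g + 2) + (b + (g + 2)) - g = a + b + g + 4 := by omega
  rw [hsub] at hc
  interval_cases g <;> omega

end Pool.MP_2cf74a
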