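import Pool.Agent.Lib.MP_2cf74a_ag.TR.K3
import Pool.Agent.Lib.MP_2cf74a_ag.TR.Elim
import Pool.Agent.Lib.MP_2cf74a_ag.TR.Small
import Pool.Agent.Lib.MP_2cf74a_ag.TR.Diag
import Pool.Agent.Lib.MP_2cf74a_ag.TR.F4
import Pool.Agent.Lib.MP_2cf74a_ag.TR.F3a
import Pool.Agent.Lib.MP_2cf74a_ag.TR.F3b

/-!
Square patterns of corank four.
-/

open Finset

namespace Pool.MP_2cf74a

theorem unk_swap {n : ℕ} (E : Finset (Fin n × Fin n)) (i : Fin n) :
    unk (E.image Prod.swap) i = unkc E i := by
  ext j
  rw [mem_unk, mem_unkc, mem_image_swap]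

theorem unkc_swap {n : ℕ} (E : Finset (Fin n × Fin n)) (j : Fin n) :
    unkc (E.image Prod.swap) j = unk E j := by
  ext i
  rw [mem_unkc, mem_unk, mem_image_swap]

theorem known_add_unk {n : ℕ} (E : Finset (Fin n × Fin n)) (i : Fin n) :
    ((univ : Finset (Fin n)).filter (fun j => (i, j) ∈ E)).card + (unk E i).card = n := by
  have := Finset.card_filter_add_card_filter_not (s := (univ : Finset (Fin n)))
    (fun j => (i, j) ∈ E)
  rw [Finset.card_univ, Fintype.card_fin] at this
  exact this

theorem known_add_unkc {n : ℕ} (E : Finset (Fin n × Fin n)) (j : Fin n) :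
    ((univ : Finset (Fin n)).filter (fun i => (i, j) ∈ E)).card + (unkc E j).card = n := by
  have := Finset.card_filter_add_card_filter_not (s := (univ : Finset (Fin n)))
    (fun i => (i, j) ∈ E)
  rw [Finset.card_univ, Fintype.card_fin] at this
  exact this

theorem sum_unk {n : ℕ} (E : Finset (Fin n × Fin n)) :
    ∑ i, (unk E i).card + E.card = n * n := by
  have h1 : E.card = ∑ i, ((univ : Finset (Fin n)).filter (fun j => (i, j) ∈ E)).card := by
    rw [← cnt_univ E]
    exact cnt_eq_sum_rows E univ univ
  rw [h1, ← Finset.sum_add_distrib]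
  have : ∀ i ∈ (univ : Finset (Fin n)), (unk E i).card +
      ((univ : Finset (Fin n)).filter (fun j => (i, j) ∈ E)).card = n := by
    intro i _
    have := known_add_unk E i
    omega
  rw [Finset.sum_congr rfl this, Finset.sum_const, Finset.card_univ, Fintype.card_fin,
    smul_eq_mul]

theorem card_swap {n : ℕ} (E : Finset (Fin n × Fin n)) : (E.image Prod.swap).card = E.card :=
  Finset.card_image_of_injective _ Prod.swap_injective

/-- At most two unspecified entries in each line, some row with two. -/
theorem good_lines {n : ℕ} {E : Finset (Fin n × Fin n)} (hr : ∀ i, (unk E i).card ≤ 2)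
    (hc : ∀ j, (unkc E j).card ≤ 2) (hu : 16 ≤ ∑ i, (unk E i).card)
    (h1 : 1 ≤ (univ.filter (fun i => (unk E i).card = 2)).card)
    (h2 : (univ.filter (fun j => (unkc E j).card = 2)).card ≤
      (univ.filter (fun i => (unk E i).card = 2)).card) :
    Good E (n - 3) univ univ := by
  rcases Nat.lt_or_ge (univ.filter (fun i => (unk E i).card = 2)).card 4 with h | h
  · rcases Nat.lt_or_ge (univ.filter (fun i => (unk E i).card = 2)).card 3 with h' | h'
    · exact good_two_double hr hc hu h1 (by omega) (by omega)
    · exact good_three_double hr hc hu (by omega) (by omega)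
  · exact good_four_double hr hc hu h

/-- At most one unspecified entry in each line. -/
theorem good_matching {n : ℕ} {E : Finset (Fin n × Fin n)} (hr : ∀ i, (unk E i).card ≤ 1)
    (hc : ∀ j, (unkc E j).card ≤ 1) (hu : 16 ≤ ∑ i, (unk E i).card) :
    Good E (n - 3) univ univ := by
  classical
  let D : Finset (Fin n) := univ.filter (fun j => (unkc E j).Nonempty)
  let ρ : Fin n → Fin n := fun j => if h : (unkc E j).Nonempty then h.choose else j
  have hρ : ∀ j ∈ D, ρ j ∈ unkc E j := by
    intro j hj
    have hj' : (unkc E j).Nonempty := (Finset.mem_filter.1 hj).2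
    simp only [ρ, dif_pos hj']
    exact hj'.choose_spec
  have huniq : ∀ i j, (i, j) ∉ E → j ∈ D ∧ i = ρ j := by
    intro i j hij
    have h1 : i ∈ unkc E j := mem_unkc.2 hij
    have hjD : j ∈ D := Finset.mem_filter.2 ⟨Finset.mem_univ _, ⟨i, h1⟩⟩
    exact ⟨hjD, Finset.card_le_one.1 (hc j) i h1 (ρ j) (hρ j hjD)⟩
  have hE : E = coMatching n D ρ := by
    ext ⟨i, j⟩
    rw [mem_coMatching]
    constructor
    · rintro hij ⟨hj, rfl⟩
      exact (mem_unkc.1 (hρ j hj)) hij
    · intro h
      by_contra hij
      exact h (huniq i j hij)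
  have hinj : Set.InjOn ρ (D : Set (Fin n)) := by
    intro j hj l hl hjl
    have h1 : j ∈ unk E (ρ j) := mem_unk.2 (mem_unkc.1 (hρ j hj))
    have h2 : l ∈ unk E (ρ j) := by
      rw [hjl]; exact mem_unk.2 (mem_unkc.1 (hρ l hl))
    exact Finset.card_le_one.1 (hr (ρ j)) j h1 l h2
  have hD : 16 ≤ D.card := by
    have h1 := sum_unk E
    have h2 := card_coMatching D ρ
    rw [← hE] at h2
    omega
  rw [hE]
  rcases Nat.lt_or_ge 16 D.card with h | h
  · exact good_match_three hinj h
  · exact good_match_sixteen hinj (le_antisymm h hD)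

/-- Square patterns, corank four: the counts for `g` give completions of rank at most `g + 1`. -/
theorem good_of_corank_four_square {n g : ℕ} {E : Finset (Fin n × Fin n)}
    (hcnt : ∀ T' J' : Finset (Fin n), g ≤ T'.card → g ≤ J'.card →
      cnt E T' J' ≤ g * (T'.card + J'.card - g))
    (hn : n = g + 4) : Good E (g + 1) univ univ := by
  classical
  by_cases hA : ∃ j, 3 ≤ (unkc E j).card
  · obtain ⟨j, hj⟩ := hA
    have h1 : Good (E.image Prod.swap) (g + 1) (univ.erase j) univ := by
      refine good_of_corank_three (g := g) (fun T' _ J' _ h1 h2 => ?_) ?_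
      · rw [cnt_swap, add_comm]
        exact hcnt J' T' h2 h1
      · rw [Finset.card_erase_of_mem (Finset.mem_univ _), Finset.card_univ, Fintype.card_fin]
        omega
    have h2 := good_col (j := j) (good_swap.1 h1) (by
      have := known_add_unkc E j
      omega)
    rwa [Finset.insert_erase (Finset.mem_univ _)] at h2
  by_cases hB : ∃ i, 3 ≤ (unk E i).card
  · obtain ⟨i, hi⟩ := hB
    have h1 : Good E (g + 1) (univ.erase i) univ := by
      refine good_of_corank_three (g := g) (fun T' _ J' _ h1 h2 => hcnt T' J' h1 h2) ?_
      rw [Finset.card_erase_of_mem (Finset.mem_univ _), Finset.card_univ, Fintype.card_fin]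
      omega
    have h2 := good_row (i := i) h1 (by
      have := known_add_unk E i
      omega)
    rwa [Finset.insert_erase (Finset.mem_univ _)] at h2
  push Not at hA hB
  have hr : ∀ i, (unk E i).card ≤ 2 := fun i => Nat.le_of_lt_succ (hB i)
  have hc : ∀ j, (unkc E j).card ≤ 2 := fun j => Nat.le_of_lt_succ (hA j)
  have hu : 16 ≤ ∑ i, (unk E i).card := by
    have h1 := sum_unk E
    have h2 := hcnt univ univ (by rw [Finset.card_univ, Fintype.card_fin]; omega)
      (by rw [Finset.card_univ, Fintype.card_fin]; omega)
    rw [cnt_univ, Finset.card_univ, Fintype.card_fin] at h2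
    have e : n + n - g = g + 8 := by omega
    rw [e] at h2
    have hnn : n * n = (g + 4) * (g + 4) := by
      have h3 : ∀ k : ℕ, k = g + 4 → k * k = (g + 4) * (g + 4) := fun k hk => by rw [hk]
      exact h3 n hn
    rw [hnn] at h1
    nlinarith
  have hres : Good E (n - 3) univ univ := by
    by_cases h0 : (univ.filter (fun i => (unk E i).card = 2)).card = 0 ∧
        (univ.filter (fun j => (unkc E j).card = 2)).card = 0
    · refine good_matching ?_ ?_ hu
      · intro i
        have h1 := hr i
        have h2 : (unk E i).card ≠ 2 := by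
          have := Finset.card_eq_zero.1 h0.1
          intro h
          have hm : i ∈ univ.filter (fun i => (unk E i).card = 2) :=
            Finset.mem_filter.2 ⟨Finset.mem_univ _, h⟩
          rw [this] at hm
          exact Finset.notMem_empty _ hm
        omega
      · intro j
        have h1 := hc j
        have h2 : (unkc E j).card ≠ 2 := by
          have := Finset.card_eq_zero.1 h0.2
          intro h
          have hm : j ∈ univ.filter (fun j => (unkc E j).card = 2) :=
            Finset.mem_filter.2 ⟨Finset.mem_univ _, h⟩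
          rw [this] at hm
          exact Finset.notMem_empty _ hm
        omega
    · rcases le_total (univ.filter (fun j => (unkc E j).card = 2)).card
        (univ.filter (fun i => (unk E i).card = 2)).card with h | h
      · exact good_lines hr hc hu (by omega) h
      · rw [← good_swap]
        refine good_lines ?_ ?_ ?_ ?_ ?_
        · intro i; rw [unk_swap]; exact hc i
        · intro j; rw [unkc_swap]; exact hr j
        · have h1 := sum_unk E
          have h2 := sum_unk (E.image Prod.swap)
          rw [card_swap] at h2
          omega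
        · simp only [unk_swap]; omega
        · simp only [unk_swap, unkc_swap]; exact h
  have : n - 3 = g + 1 := by omega
  rwa [this] at hres

end Pool.MP_2cf74a
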