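import Pool.Agent.Lib.MP_2cf74a_ag.TR.DimA
import Pool.Agent.Lib.MP_2cf74a_ag.TR.DimB
import Pool.Agent.Lib.MP_2cf74a_ag.TR.K3
import Pool.Agent.Lib.MP_2cf74a_ag.TR.K4
import Pool.Agent.Lib.MP_2cf74a_ag.TR.Core
import Pool.Agent.Lib.MP_2cf74a_ag.TR.Small

/-!
Assembly: bounds on the typical ranks of a bipartite graph.
-/

open Finset

namespace Pool.MP_2cf74a

/-- The counts of `count_of_typical` for the transposed pattern. -/
theorem count_swap {m n : ℕ} {E : Finset (Fin m × Fin n)} {r : ℕ} (ht : Typical E r)
    (T : Finset (Fin m)) (J : Finset (Fin n)) (hT : r ≤ T.card) (hJ : r ≤ J.card) :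
    cnt (E.image Prod.swap) J T ≤ r * (J.card + T.card - r) := by
  rw [cnt_swap, add_comm]
  exact count_of_typical ht T J hT hJ

/-- Two typical ranks which differ by at least two: the smaller one is at most `min m n - 4`. -/
theorem corank_of_gap {m n : ℕ} {E : Finset (Fin m × Fin n)} {r s : ℕ} (hr : Typical E r)
    (hs : Typical E s) (hrs : r + 2 ≤ s) : r + 4 ≤ m ∧ r + 4 ≤ n := by
  constructor
  · by_contra hcon
    have hg : Good E (r + 1) univ univ :=
      good_of_corank_three (g := r) (fun T' _ J' _ h1 h2 => count_of_typical hr T' J' h1 h2)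
        (by rw [Finset.card_univ, Fintype.card_fin]; omega)
    have := typical_le_of_good hg hs
    omega
  · by_contra hcon
    have hg : Good (E.image Prod.swap) (r + 1) univ univ :=
      good_of_corank_three (g := r) (fun T' _ J' _ h1 h2 => count_swap hr J' T' h2 h1)
        (by rw [Finset.card_univ, Fintype.card_fin]; omega)
    have := typical_le_of_good (good_swap.1 hg) hs
    omega

/-- Corank four on both sides is impossible. -/
theorem sum_of_gap {m n : ℕ} {E : Finset (Fin m × Fin n)} {r s : ℕ} (hr : Typical E r)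
    (hs : Typical E s) (hrs : r + 2 ≤ s) : 2 * r + 9 ≤ m + n := by
  obtain ⟨h1, h2⟩ := corank_of_gap hr hs hrs
  by_contra hcon
  have hm : m = n := by omega
  subst hm
  have hg : Good E (r + 1) univ univ :=
    good_of_corank_four_square (g := r) (fun T' J' h1 h2 => count_of_typical hr T' J' h1 h2)
      (by omega)
  have := typical_le_of_good hg hs
  omega

/-- Two typical ranks which differ by at least two need nine rows and nine columns. -/
theorem nine_of_gap {m n : ℕ} {E : Finset (Fin m × Fin n)} {r s : ℕ} (hr : Typical E r)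
    (hs : Typical E s) (hrs : r + 2 ≤ s) : 9 ≤ m ∧ 9 ≤ n := by
  constructor
  · by_contra hcon
    have hg : Good E (r + 1) univ univ :=
      good_of_eight (g := r) (fun T' _ J' _ h1 h2 => count_of_typical hr T' J' h1 h2)
        (by rw [Finset.card_univ, Fintype.card_fin]; omega)
    have := typical_le_of_good hg hs
    omega
  · by_contra hcon
    have hg : Good (E.image Prod.swap) (r + 1) univ univ :=
      good_of_eight (g := r) (fun T' _ J' _ h1 h2 => count_swap hr J' T' h2 h1)
        (by rw [Finset.card_univ, Fintype.card_fin]; omega)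
    have := typical_le_of_good (good_swap.1 hg) hs
    omega

/-- The smallest typical rank is at least three. -/
theorem three_of_gap {m n : ℕ} {E : Finset (Fin m × Fin n)} {r s : ℕ} (hr : Typical E r)
    (hs : Typical E s) (hrs : r + 2 ≤ s) : 3 ≤ r := by
  by_contra hcon
  have hg : Good E (r + 1) univ univ :=
    good_of_small (g := r) (fun T' _ J' _ h1 h2 => count_of_typical hr T' J' h1 h2) (by omega)
  have := typical_le_of_good hg hs
  omega

/-- The number of specified entries. -/
theorem specified_of_gap {m n : ℕ} {E : Finset (Fin m × Fin n)} {r s : ℕ} (hr : Typical E r)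
    (hs : Typical E s) (hrs : r + 2 ≤ s) : 9 * (r + 2) ≤ E.card := by
  classical
  have hG : ¬ Good E (r + 1) univ univ := by
    intro h
    have := typical_le_of_good h hs
    omega
  obtain ⟨T, hT, J, hJ, hG', h1, h2⟩ := exists_core _ univ univ le_rfl hG
  have hT9 : 9 ≤ T.card := by
    by_contra hcon
    exact hG' (good_of_eight (g := r)
      (fun T' _ J' _ h1 h2 => count_of_typical hr T' J' h1 h2) (by omega))
  obtain ⟨h3, -⟩ := core_count h1 h2
  have h4 : cnt E T J ≤ E.card := Finset.card_filter_le _ _
  have h5 : 9 * (r + 1 + 1) ≤ T.card * (r + 1 + 1) := Nat.mul_le_mul_right _ hT9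
  omega

/-- The number of unspecified entries. -/
theorem unspecified_of_gap {m n : ℕ} {E : Finset (Fin m × Fin n)} {r s : ℕ} (hr : Typical E r)
    (hs : Typical E s) (hrs : r + 2 ≤ s) : E.card + (m - r) * (n - r) ≤ m * n := by
  obtain ⟨h1, h2⟩ := corank_of_gap hr hs hrs
  have hc := count_of_typical hr univ univ
    (by rw [Finset.card_univ, Fintype.card_fin]; omega)
    (by rw [Finset.card_univ, Fintype.card_fin]; omega)
  rw [cnt_univ, Finset.card_univ, Finset.card_univ, Fintype.card_fin, Fintype.card_fin] at hc
  obtain ⟨a, ha⟩ : ∃ a, m = r + a := ⟨m - r, by omega⟩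
  obtain ⟨b, hb⟩ : ∃ b, n = r + b := ⟨n - r, by omega⟩
  have e : m + n - r = r + a + b := by omega
  rw [e] at hc
  have ea : m - r = a := by omega
  have eb : n - r = b := by omega
  rw [ea, eb]
  have e2 : m * n = r * (r + a + b) + a * b := by
    have : ∀ x y : ℕ, x = r + a → y = r + b → x * y = r * (r + a + b) + a * b := by
      intro x y hx hy
      rw [hx, hy]; ring
    exact this m n ha hb
  omega

end Pool.MP_2cf74a
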