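import Pool.Agent.Lib.MP_2cf74a_ag.TR.Base

/-!
ROW GPd (about 80 lines).  PROOF IN WORDS.
Let V i b = (i : R)^(b : N) (Vandermonde).  For K with k = card K <= R consider the k x k matrix with rows
the elements of K (K.orderEmbOfFin or K.equivFin) and the FIRST k coordinates: det (t V + A) on it is the
value at t of the polynomial det (X • V.map C + A.map C), whose coefficient of degree k is det V (not 0:
Matrix.det_vandermonde_ne_zero_iff, the i in K are distinct reals); see Polynomial.coeff_det_X_add_C_card.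
So it is a nonzero polynomial with finitely many roots.  For t outside the finite union over K of
these root sets all these determinants are nonzero, and then the rows of A + t V with index in K are linearly
independent (LinearIndependent.of_comp with the restriction to the first k coordinates,
Matrix.linearIndependent_rows_of_det_ne_zero or iff).
-/

open Finset

namespace Pool.MP_2cf74a

private theorem gpd_one (m R : ℕ) (A : Fin m → Fin R → ℝ) (K : Finset (Fin m)) :
    ∃ F : Finset ℝ, ∀ t : ℝ, t ∉ F → K.card ≤ R →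
      LinearIndependent ℝ (fun i : K => (fun a : Fin R => A i a + t * ((i : Fin m) : ℝ) ^ (a : ℕ))) := by
  classical
  by_cases hK : K.card ≤ R
  swap
  · exact ⟨∅, fun t _ h => absurd h hK⟩
  obtain ⟨e⟩ : Nonempty (Fin K.card ≃ K) := ⟨K.equivFin.symm⟩
  obtain ⟨Vk, hVk⟩ : ∃ Vk : Matrix (Fin K.card) (Fin K.card) ℝ,
      Vk = Matrix.vandermonde (fun a => (((e a : K) : Fin m) : ℝ)) := ⟨_, rfl⟩
  obtain ⟨Ak, hAk⟩ : ∃ Ak : Matrix (Fin K.card) (Fin K.card) ℝ,
      Ak = fun a b => A (e a) (Fin.castLE hK b) := ⟨_, rfl⟩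
  obtain ⟨P, hP⟩ : ∃ P : Polynomial ℝ, P = Matrix.det ((Polynomial.X : Polynomial ℝ) • Vk.map Polynomial.C +
      Ak.map Polynomial.C) := ⟨_, rfl⟩
  have hdet : Vk.det ≠ 0 := by
    rw [hVk, Matrix.det_vandermonde_ne_zero_iff]
    intro a b hab
    have h1 : (((e a : K) : Fin m) : ℝ) = (((e b : K) : Fin m) : ℝ) := hab
    have h2 : (((e a : K) : Fin m) : ℕ) = (((e b : K) : Fin m) : ℕ) := by exact_mod_cast h1
    exact e.injective (Subtype.ext (Fin.ext h2))
  have hP0 : P ≠ 0 := by
    intro h0
    have h1 := Polynomial.coeff_det_X_add_C_card Vk Ak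
    rw [← hP, h0, Polynomial.coeff_zero] at h1
    exact hdet h1.symm
  refine ⟨P.roots.toFinset, fun t ht _ => ?_⟩
  have hev : P.eval t ≠ 0 := by
    intro h
    apply ht
    rw [Multiset.mem_toFinset, Polynomial.mem_roots hP0]
    exact h
  have hev2 : P.eval t = Matrix.det (t • Vk + Ak) := by
    rw [hP, ← Polynomial.coe_evalRingHom, RingHom.map_det]
    congr 1
    ext a b
    simp [Matrix.map_apply]
    ring
  rw [hev2] at hev
  have hrow := Matrix.linearIndependent_rows_of_det_ne_zero hev
  rw [← linearIndependent_equiv e]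
  refine LinearIndependent.of_comp (LinearMap.funLeft ℝ ℝ (Fin.castLE hK)) ?_
  have hv : (LinearMap.funLeft ℝ ℝ (Fin.castLE hK)) ∘
      ((fun i : K => (fun a : Fin R => A i a + t * ((i : Fin m) : ℝ) ^ (a : ℕ))) ∘ e) = fun i => (t • Vk + Ak) i := by
    funext a b
    simp only [Function.comp_apply, LinearMap.funLeft_apply, hVk, hAk, Matrix.add_apply, Matrix.smul_apply,
      Matrix.vandermonde_apply, smul_eq_mul, Fin.val_castLE]
    ring
  rw [hv]
  exact hrow

/-- A fixed direction along which every family of vectors is in general position up to finitely many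
parameters. -/
theorem exists_direction (m R : ℕ) : ∃ V : Fin m → Fin R → ℝ, ∀ A : Fin m → Fin R → ℝ,
    ∃ F : Finset ℝ, ∀ t : ℝ, t ∉ F → GP (fun i a => A i a + t * V i a) := by
  classical
  refine ⟨fun i b => ((i : ℕ) : ℝ) ^ (b : ℕ), fun A => ?_⟩
  choose F hF using gpd_one m R A
  refine ⟨Finset.univ.biUnion F, fun t ht K hK => ?_⟩
  refine hF K t (fun h => ht ?_) hK
  rw [Finset.mem_biUnion]
  exact ⟨K, Finset.mem_univ _, h⟩

end Pool.MP_2cf74a
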