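import Pool.Agent.Lib.MP_2cf74a_ag.TR.QBase

/-!
ROW QBas (about 120 lines).  PROOF IN WORDS.
Let w i = (X i 6, X i 0, X i 1) in R^3 for i = 2,3,4,5; any three of them are linearly independent (GP for the four vectors
indexed by Fin 4, i.succ.succ).  V1 = {u : u 0 = 0, sum u i X i 6 = 0, sum_(i != 0) u i X i 0 = 0} has dimension 3 (the functionals
e_0, X_6, X_0 are independent, already on the coordinates 2..5 for the last two), V2 = {v : v 1 = 0, sum v i X i 6 = 0,
sum_(i != 1) v i X i 1 = 0} has dimension 3, V1 inter V2 is one dimensional: e_0, e_1, X_6, X_0, X_1 are independent functionals; q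
spans it; q i != 0 for i = 2..5 since otherwise three of the w would be dependent.  Take bases of V1 and V2
beginning with q; then q, x0, x1, y0, y1 is independent (dimension of V1 + V2 = 3 + 3 - 1 = 5).  EXPLICIT alternative: let
q = the four signed 3 x 3 minors in the coordinates 2..5.  x0 = (0, 1, *, *, *, 0)-type and x1 = (0, 0, *,*,*,0)-type vectors: pairs of
equations (X_6 and X_0) can be solved in the coordinates 2, 3 (any two vectors of the first two coordinates
(X i 6, X i 0)... if that 2 x 2 minor is 0 use the dimension argument instead).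
-/

open Finset

namespace Pool.MP_2cf74a

private theorem qb_zero {W : Fin 4 → Fin 3 → ℝ} (h : GP W) {p : Fin 4 → ℝ}
    (hp : ∑ i, p i • W i = 0) {j : Fin 4} (hj : p j = 0) : p = 0 := by
  have h1 := h (univ.erase j) (by rw [card_erase_of_mem (mem_univ j)]; simp)
  have h2 := Fintype.linearIndependent_iff.1 h1 (fun i => p i) (by
    rw [Finset.sum_coe_sort (univ.erase j) (fun i => p i • W i)]
    have h3 := Finset.add_sum_erase univ (fun i => p i • W i) (mem_univ j)
    rw [hp] at h3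
    rw [← h3]
    beta_reduce
    rw [hj, zero_smul, zero_add])
  funext i
  by_cases hij : i = j
  · rw [hij, hj]
    rfl
  · exact h2 ⟨i, mem_erase.2 ⟨hij, mem_univ i⟩⟩

private theorem qb_rel {W : Fin 4 → Fin 3 → ℝ} (h : GP W) : ∃ p : Fin 4 → ℝ, (∀ i, p i ≠ 0) ∧
    ∑ i, p i • W i = 0 ∧ ∀ p' : Fin 4 → ℝ, ∑ i, p' i • W i = 0 → ∃ c : ℝ, p' = c • p := by
  have h1 : ¬ LinearIndependent ℝ W := by
    intro h2
    have h3 := h2.fintype_card_le_finrank
    simp at h3
  obtain ⟨p, hp, i0, hi0⟩ := Fintype.not_linearIndependent_iff.1 h1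
  have hne : ∀ i, p i ≠ 0 := by
    intro i hi
    rw [qb_zero h hp hi] at hi0
    exact hi0 rfl
  refine ⟨p, hne, hp, fun p' hp' => ⟨p' 0 / p 0, ?_⟩⟩
  have h4 : p' - (p' 0 / p 0) • p = 0 := by
    refine qb_zero h (p := p' - (p' 0 / p 0) • p) ?_ (j := 0) ?_
    · have h5 : ∑ i, (p' - (p' 0 / p 0) • p) i • W i =
          ∑ i, p' i • W i - (p' 0 / p 0) • ∑ i, p i • W i := by
        rw [smul_sum, ← sum_sub_distrib]
        refine sum_congr rfl fun i _ => ?_
        simp only [Pi.sub_apply, Pi.smul_apply, smul_eq_mul, sub_smul, mul_smul]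
      rw [h5, hp, hp', smul_zero, sub_zero]
    · simp [hne 0]
  exact sub_eq_zero.1 h4

private theorem qb_ext (c : Fin 3 → Fin 6 → ℝ) {q : Fin 6 → ℝ} (hq : q ≠ 0)
    (hc : ∀ a, ∑ i, q i * c a i = 0) :
    ∃ x y : Fin 6 → ℝ, (∀ a, ∑ i, x i * c a i = 0) ∧ (∀ a, ∑ i, y i * c a i = 0) ∧
      ∀ r s t : ℝ, r • q + s • x + t • y = 0 → r = 0 ∧ s = 0 ∧ t = 0 := by
  let f : (Fin 6 → ℝ) →ₗ[ℝ] (Fin 3 → ℝ) :=
    { toFun := fun u a => ∑ i, u i * c a i
      map_add' := fun u v => by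
        funext a
        simp [add_mul, sum_add_distrib]
      map_smul' := fun r u => by
        funext a
        simp [mul_assoc, mul_sum] }
  have hf : ∀ u, u ∈ LinearMap.ker f → ∀ a, ∑ i, u i * c a i = 0 := fun u hu a =>
    congrFun (LinearMap.mem_ker.1 hu) a
  have hfr : 3 ≤ Module.finrank ℝ (LinearMap.ker f) := by
    have h1 := LinearMap.finrank_range_add_finrank_ker f
    have h2 := (LinearMap.range f).finrank_le
    rw [Module.finrank_fin_fun] at h1 h2
    omega
  have hqk : q ∈ LinearMap.ker f := by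
    rw [LinearMap.mem_ker]
    funext a
    exact hc a
  have l1 : LinearIndependent ℝ ![(⟨q, hqk⟩ : LinearMap.ker f)] := by
    refine linearIndependent_unique_iff.2 ?_
    intro h1
    apply hq
    exact congrArg Subtype.val h1
  obtain ⟨x, hx⟩ := exists_linearIndependent_cons_of_lt_finrank l1 (by omega)
  obtain ⟨y, hy⟩ := exists_linearIndependent_cons_of_lt_finrank hx (by omega)
  refine ⟨x, y, hf x x.2, hf y y.2, fun r s t h => ?_⟩
  have h1 := Fintype.linearIndependent_iff.1 hy ![t, s, r] (by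
    rw [Fin.sum_univ_three]
    change t • y + s • x + r • (⟨q, hqk⟩ : LinearMap.ker f) = 0
    apply Subtype.ext
    change t • (y : Fin 6 → ℝ) + s • (x : Fin 6 → ℝ) + r • q = 0
    rw [← h]
    abel)
  exact ⟨h1 2, h1 1, h1 0⟩

private theorem qb_six (f : Fin 6 → ℝ) : ∑ i, f i = f 0 + (f 1 + ∑ i : Fin 4, f i.succ.succ) := by
  rw [Fin.sum_univ_succ, Fin.sum_univ_succ]
  rfl

private theorem qb_er (w f : Fin 6 → ℝ) (j : Fin 6) (h0 : w j = 0) (h : ∑ i, w i * f i = 0) :
    ∑ i ∈ univ.erase j, w i * f i = 0 := by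
  have h3 := Finset.add_sum_erase univ (fun i => w i * f i) (mem_univ j)
  rw [h] at h3
  beta_reduce at h3
  rw [h0, zero_mul, zero_add] at h3
  exact h3

/-- Existence of an adapted basis for data in general position. -/
theorem exists_adapted (X : Fin 6 → Fin 7 → ℝ)
    (h : GP (fun (i : Fin 4) (a : Fin 3) => ![X i.succ.succ 6, X i.succ.succ 0, X i.succ.succ 1] a)) :
    ∃ q x₀ x₁ y₀ y₁ : Fin 6 → ℝ, Adapted X q x₀ x₁ y₀ y₁ := by
  obtain ⟨p, hpne, hp, hpu⟩ := qb_rel h
  obtain ⟨q, hq0, hq1, hqs⟩ : ∃ q : Fin 6 → ℝ, q 0 = 0 ∧ q 1 = 0 ∧ ∀ i : Fin 4, q i.succ.succ = p i :=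
    ⟨Fin.cons 0 (Fin.cons 0 p), rfl, rfl, fun i => rfl⟩
  have hp6 : ∑ i : Fin 4, p i * X i.succ.succ 6 = 0 := by
    have h1 := congrFun hp 0
    rw [Finset.sum_apply] at h1
    exact h1
  have hp0 : ∑ i : Fin 4, p i * X i.succ.succ 0 = 0 := by
    have h1 := congrFun hp 1
    rw [Finset.sum_apply] at h1
    exact h1
  have hp1 : ∑ i : Fin 4, p i * X i.succ.succ 1 = 0 := by
    have h1 := congrFun hp 2
    rw [Finset.sum_apply] at h1
    exact h1
  have q6 : ∑ i, q i * X i 6 = 0 := by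
    rw [qb_six, hq0, hq1]
    simp only [hqs]
    rw [hp6]
    ring
  have q0 : ∑ i, q i * X i 0 = 0 := by
    rw [qb_six, hq0, hq1]
    simp only [hqs]
    rw [hp0]
    ring
  have q1 : ∑ i, q i * X i 1 = 0 := by
    rw [qb_six, hq0, hq1]
    simp only [hqs]
    rw [hp1]
    ring
  have hqne : q ≠ 0 := by
    intro h1
    have h2 := hqs 0
    rw [h1] at h2
    exact hpne 0 h2.symm
  -- the intersection
  have hint : ∀ u : Fin 6 → ℝ, u 0 = 0 → u 1 = 0 → ∑ i, u i * X i 6 = 0 → ∑ i, u i * X i 0 = 0 →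
      ∑ i, u i * X i 1 = 0 → ∃ c : ℝ, u = c • q := by
    intro u u0 u1 h6 h0 h1
    rw [qb_six, u0, u1] at h6 h0 h1
    obtain ⟨c, hc⟩ := hpu (fun i => u i.succ.succ) (by
      funext a
      rw [Finset.sum_apply]
      fin_cases a
      · change ∑ i : Fin 4, u i.succ.succ * X i.succ.succ 6 = 0
        linarith
      · change ∑ i : Fin 4, u i.succ.succ * X i.succ.succ 0 = 0
        linarith
      · change ∑ i : Fin 4, u i.succ.succ * X i.succ.succ 1 = 0
        linarith)
    refine ⟨c, ?_⟩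
    have h2 : ∀ i : Fin 4, u i.succ.succ = c * q i.succ.succ := by
      intro i
      rw [hqs]
      exact congrFun hc i
    funext i
    change u i = c * q i
    refine Fin.cases ?_ (fun i => Fin.cases ?_ (fun i => ?_) i) i
    · rw [u0, hq0, mul_zero]
    · change u 1 = c * q 1
      rw [u1, hq1, mul_zero]
    · exact h2 i
  obtain ⟨x₀, x₁, hx0, hx1, hx⟩ := qb_ext ![Pi.single 0 1, fun i => X i 6, fun i => X i 0] hqne (by
    intro a
    fin_cases a
    · change ∑ i, q i * (Pi.single 0 1 : Fin 6 → ℝ) i = 0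
      simp [Pi.single_apply, hq0]
    · exact q6
    · exact q0)
  obtain ⟨y₀, y₁, hy0, hy1, hy⟩ := qb_ext ![Pi.single 1 1, fun i => X i 6, fun i => X i 1] hqne (by
    intro a
    fin_cases a
    · change ∑ i, q i * (Pi.single 1 1 : Fin 6 → ℝ) i = 0
      simp [Pi.single_apply, hq1]
    · exact q6
    · exact q1)
  have hsl : ∀ (j : Fin 6) (w : Fin 6 → ℝ), ∑ i, w i * (Pi.single j 1 : Fin 6 → ℝ) i = 0 → w j = 0 := by
    intro j w hw
    simpa [Pi.single_apply] using hw
  have hx00 : x₀ 0 = 0 := hsl 0 x₀ (hx0 0)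
  have hx10 : x₁ 0 = 0 := hsl 0 x₁ (hx1 0)
  have hy01 : y₀ 1 = 0 := hsl 1 y₀ (hy0 0)
  have hy11 : y₁ 1 = 0 := hsl 1 y₁ (hy1 0)
  have hx06 : ∑ i, x₀ i * X i 6 = 0 := hx0 1
  have hx16 : ∑ i, x₁ i * X i 6 = 0 := hx1 1
  have hy06 : ∑ i, y₀ i * X i 6 = 0 := hy0 1
  have hy16 : ∑ i, y₁ i * X i 6 = 0 := hy1 1
  have hx0c : ∑ i, x₀ i * X i 0 = 0 := hx0 2
  have hx1c : ∑ i, x₁ i * X i 0 = 0 := hx1 2
  have hy0c : ∑ i, y₀ i * X i 1 = 0 := hy0 2
  have hy1c : ∑ i, y₁ i * X i 1 = 0 := hy1 2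
  refine ⟨q, x₀, x₁, y₀, y₁, ?_, hq0, hq1, ?_, ?_, ?_, ?_⟩
  · rw [Fintype.linearIndependent_iff]
    intro g hg
    rw [Fin.sum_univ_five] at hg
    change g 0 • q + g 1 • x₀ + g 2 • x₁ + g 3 • y₀ + g 4 • y₁ = 0 at hg
    have e : ∀ i, g 3 * y₀ i + g 4 * y₁ i = -(g 0 * q i + g 1 * x₀ i + g 2 * x₁ i) := by
      intro i
      have h1 := congrFun hg i
      simp only [Pi.add_apply, Pi.smul_apply, smul_eq_mul, Pi.zero_apply] at h1
      linarith
    have hlin : ∀ (a b : ℝ) (v w : Fin 6 → ℝ) (f : Fin 6 → ℝ), ∑ i, v i * f i = 0 →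
        ∑ i, w i * f i = 0 → ∑ i, (a * v i + b * w i) * f i = 0 := by
      intro a b v w f hv hw
      have h1 : ∑ i, (a * v i + b * w i) * f i = a * ∑ i, v i * f i + b * ∑ i, w i * f i := by
        rw [mul_sum, mul_sum, ← sum_add_distrib]
        exact sum_congr rfl fun i _ => by ring
      rw [h1, hv, hw]
      ring
    have hlin3 : ∀ (a b c : ℝ) (v w z : Fin 6 → ℝ) (f : Fin 6 → ℝ), ∑ i, v i * f i = 0 →
        ∑ i, w i * f i = 0 → ∑ i, z i * f i = 0 →
        ∑ i, (-(a * v i + b * w i + c * z i)) * f i = 0 := by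
      intro a b c v w z f hv hw hz
      have h1 : ∑ i, (-(a * v i + b * w i + c * z i)) * f i =
          -(a * ∑ i, v i * f i + b * ∑ i, w i * f i + c * ∑ i, z i * f i) := by
        rw [mul_sum, mul_sum, mul_sum, ← sum_add_distrib, ← sum_add_distrib, ← sum_neg_distrib]
        exact sum_congr rfl fun i _ => by ring
      rw [h1, hv, hw, hz]
      ring
    obtain ⟨c, hc⟩ := hint (fun i => g 3 * y₀ i + g 4 * y₁ i)
      (by beta_reduce; rw [e, hq0, hx00, hx10]; ring)
      (by beta_reduce; rw [hy01, hy11]; ring)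
      (hlin _ _ _ _ _ hy06 hy16)
      (by
        simp only [e]
        exact hlin3 _ _ _ _ _ _ _ q0 hx0c hx1c)
      (hlin _ _ _ _ _ hy0c hy1c)
    have h2 := hy (-c) (g 3) (g 4) (by
      funext i
      have h3 := congrFun hc i
      simp only [Pi.smul_apply, smul_eq_mul] at h3
      simp only [Pi.add_apply, Pi.smul_apply, smul_eq_mul, Pi.zero_apply]
      linarith)
    have h4 := hx (g 0) (g 1) (g 2) (by
      funext i
      have h3 := e i
      rw [h2.2.1, h2.2.2] at h3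
      simp only [Pi.add_apply, Pi.smul_apply, smul_eq_mul, Pi.zero_apply]
      linarith)
    intro i
    fin_cases i
    · exact h4.1
    · exact h4.2.1
    · exact h4.2.2
    · exact h2.2.1
    · exact h2.2.2
  · intro i h0 h1
    obtain ⟨j, rfl⟩ := Fin.exists_succ_eq.2 h0
    have h2 : j ≠ 0 := by
      rintro rfl
      exact h1 rfl
    obtain ⟨k, rfl⟩ := Fin.exists_succ_eq.2 h2
    rw [hqs]
    exact hpne k
  · intro w hw
    simp only [Set.mem_insert_iff, Set.mem_singleton_iff] at hw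
    rcases hw with rfl | rfl | rfl | rfl | rfl
    · exact q6
    · exact hx06
    · exact hx16
    · exact hy06
    · exact hy16
  · intro w hw
    simp only [Set.mem_insert_iff, Set.mem_singleton_iff] at hw
    rcases hw with rfl | rfl | rfl
    · exact ⟨hq0, qb_er _ _ _ hq0 q0⟩
    · exact ⟨hx00, qb_er _ _ _ hx00 hx0c⟩
    · exact ⟨hx10, qb_er _ _ _ hx10 hx1c⟩
  · intro w hw
    simp only [Set.mem_insert_iff, Set.mem_singleton_iff] at hw
    rcases hw with rfl | rfl | rfl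
    · exact ⟨hq1, qb_er _ _ _ hq1 q1⟩
    · exact ⟨hy01, qb_er _ _ _ hy01 hy0c⟩
    · exact ⟨hy11, qb_er _ _ _ hy11 hy1c⟩

end Pool.MP_2cf74a
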