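import Pool.Agent.Lib.MP_2cf74a_ag.TR.Base

/-!
Common definitions for the two dimensional kernels of a 6 x 7 pattern.
-/

open Finset

namespace Pool.MP_2cf74a

/-- The alternating form attached to column `L`: the unspecified entry of that column is in row `L`. -/
def om (X : Fin 6 → Fin 7 → ℝ) (L : Fin 6) (u v : Fin 6 → ℝ) : ℝ :=
  u L * ∑ i ∈ univ.erase L, v i * X i L.castSucc - v L * ∑ i ∈ univ.erase L, u i * X i L.castSucc

/-- Two independent vectors which annihilate the last column and are isotropic for the six forms. -/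
def Iso (X : Fin 6 → Fin 7 → ℝ) : Prop :=
  ∃ u v : Fin 6 → ℝ, (∃ i₁ i₂, u i₁ * v i₂ - u i₂ * v i₁ ≠ 0) ∧
    ∑ i, u i * X i 6 = 0 ∧ ∑ i, v i * X i 6 = 0 ∧ ∀ L, om X L u v = 0

/-- An adapted basis: `q` in both spaces, `x₀, x₁` in the first, `y₀, y₁` in the second. -/
structure Adapted (X : Fin 6 → Fin 7 → ℝ) (q x₀ x₁ y₀ y₁ : Fin 6 → ℝ) : Prop where
  indep : LinearIndependent ℝ ![q, x₀, x₁, y₀, y₁]
  q0 : q 0 = 0
  q1 : q 1 = 0
  qne : ∀ i, i ≠ 0 → i ≠ 1 → q i ≠ 0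
  last : ∀ w ∈ ({q, x₀, x₁, y₀, y₁} : Set (Fin 6 → ℝ)), ∑ i, w i * X i 6 = 0
  left : ∀ w ∈ ({q, x₀, x₁} : Set (Fin 6 → ℝ)),
    w 0 = 0 ∧ ∑ i ∈ univ.erase 0, w i * X i 0 = 0
  right : ∀ w ∈ ({q, y₀, y₁} : Set (Fin 6 → ℝ)),
    w 1 = 0 ∧ ∑ i ∈ univ.erase 1, w i * X i 1 = 0

end Pool.MP_2cf74a
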