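import Pool.Agent.Lib.MP_2cf74a_ag.TR.QBase

/-!
ROW QDir (about 100 lines).  PROOF IN WORDS.
Adapted X only involves the columns 0, 1, 6 of X.  Fix l in Fin 4, L = l.succ.succ in Fin 6.  The four numbers
om X L x0 q, om X L x1 q, om X L q y0, om X L q y1 are linear in column L of X (rows other than L), so they define a linear map
Phi : (Fin 6 -> R) -> (Fin 4 -> R) (column |-> four numbers).  It is SURJECTIVE: a functional (a,b,c,d) vanishing on its range gives
a om(x0,q) + b om(x1,q) + c om(q,y0) + d om(q,y1) = om(w,q) with w = a x0 + b x1 - c y0 - d y1, and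
om(w,q) = sum over i != L of (w L q i - q L w i) * (column i) vanishes identically, so w i = (w L / q L) q i for all i (q L != 0 by
qne), i.e. w is a multiple of q, so a = b = c = d = 0 by independence.  So there are columns with prescribed four numbers:
choose them for every l to be the l-th standard basis vector; put 0 in the columns 0, 1, 6.
-/

open Finset

namespace Pool.MP_2cf74a

private theorem qdir_om (X : Fin 6 → Fin 7 → ℝ) (L : Fin 6) (u v : Fin 6 → ℝ) :
    om X L u v = ∑ i, (u L * v i - v L * u i) * X i L.castSucc := by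
  have h0 : (u L * v L - v L * u L) * X L L.castSucc = 0 := by ring
  rw [← Finset.sum_erase (s := univ) (f := fun i => (u L * v i - v L * u i) * X i L.castSucc) h0]
  unfold om
  rw [mul_sum, mul_sum, ← sum_sub_distrib]
  exact sum_congr rfl fun i _ => by ring

/-- the rows of coefficients -/
private def qdirG (q x₀ x₁ y₀ y₁ : Fin 6 → ℝ) (L : Fin 6) : Matrix (Fin 4) (Fin 6) ℝ :=
  ![fun i => x₀ L * q i - q L * x₀ i, fun i => x₁ L * q i - q L * x₁ i,
    fun i => q L * y₀ i - y₀ L * q i, fun i => q L * y₁ i - y₁ L * q i]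

private theorem qdir_li {q x₀ x₁ y₀ y₁ : Fin 6 → ℝ} (h : LinearIndependent ℝ ![q, x₀, x₁, y₀, y₁])
    (L : Fin 6) (hq : q L ≠ 0) : LinearIndependent ℝ (qdirG q x₀ x₁ y₀ y₁ L).row := by
  rw [Fintype.linearIndependent_iff]
  intro g hg
  have h5 := Fintype.linearIndependent_iff.1 h
    ![g 0 * x₀ L + g 1 * x₁ L - g 2 * y₀ L - g 3 * y₁ L, - (g 0 * q L), - (g 1 * q L), g 2 * q L, g 3 * q L]
    (by
      funext i
      have hi := congrFun hg i
      simp only [Fin.sum_univ_succ, Fin.sum_univ_zero, Pi.add_apply, Pi.smul_apply, Pi.zero_apply, smul_eq_mul,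
        Matrix.row, qdirG, Matrix.cons_val_zero, Matrix.cons_val_succ, Fin.succ_zero_eq_one, Fin.succ_one_eq_two,
        add_zero] at hi ⊢
      have e2 : (Fin.succ 2 : Fin 4) = 3 := rfl
      rw [e2] at hi
      linear_combination hi)
  have a0 := h5 1
  have a1 := h5 2
  have a2 := h5 3
  have a3 := h5 4
  simp only [Matrix.cons_val, neg_eq_zero, mul_eq_zero] at a0 a1 a2 a3
  intro i
  fin_cases i
  · exact a0.resolve_right hq
  · exact a1.resolve_right hq
  · exact a2.resolve_right hq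
  · exact a3.resolve_right hq

private theorem qdir_surj {q x₀ x₁ y₀ y₁ : Fin 6 → ℝ} (h : LinearIndependent ℝ ![q, x₀, x₁, y₀, y₁])
    (L : Fin 6) (hq : q L ≠ 0) (t : Fin 4 → ℝ) :
    ∃ c : Fin 6 → ℝ, ∀ a, ∑ i, qdirG q x₀ x₁ y₀ y₁ L a i * c i = t a := by
  have h1 := (qdir_li h L hq).rank_matrix
  have h2 : LinearMap.range (qdirG q x₀ x₁ y₀ y₁ L).mulVecLin = ⊤ := by
    apply Submodule.eq_top_of_finrank_eq
    rw [Matrix.rank] at h1
    rw [h1]
    simp
  obtain ⟨c, hc⟩ := LinearMap.range_eq_top.1 h2 t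
  exact ⟨c, fun a => congrFun hc a⟩

/-- A direction of change of the columns 2, .., 5 along which the 4 x 4 matrix of forms is the
identity. -/
theorem exists_dir {X : Fin 6 → Fin 7 → ℝ} {q x₀ x₁ y₀ y₁ : Fin 6 → ℝ}
    (h : Adapted X q x₀ x₁ y₀ y₁) :
    ∃ Z : Fin 6 → Fin 7 → ℝ, (∀ i, Z i 0 = 0 ∧ Z i 1 = 0 ∧ Z i 6 = 0) ∧
      ∀ l : Fin 4, (fun a => ![om Z l.succ.succ x₀ q, om Z l.succ.succ x₁ q,
        om Z l.succ.succ q y₀, om Z l.succ.succ q y₁] a) = Pi.single l (1 : ℝ) := by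
  have hq : ∀ l : Fin 4, q l.succ.succ ≠ 0 := by
    intro l
    apply h.qne
    · exact Fin.succ_ne_zero _
    · fin_cases l <;> decide
  choose c hc using fun l : Fin 4 => qdir_surj h.indep l.succ.succ (hq l) (Pi.single l (1 : ℝ))
  refine ⟨fun i j => ![0, 0, c 0 i, c 1 i, c 2 i, c 3 i, 0] j, fun i => ⟨rfl, rfl, rfl⟩, ?_⟩
  intro l
  have hZ : ∀ i : Fin 6, ![0, 0, c 0 i, c 1 i, c 2 i, c 3 i, 0] ((l.succ.succ : Fin 6).castSucc) = c l i := by
    intro i
    fin_cases l <;> rfl
  funext a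
  rw [← hc l a]
  simp only [qdir_om, hZ]
  fin_cases a
  · rfl
  · rfl
  · rfl
  · rfl

end Pool.MP_2cf74a
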