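import Pool.Agent.Lib.MP_2cf74a_ag.TR.Base

/-!
ROW QPar (about 90 lines).  PROOF IN WORDS (the parity argument; only the intermediate value theorem).
Write a(x,y) and c(x,y) for the two bilinear maps.  f(x,y) = x 0 * a 1 (x,y) - x 1 * a 0 (x,y) = sum_j y j * p j (x) with p j (x)
quadratic in x; g(x,y) = y 0 * c 1 (x,y) - y 1 * c 0 (x,y) = sum_i x i * r i (y), r i (y) quadratic in y.  For x != 0, f(x,y) = 0 means
a(x,y) is a multiple of x (t = a 0 / x 0 or a 1 / x 1), the same for g.  So it is enough to find x, y != 0 with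
f(x,y) = g(x,y) = 0.
Case A: p(x) != 0 for all x != 0.  Put y(x) = (- p 1 (x), p 0 (x)) != 0, then f(x,y(x)) = 0 and
G(x) = g(x,y(x)) is continuous with G(-x) = - G(x) (y(-x) = y(x)); on the half circle x = (cos th, sin th), th in [0,pi], it has
a zero by the intermediate value theorem (intermediate_value_uIcc or mem_range_of_exists...).
Case B: p(x0) = 0 for some x0 != 0.  If g(x0,y) = 0 for some y != 0 take (x0,y).  Otherwise r(y) != 0 for all y != 0
(g(x0,y) = x0 . r(y)), and case A works with the two roles exchanged: x(y) = (- r 1 (y), r 0 (y)), F(y) = f(x(y),y),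
F(-y) = - F(y).
-/

open Finset

namespace Pool.MP_2cf74a

private theorem qp_half (p r : ℝ × ℝ → ℝ × ℝ) (hp : Continuous p) (hr : Continuous r)
    (pe : ∀ x, p (-x) = p x) (hne : ∀ x, x ≠ 0 → p x ≠ 0) :
    ∃ x y : ℝ × ℝ, x ≠ 0 ∧ y ≠ 0 ∧ y.1 * (p x).1 + y.2 * (p x).2 = 0 ∧
      x.1 * (r y).1 + x.2 * (r y).2 = 0 := by
  let X : ℝ → ℝ × ℝ := fun t => (Real.cos t, Real.sin t)
  let Y : ℝ × ℝ → ℝ × ℝ := fun x => (-(p x).2, (p x).1)
  let G : ℝ → ℝ := fun t => (X t).1 * (r (Y (X t))).1 + (X t).2 * (r (Y (X t))).2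
  have hX : Continuous X := Real.continuous_cos.prodMk Real.continuous_sin
  have hY : Continuous Y := (hp.snd.neg).prodMk hp.fst
  have hG : Continuous G := by
    have h1 : Continuous fun t => r (Y (X t)) := hr.comp (hY.comp hX)
    exact (hX.fst.mul h1.fst).add (hX.snd.mul h1.snd)
  have hX0 : X 0 = (1, 0) := by simp [X]
  have hXp : X Real.pi = -(1, 0) := by simp [X]
  have hYe : Y (-(1, 0)) = Y (1, 0) := by simp only [Y, pe]
  have hGp : G Real.pi = - G 0 := by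
    simp only [G]
    rw [hXp, hX0, hYe]
    simp
  have h0 : (0 : ℝ) ∈ Set.uIcc (G 0) (G Real.pi) := by
    rw [hGp, Set.mem_uIcc]
    rcases le_total (G 0) 0 with h | h
    · left
      exact ⟨h, by linarith⟩
    · right
      exact ⟨by linarith, h⟩
  obtain ⟨t, -, ht⟩ := intermediate_value_uIcc hG.continuousOn h0
  have hx : X t ≠ 0 := by
    intro h
    have h1 : Real.cos t = 0 := congrArg Prod.fst h
    have h2 : Real.sin t = 0 := congrArg Prod.snd h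
    have h3 := Real.sin_sq_add_cos_sq t
    rw [h1, h2] at h3
    norm_num at h3
  refine ⟨X t, Y (X t), hx, ?_, ?_, ht⟩
  · intro h
    apply hne _ hx
    have h1 : -(p (X t)).2 = 0 := congrArg Prod.fst h
    have h2 : (p (X t)).1 = 0 := congrArg Prod.snd h
    exact Prod.ext h2 (neg_eq_zero.1 h1)
  · simp only [Y]
    ring

private theorem qp_core (p r : ℝ × ℝ → ℝ × ℝ) (hp : Continuous p) (hr : Continuous r)
    (pe : ∀ x, p (-x) = p x) (re : ∀ x, r (-x) = r x) :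
    ∃ x y : ℝ × ℝ, x ≠ 0 ∧ y ≠ 0 ∧ y.1 * (p x).1 + y.2 * (p x).2 = 0 ∧
      x.1 * (r y).1 + x.2 * (r y).2 = 0 := by
  by_cases hne : ∀ x, x ≠ 0 → p x ≠ 0
  · exact qp_half p r hp hr pe hne
  · push Not at hne
    obtain ⟨x, hx, hpx⟩ := hne
    by_cases hy : ∃ y : ℝ × ℝ, y ≠ 0 ∧ x.1 * (r y).1 + x.2 * (r y).2 = 0
    · obtain ⟨y, hy, h⟩ := hy
      exact ⟨x, y, hx, hy, by simp [hpx], h⟩
    · push Not at hy
      have hr0 : ∀ y, y ≠ 0 → r y ≠ 0 := by
        intro y hy0 h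
        apply hy y hy0
        simp [h]
      obtain ⟨y, x', hy0, hx', h1, h2⟩ := qp_half r p hr hp re hr0
      exact ⟨x', y, hx', hy0, h2, h1⟩

private theorem qp_par (u v a b : ℝ) (h : (u, v) ≠ (0 : ℝ × ℝ)) (e : u * b = v * a) :
    ∃ t : ℝ, a = t * u ∧ b = t * v := by
  by_cases hu : u = 0
  · have hv : v ≠ 0 := by
      intro hv
      exact h (by rw [hu, hv]; rfl)
    refine ⟨b / v, ?_, by field_simp⟩
    rw [hu] at e ⊢
    have h1 : v * a = 0 := by linarith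
    rcases mul_eq_zero.1 h1 with h2 | h2
    · exact absurd h2 hv
    · rw [h2]; ring
  · refine ⟨a / u, by field_simp, ?_⟩
    field_simp
    linarith

/-- Two bilinear products on the plane: `a(x,y)` parallel to `x` and `c(x,y)` parallel to `y`. -/
theorem exists_parallel (a c : Fin 2 → Fin 2 → Fin 2 → ℝ) :
    ∃ x y : Fin 2 → ℝ, x ≠ 0 ∧ y ≠ 0 ∧
      (∃ t : ℝ, ∀ k, ∑ i, ∑ j, a k i j * x i * y j = t * x k) ∧
      (∃ s : ℝ, ∀ k, ∑ i, ∑ j, c k i j * x i * y j = s * y k) := by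
  let p : ℝ × ℝ → ℝ × ℝ := fun x =>
    (x.1 * (a 1 0 0 * x.1 + a 1 1 0 * x.2) - x.2 * (a 0 0 0 * x.1 + a 0 1 0 * x.2),
      x.1 * (a 1 0 1 * x.1 + a 1 1 1 * x.2) - x.2 * (a 0 0 1 * x.1 + a 0 1 1 * x.2))
  let r : ℝ × ℝ → ℝ × ℝ := fun y =>
    (y.1 * (c 1 0 0 * y.1 + c 1 0 1 * y.2) - y.2 * (c 0 0 0 * y.1 + c 0 0 1 * y.2),
      y.1 * (c 1 1 0 * y.1 + c 1 1 1 * y.2) - y.2 * (c 0 1 0 * y.1 + c 0 1 1 * y.2))
  obtain ⟨x, y, hx, hy, h1, h2⟩ := qp_core p r (by fun_prop) (by fun_prop)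
    (fun x => by simp only [p, Prod.fst_neg, Prod.snd_neg]; ext <;> simp only <;> ring)
    (fun x => by simp only [r, Prod.fst_neg, Prod.snd_neg]; ext <;> simp only <;> ring)
  simp only [p] at h1
  simp only [r] at h2
  obtain ⟨t, t1, t2⟩ := qp_par x.1 x.2
    (a 0 0 0 * x.1 * y.1 + a 0 0 1 * x.1 * y.2 + (a 0 1 0 * x.2 * y.1 + a 0 1 1 * x.2 * y.2))
    (a 1 0 0 * x.1 * y.1 + a 1 0 1 * x.1 * y.2 + (a 1 1 0 * x.2 * y.1 + a 1 1 1 * x.2 * y.2))
    hx (by linarith)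
  obtain ⟨s, s1, s2⟩ := qp_par y.1 y.2
    (c 0 0 0 * x.1 * y.1 + c 0 0 1 * x.1 * y.2 + (c 0 1 0 * x.2 * y.1 + c 0 1 1 * x.2 * y.2))
    (c 1 0 0 * x.1 * y.1 + c 1 0 1 * x.1 * y.2 + (c 1 1 0 * x.2 * y.1 + c 1 1 1 * x.2 * y.2))
    hy (by linarith)
  refine ⟨![x.1, x.2], ![y.1, y.2], ?_, ?_, ⟨t, fun k => ?_⟩, ⟨s, fun k => ?_⟩⟩
  · intro h
    exact hx (Prod.ext (by simpa using congrFun h 0) (by simpa using congrFun h 1))
  · intro h
    exact hy (Prod.ext (by simpa using congrFun h 0) (by simpa using congrFun h 1))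
  · fin_cases k
    · simpa [Fin.sum_univ_two] using t1
    · simpa [Fin.sum_univ_two] using t2
  · fin_cases k
    · simpa [Fin.sum_univ_two] using s1
    · simpa [Fin.sum_univ_two] using s2

end Pool.MP_2cf74a
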