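import Pool.Agent.Lib.MP_2cf74a_ag.TR.QBase
import Pool.Agent.Lib.MP_2cf74a_ag.TR.QPar

/-!
ROW QSol (about 110 lines).  PROOF IN WORDS.
Let N l a be the 4 x 4 matrix (l row).  For x, y in R^2 put xx = x 0 x0 + x 1 x1, yy = y 0 y0 + y 1 y1, b l (x,y) = om X (l+2) xx yy,
bilinear in x, y: b l (x,y) = sum_ij x i y j om X (l+2) (x_i) (y_j).  As N is invertible write b(x,y) = N (al(x,y) ; ga(x,y)) with al, ga
bilinear (Matrix inverse times the tensor).  exists_parallel gives x, y != 0, t, s with al = t x, ga = s y.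
u = xx - s q, v = yy - t q.  For L = l+2: om X L u v = b l - t om X L xx q - s om X L q yy = (N (al - t x ; ga - s y)) l = 0
(om is bilinear and alternating in u, v; om X L xx q = sum x i N l i, om X L q yy = sum y j N l (2+j)).  For L = 0:
u 0 = 0 and the second sum vanishes (left); for L = 1: v 1 = 0 and right.  The last column: last.  u, v are
linearly independent (x, y != 0 and indep), hence some 2 x 2 minor is not 0 (if all minors vanish and
u i1 != 0 then v = (v i1 / u i1) u).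
-/

open Finset

namespace Pool.MP_2cf74a

private theorem qs_sum (f : Fin 6 → ℝ) (S : Finset (Fin 6)) (a b c : ℝ) (x y z : Fin 6 → ℝ) :
    ∑ i ∈ S, (a * x i + b * y i + c * z i) * f i =
      a * ∑ i ∈ S, x i * f i + b * ∑ i ∈ S, y i * f i + c * ∑ i ∈ S, z i * f i := by
  rw [mul_sum, mul_sum, mul_sum, ← sum_add_distrib, ← sum_add_distrib]
  exact sum_congr rfl fun i _ => by ring

/-- An isotropic pair from an adapted basis with invertible matrix of forms. -/
theorem iso_of_adapted {X : Fin 6 → Fin 7 → ℝ} {q x₀ x₁ y₀ y₁ : Fin 6 → ℝ}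
    (h : Adapted X q x₀ x₁ y₀ y₁)
    (hN : (Matrix.of fun (l : Fin 4) (a : Fin 4) => ![om X l.succ.succ x₀ q, om X l.succ.succ x₁ q,
        om X l.succ.succ q y₀, om X l.succ.succ q y₁] a).det ≠ 0) : Iso X := by
  obtain ⟨N, hNd⟩ : ∃ N : Matrix (Fin 4) (Fin 4) ℝ,
    N = Matrix.of fun (l : Fin 4) (a : Fin 4) => ![om X l.succ.succ x₀ q, om X l.succ.succ x₁ q,
        om X l.succ.succ q y₀, om X l.succ.succ q y₁] a := ⟨_, rfl⟩
  rw [← hNd] at hN
  have hu : IsUnit N.det := isUnit_iff_ne_zero.2 hN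
  obtain ⟨c, hc⟩ : ∃ c : Fin 2 → Fin 2 → Fin 4 → ℝ, ∀ i j, N.mulVec (c i j) =
      fun l : Fin 4 => om X l.succ.succ (![x₀, x₁] i) (![y₀, y₁] j) := by
    refine ⟨fun i j => N⁻¹.mulVec fun l : Fin 4 => om X l.succ.succ (![x₀, x₁] i) (![y₀, y₁] j),
      fun i j => ?_⟩
    rw [Matrix.mulVec_mulVec, Matrix.mul_nonsing_inv _ hu, Matrix.one_mulVec]
  obtain ⟨x, y, hx, hy, ⟨t, ht⟩, ⟨s, hs⟩⟩ := exists_parallel
    (fun k i j => c i j (Fin.castAdd 2 k)) (fun k i j => c i j (Fin.natAdd 2 k))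
  have hc' : ∀ i j l, N l 0 * c i j 0 + N l 1 * c i j 1 + N l 2 * c i j 2 + N l 3 * c i j 3 =
      om X l.succ.succ (![x₀, x₁] i) (![y₀, y₁] j) := by
    intro i j l
    have h1 := congrFun (hc i j) l
    rw [Matrix.mulVec, dotProduct, Fin.sum_univ_four] at h1
    exact h1
  have t0 := ht 0
  have t1 := ht 1
  have s0 := hs 0
  have s1 := hs 1
  simp only [Fin.sum_univ_two] at t0 t1 s0 s1
  change c 0 0 0 * x 0 * y 0 + c 0 1 0 * x 0 * y 1 + (c 1 0 0 * x 1 * y 0 + c 1 1 0 * x 1 * y 1) =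
    t * x 0 at t0
  change c 0 0 1 * x 0 * y 0 + c 0 1 1 * x 0 * y 1 + (c 1 0 1 * x 1 * y 0 + c 1 1 1 * x 1 * y 1) =
    t * x 1 at t1
  change c 0 0 2 * x 0 * y 0 + c 0 1 2 * x 0 * y 1 + (c 1 0 2 * x 1 * y 0 + c 1 1 2 * x 1 * y 1) =
    s * y 0 at s0
  change c 0 0 3 * x 0 * y 0 + c 0 1 3 * x 0 * y 1 + (c 1 0 3 * x 1 * y 0 + c 1 1 3 * x 1 * y 1) =
    s * y 1 at s1
  obtain ⟨u, hu'⟩ : ∃ u : Fin 6 → ℝ, ∀ i, u i = x 0 * x₀ i + x 1 * x₁ i + (-s) * q i := ⟨_, fun _ => rfl⟩
  obtain ⟨v, hv'⟩ : ∃ v : Fin 6 → ℝ, ∀ i, v i = y 0 * y₀ i + y 1 * y₁ i + (-t) * q i := ⟨_, fun _ => rfl⟩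
  have hsu : ∀ (S : Finset (Fin 6)) (f : Fin 6 → ℝ), ∑ i ∈ S, u i * f i =
      x 0 * ∑ i ∈ S, x₀ i * f i + x 1 * ∑ i ∈ S, x₁ i * f i + (-s) * ∑ i ∈ S, q i * f i := by
    intro S f
    rw [← qs_sum]
    exact sum_congr rfl fun i _ => by rw [hu']
  have hsv : ∀ (S : Finset (Fin 6)) (f : Fin 6 → ℝ), ∑ i ∈ S, v i * f i =
      y 0 * ∑ i ∈ S, y₀ i * f i + y 1 * ∑ i ∈ S, y₁ i * f i + (-t) * ∑ i ∈ S, q i * f i := by
    intro S f
    rw [← qs_sum]
    exact sum_congr rfl fun i _ => by rw [hv']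
  refine ⟨u, v, ?_, ?_, ?_, ?_⟩
  · -- independence
    by_contra hcon
    push Not at hcon
    have hli := Fintype.linearIndependent_iff.1 h.indep
    have hu0 : ∃ i, u i ≠ 0 := by
      by_contra h0
      push Not at h0
      have h1 := hli ![-s, x 0, x 1, 0, 0] (by
        funext i
        have h2 := h0 i
        rw [hu'] at h2
        simp only [Fin.sum_univ_five, Finset.sum_apply, Pi.smul_apply, smul_eq_mul]
        simp
        linarith)
      refine hx (funext fun i => ?_)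
      fin_cases i
      · exact h1 1
      · exact h1 2
    obtain ⟨i₁, hi₁⟩ := hu0
    have h1 := hli ![v i₁ * s - u i₁ * t, -(v i₁ * x 0), -(v i₁ * x 1), u i₁ * y 0, u i₁ * y 1] (by
      funext i
      have h2 := hcon i₁ i
      have h3 := hu' i
      have h4 := hv' i
      simp only [Fin.sum_univ_five, Finset.sum_apply, Pi.smul_apply, smul_eq_mul]
      simp
      have h5 : u i₁ * v i - v i₁ * u i = 0 := by linarith
      rw [h3, h4] at h5
      linarith)
    refine hy (funext fun i => ?_)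
    fin_cases i
    · exact (mul_eq_zero.1 (h1 3)).resolve_left hi₁
    · exact (mul_eq_zero.1 (h1 4)).resolve_left hi₁
  · rw [hsu, h.last q (by simp), h.last x₀ (by simp), h.last x₁ (by simp)]
    ring
  · rw [hsv, h.last q (by simp), h.last y₀ (by simp), h.last y₁ (by simp)]
    ring
  · intro L
    induction L using Fin.cases with
    | zero =>
      unfold om
      obtain ⟨a1, a2⟩ := h.left q (by simp)
      obtain ⟨b1, b2⟩ := h.left x₀ (by simp)
      obtain ⟨c1, c2⟩ := h.left x₁ (by simp)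
      have e1 : u 0 = 0 := by rw [hu', a1, b1, c1]; ring
      have e2 : ∑ i ∈ univ.erase (0 : Fin 6), u i * X i (Fin.castSucc (0 : Fin 6)) = 0 := by
        rw [hsu]
        have a3 : ∑ i ∈ univ.erase (0 : Fin 6), q i * X i (Fin.castSucc (0 : Fin 6)) = 0 := a2
        have b3 : ∑ i ∈ univ.erase (0 : Fin 6), x₀ i * X i (Fin.castSucc (0 : Fin 6)) = 0 := b2
        have c3 : ∑ i ∈ univ.erase (0 : Fin 6), x₁ i * X i (Fin.castSucc (0 : Fin 6)) = 0 := c2
        rw [a3, b3, c3]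
        ring
      rw [e1, e2]
      ring
    | succ L =>
      induction L using Fin.cases with
      | zero =>
        unfold om
        obtain ⟨a1, a2⟩ := h.right q (by simp)
        obtain ⟨b1, b2⟩ := h.right y₀ (by simp)
        obtain ⟨c1, c2⟩ := h.right y₁ (by simp)
        have e1 : v (Fin.succ 0) = 0 := by
          rw [hv']
          have a3 : q (Fin.succ 0) = 0 := a1
          have b3 : y₀ (Fin.succ 0) = 0 := b1
          have c3 : y₁ (Fin.succ 0) = 0 := c1
          rw [a3, b3, c3]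
          ring
        have e2 : ∑ i ∈ univ.erase (Fin.succ (0 : Fin 5)), v i * X i (Fin.castSucc (Fin.succ (0 : Fin 5))) = 0 := by
          rw [hsv]
          have a3 : ∑ i ∈ univ.erase (Fin.succ (0 : Fin 5)), q i * X i (Fin.castSucc (Fin.succ (0 : Fin 5))) = 0 := a2
          have b3 : ∑ i ∈ univ.erase (Fin.succ (0 : Fin 5)), y₀ i * X i (Fin.castSucc (Fin.succ (0 : Fin 5))) = 0 := b2
          have c3 : ∑ i ∈ univ.erase (Fin.succ (0 : Fin 5)), y₁ i * X i (Fin.castSucc (Fin.succ (0 : Fin 5))) = 0 := c2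
          rw [a3, b3, c3]
          ring
        rw [e1, e2]
        ring
      | succ l =>
        have k00 := hc' 0 0 l
        have k01 := hc' 0 1 l
        have k10 := hc' 1 0 l
        have k11 := hc' 1 1 l
        have n0 : N l 0 = om X l.succ.succ x₀ q := by rw [hNd]; rfl
        have n1 : N l 1 = om X l.succ.succ x₁ q := by rw [hNd]; rfl
        have n2 : N l 2 = om X l.succ.succ q y₀ := by rw [hNd]; rfl
        have n3 : N l 3 = om X l.succ.succ q y₁ := by rw [hNd]; rfl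
        change N l 0 * c 0 0 0 + N l 1 * c 0 0 1 + N l 2 * c 0 0 2 + N l 3 * c 0 0 3 =
          om X l.succ.succ x₀ y₀ at k00
        change N l 0 * c 0 1 0 + N l 1 * c 0 1 1 + N l 2 * c 0 1 2 + N l 3 * c 0 1 3 =
          om X l.succ.succ x₀ y₁ at k01
        change N l 0 * c 1 0 0 + N l 1 * c 1 0 1 + N l 2 * c 1 0 2 + N l 3 * c 1 0 3 =
          om X l.succ.succ x₁ y₀ at k10
        change N l 0 * c 1 1 0 + N l 1 * c 1 1 1 + N l 2 * c 1 1 2 + N l 3 * c 1 1 3 =
          om X l.succ.succ x₁ y₁ at k11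
        have e1 : om X l.succ.succ u v =
            x 0 * y 0 * om X l.succ.succ x₀ y₀ + x 0 * y 1 * om X l.succ.succ x₀ y₁ +
            x 1 * y 0 * om X l.succ.succ x₁ y₀ + x 1 * y 1 * om X l.succ.succ x₁ y₁ -
            t * (x 0 * om X l.succ.succ x₀ q + x 1 * om X l.succ.succ x₁ q) -
            s * (y 0 * om X l.succ.succ q y₀ + y 1 * om X l.succ.succ q y₁) := by
          unfold om
          rw [hsu, hsv, hu', hv']
          ring
        rw [e1, ← n0, ← n1, ← n2, ← n3, ← k00, ← k01, ← k10, ← k11]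
        linear_combination N l 0 * t0 + N l 1 * t1 + N l 2 * s0 + N l 3 * s1

end Pool.MP_2cf74a
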