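import Pool.Agent.Lib.MP_2cf74a_ag.TR.QBas
import Pool.Agent.Lib.MP_2cf74a_ag.TR.QDir
import Pool.Agent.Lib.MP_2cf74a_ag.TR.QSol
import Pool.Agent.Lib.MP_2cf74a_ag.TR.GPd

/-!
ROW QDense (about 90 lines).  PROOF IN WORDS.
Two steps, each by closure (closure_closure): (1) the X for which the four vectors of QBas are in general position
are dense: exists_direction 4 3 gives V; move the entries X i 6, X i 0, X i 1 (i = 2..5) by t V; outside a finite set of t it is
in general position (as in TR/Unif).  (2) For such X take an adapted basis (exists_adapted), Z from exists_dir; X + t Z has the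
same columns 0, 1, 6, so the same basis is adapted; its matrix of forms is N + t 1 (om is linear in X), whose determinant
is a nonzero polynomial in t (Matrix.charpoly of -N, or Polynomial.coeff_det_X_add_C_card), so nonzero for small t != 0; iso_of_adapted.
-/

open Finset

namespace Pool.MP_2cf74a

private theorem qd_lin (X Z : Fin 6 → Fin 7 → ℝ) (t : ℝ) (L : Fin 6) (u v : Fin 6 → ℝ) :
    om (fun i j => X i j + t * Z i j) L u v = om X L u v + t * om Z L u v := by
  unfold om
  have h : ∀ w : Fin 6 → ℝ, ∑ i ∈ univ.erase L, w i * (X i L.castSucc + t * Z i L.castSucc) =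
      ∑ i ∈ univ.erase L, w i * X i L.castSucc + t * ∑ i ∈ univ.erase L, w i * Z i L.castSucc := by
    intro w
    rw [mul_sum, ← sum_add_distrib]
    exact sum_congr rfl fun i _ => by ring
  rw [h u, h v]
  ring

private theorem qd_det (N : Matrix (Fin 4) (Fin 4) ℝ) :
    ∃ F : Finset ℝ, ∀ t : ℝ, t ∉ F → (t • (1 : Matrix (Fin 4) (Fin 4) ℝ) + N).det ≠ 0 := by
  obtain ⟨P, hP⟩ : ∃ P : Polynomial ℝ, P = Matrix.det ((Polynomial.X : Polynomial ℝ) •
      (1 : Matrix (Fin 4) (Fin 4) ℝ).map Polynomial.C + N.map Polynomial.C) := ⟨_, rfl⟩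
  have hP0 : P ≠ 0 := by
    intro h0
    have h1 := Polynomial.coeff_det_X_add_C_card (1 : Matrix (Fin 4) (Fin 4) ℝ) N
    rw [← hP, h0, Polynomial.coeff_zero, Matrix.det_one] at h1
    exact zero_ne_one h1
  refine ⟨P.roots.toFinset, fun t ht => ?_⟩
  have hev : P.eval t ≠ 0 := by
    intro h
    apply ht
    rw [Multiset.mem_toFinset, Polynomial.mem_roots hP0]
    exact h
  have hev2 : P.eval t = Matrix.det (t • (1 : Matrix (Fin 4) (Fin 4) ℝ) + N) := by
    rw [hP, ← Polynomial.coe_evalRingHom, RingHom.map_det]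
    congr 1
    ext a b
    simp only [Matrix.map_apply, RingHom.mapMatrix_apply, Matrix.add_apply, Matrix.smul_apply,
      smul_eq_mul, Polynomial.coe_evalRingHom, Polynomial.eval_add, Polynomial.eval_mul,
      Polynomial.eval_X, Polynomial.eval_C]
  rw [← hev2]
  exact hev

private theorem qd_lim {X : Fin 6 → Fin 7 → ℝ} (Z : Fin 6 → Fin 7 → ℝ) (F : Finset ℝ)
    {S : Set (Fin 6 → Fin 7 → ℝ)} (h : ∀ t : ℝ, t ∉ F → (fun i j => X i j + t * Z i j) ∈ S) :
    X ∈ closure S := by
  have hcont : Continuous (fun t : ℝ => fun (i : Fin 6) (j : Fin 7) => X i j + t * Z i j) := by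
    fun_prop
  have h0 : (fun (i : Fin 6) (j : Fin 7) => X i j + 0 * Z i j) = X := by
    funext i j
    simp
  have ht : Filter.Tendsto (fun t : ℝ => fun (i : Fin 6) (j : Fin 7) => X i j + t * Z i j)
      (nhdsWithin 0 {0}ᶜ) (nhds X) := by
    have h1 := hcont.tendsto 0
    rw [h0] at h1
    exact h1.mono_left nhdsWithin_le_nhds
  refine mem_closure_of_tendsto ht ?_
  have hfin : ((F : Set ℝ) \ {0}).Finite := F.finite_toSet.subset Set.sdiff_subset
  have hnb : (((F : Set ℝ) \ {0})ᶜ : Set ℝ) ∈ nhds (0 : ℝ) :=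
    hfin.isClosed.isOpen_compl.mem_nhds (fun h1 => h1.2 rfl)
  filter_upwards [mem_nhdsWithin_of_mem_nhds hnb, self_mem_nhdsWithin] with t h1 h2
  exact h t fun h4 => h1 ⟨h4, h2⟩

private theorem qd_gp : Dense {X : Fin 6 → Fin 7 → ℝ | GP (fun (i : Fin 4) (a : Fin 3) =>
    ![X i.succ.succ 6, X i.succ.succ 0, X i.succ.succ 1] a)} := by
  intro X
  obtain ⟨V, hV⟩ := exists_direction 4 3
  obtain ⟨F, hF⟩ := hV (fun (i : Fin 4) (a : Fin 3) =>
    ![X i.succ.succ 6, X i.succ.succ 0, X i.succ.succ 1] a)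
  refine qd_lim (Fin.cons 0 (Fin.cons 0 (fun l : Fin 4 => fun j : Fin 7 =>
    if j = 6 then V l 0 else if j = 0 then V l 1 else if j = 1 then V l 2 else 0))) F
    (fun t ht => ?_)
  have h1 := hF t ht
  have h2 : (fun (i : Fin 4) (a : Fin 3) =>
      ![X i.succ.succ 6, X i.succ.succ 0, X i.succ.succ 1] a + t * V i a) =
      (fun (i : Fin 4) (a : Fin 3) => ![X i.succ.succ 6 + t * (if (6 : Fin 7) = 6 then V i 0
        else if (6 : Fin 7) = 0 then V i 1 else if (6 : Fin 7) = 1 then V i 2 else 0),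
        X i.succ.succ 0 + t * (if (0 : Fin 7) = 6 then V i 0
        else if (0 : Fin 7) = 0 then V i 1 else if (0 : Fin 7) = 1 then V i 2 else 0),
        X i.succ.succ 1 + t * (if (1 : Fin 7) = 6 then V i 0
        else if (1 : Fin 7) = 0 then V i 1 else if (1 : Fin 7) = 1 then V i 2 else 0)] a) := by
    funext i a
    fin_cases a
    · rfl
    · simp
    · simp
  rw [h2] at h1
  exact h1

/-- The data with an isotropic pair are dense. -/
theorem dense_iso : Dense {X : Fin 6 → Fin 7 → ℝ | Iso X} := by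
  refine dense_closure.1 (qd_gp.mono ?_)
  intro X hX
  obtain ⟨q, x₀, x₁, y₀, y₁, h⟩ := exists_adapted X hX
  obtain ⟨Z, hZ0, hZ⟩ := exists_dir h
  obtain ⟨F, hF⟩ := qd_det (Matrix.of fun (l : Fin 4) (a : Fin 4) => ![om X l.succ.succ x₀ q,
    om X l.succ.succ x₁ q, om X l.succ.succ q y₀, om X l.succ.succ q y₁] a)
  refine qd_lim Z F (fun t ht => ?_)
  have hs : ∀ (s : Finset (Fin 6)) (w : Fin 6 → ℝ) (j : Fin 7), (∀ i, Z i j = 0) →
      ∑ i ∈ s, w i * (X i j + t * Z i j) = ∑ i ∈ s, w i * X i j := by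
    intro s w j hj
    refine sum_congr rfl fun i _ => ?_
    rw [hj i, mul_zero, add_zero]
  have h' : Adapted (fun i j => X i j + t * Z i j) q x₀ x₁ y₀ y₁ := by
    refine ⟨h.indep, h.q0, h.q1, h.qne, ?_, ?_, ?_⟩
    · intro w hw
      have h1 := h.last w hw
      rw [← hs univ w 6 (fun i => (hZ0 i).2.2)] at h1
      exact h1
    · intro w hw
      have h1 := h.left w hw
      refine ⟨h1.1, ?_⟩
      have h2 := h1.2
      rw [← hs (univ.erase 0) w 0 (fun i => (hZ0 i).1)] at h2
      exact h2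
    · intro w hw
      have h1 := h.right w hw
      refine ⟨h1.1, ?_⟩
      have h2 := h1.2
      rw [← hs (univ.erase 1) w 1 (fun i => (hZ0 i).2.1)] at h2
      exact h2
  refine iso_of_adapted h' ?_
  have hM : (Matrix.of fun (l : Fin 4) (a : Fin 4) =>
      ![om (fun i j => X i j + t * Z i j) l.succ.succ x₀ q,
        om (fun i j => X i j + t * Z i j) l.succ.succ x₁ q,
        om (fun i j => X i j + t * Z i j) l.succ.succ q y₀,
        om (fun i j => X i j + t * Z i j) l.succ.succ q y₁] a) =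
      t • (1 : Matrix (Fin 4) (Fin 4) ℝ) + (Matrix.of fun (l : Fin 4) (a : Fin 4) =>
        ![om X l.succ.succ x₀ q, om X l.succ.succ x₁ q, om X l.succ.succ q y₀,
          om X l.succ.succ q y₁] a) := by
    ext l a
    have h1 := congrFun (hZ l) a
    have h2 : (1 : Matrix (Fin 4) (Fin 4) ℝ) l a = (Pi.single l (1 : ℝ) : Fin 4 → ℝ) a := by
      rw [Matrix.one_apply, Pi.single_apply]
      by_cases hla : l = a
      · rw [if_pos hla, if_pos hla.symm]
      · rw [if_neg hla, if_neg (Ne.symm hla)]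
    rw [Matrix.add_apply, Matrix.smul_apply, h2, ← h1, smul_eq_mul, Matrix.of_apply,
      Matrix.of_apply]
    simp only [qd_lin]
    fin_cases a
    · show _ + _ = t * _ + _
      exact add_comm _ _
    · show _ + _ = t * _ + _
      exact add_comm _ _
    · show _ + _ = t * _ + _
      exact add_comm _ _
    · show _ + _ = t * _ + _
      exact add_comm _ _
  rw [hM]
  exact hF t ht

end Pool.MP_2cf74a
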