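import Pool.Agent.Lib.MP_2cf74a_ag.TR.Block

/-!
ROW RowCol (about 50 lines).  PROOF IN WORDS.
good_row: if i in T then insert i T = T.  Otherwise good_block with S = {i}, s = 0.  good_col: good_swap and good_row
for the transposed pattern.  good_cols: induction on the finset D of new columns.
-/

open Finset

namespace Pool.MP_2cf74a

/-- Adding one row with at most `R` specified entries. -/
theorem good_row {m n : ℕ} {E : Finset (Fin m × Fin n)} {R : ℕ} {T : Finset (Fin m)}
    {J : Finset (Fin n)} {i : Fin m} (h : Good E R T J)
    (hc : (J.filter (fun j => (i, j) ∈ E)).card ≤ R) : Good E R (insert i T) J := by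
  by_cases hi : i ∈ T
  · rw [insert_eq_of_mem hi]
    exact h
  · have hc' : (J.filter (fun j => ∀ i' ∈ ({i} : Finset (Fin m)), (i', j) ∈ E)).card ≤ R + 0 := by
      simp only [mem_singleton, forall_eq]
      exact hc
    have h1 := good_block h (disjoint_singleton_right.2 hi) (card_singleton i) hc'
    rw [union_comm, ← insert_eq] at h1
    exact h1

/-- Adding one column with at most `R` specified entries. -/
theorem good_col {m n : ℕ} {E : Finset (Fin m × Fin n)} {R : ℕ} {T : Finset (Fin m)}
    {J : Finset (Fin n)} {j : Fin n} (h : Good E R T J)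
    (hc : (T.filter (fun i => (i, j) ∈ E)).card ≤ R) : Good E R T (insert j J) := by
  have h1 : Good (E.image Prod.swap) R J T := good_swap.2 h
  refine good_swap.1 (good_row h1 ?_)
  have h2 : ∀ i, (j, i) ∈ E.image Prod.swap ↔ (i, j) ∈ E := by
    intro i
    rw [mem_image]
    constructor
    · rintro ⟨⟨p, q⟩, hp, hpq⟩
      rw [Prod.swap_prod_mk, Prod.mk.injEq] at hpq
      obtain ⟨rfl, rfl⟩ := hpq
      exact hp
    · intro hp
      exact ⟨(i, j), hp, rfl⟩
  simp only [h2]
  exact hc

/-- Adding columns with at most `R` specified entries each. -/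
theorem good_cols {m n : ℕ} {E : Finset (Fin m × Fin n)} {R : ℕ} {T : Finset (Fin m)}
    {J D : Finset (Fin n)} (h : Good E R T J)
    (hc : ∀ j ∈ D, (T.filter (fun i => (i, j) ∈ E)).card ≤ R) : Good E R T (J ∪ D) := by
  induction D using Finset.induction_on with
  | empty =>
    rw [union_empty]
    exact h
  | insert j D hj ih =>
    rw [union_insert]
    exact good_col (ih fun k hk => hc k (mem_insert_of_mem hk)) (hc j (mem_insert_self j D))

end Pool.MP_2cf74a
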