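import Pool.Agent.Lib.MP_2cf74a_ag.TR.GPd

/-!
ROW Unif (about 60 lines).  PROOF IN WORDS.
It is enough that every X with Fac E R T J X is in the closure of the target set (closure_mono,
closure_closure, dense_iff_closure_eq).  Let A, B be the factors, V, W the directions of exists_direction for
A and for the transposed B.  Put A_t = A + tV, B_t = B + tW and
X_t i j = X i j + (sum_a A_t i a * B_t a j - sum_a A i a * B a j).
X_t is continuous in t, X_0 = X, and for i in T, j in J, (i,j) in E: sum_a A_t i a * B_t a j = X_t i j.  For t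
outside a finite set A_t and B_t are in general position, so X_t lies in the target for all t near 0,
t != 0 (a finite set does not accumulate: Set.Finite.isClosed, or eventually in nhdsWithin 0 {0}^c).  Use
mem_closure_of_tendsto.
-/

open Finset

namespace Pool.MP_2cf74a

/-- Data completable by factors in general position are dense as soon as completable data are. -/
theorem good_gp {m n : ℕ} {E : Finset (Fin m × Fin n)} {R : ℕ} {T : Finset (Fin m)}
    {J : Finset (Fin n)} (h : Good E R T J) :
    Dense {X : Fin m → Fin n → ℝ | ∃ (A : Fin m → Fin R → ℝ) (B : Fin R → Fin n → ℝ),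
      GP A ∧ GP (fun j a => B a j) ∧
        ∀ i ∈ T, ∀ j ∈ J, (i, j) ∈ E → ∑ a, A i a * B a j = X i j} := by
  refine dense_closure.1 (h.mono ?_)
  rintro X ⟨A, B, hAB⟩
  obtain ⟨V, hV⟩ := exists_direction m R
  obtain ⟨W, hW⟩ := exists_direction n R
  obtain ⟨F, hF⟩ := hV A
  obtain ⟨F', hF'⟩ := hW (fun j a => B a j)
  have hcont : Continuous (fun t : ℝ => fun (i : Fin m) (j : Fin n) =>
      X i j + (∑ a, (A i a + t * V i a) * (B a j + t * W j a) - ∑ a, A i a * B a j)) := by
    fun_prop
  have h0 : (fun (i : Fin m) (j : Fin n) =>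
      X i j + (∑ a, (A i a + 0 * V i a) * (B a j + 0 * W j a) - ∑ a, A i a * B a j)) = X := by
    funext i j
    simp
  have ht : Filter.Tendsto (fun t : ℝ => fun (i : Fin m) (j : Fin n) =>
      X i j + (∑ a, (A i a + t * V i a) * (B a j + t * W j a) - ∑ a, A i a * B a j))
      (nhdsWithin 0 {0}ᶜ) (nhds X) := by
    have h1 := hcont.tendsto 0
    rw [h0] at h1
    exact h1.mono_left nhdsWithin_le_nhds
  refine mem_closure_of_tendsto ht ?_
  have hfin : (((F ∪ F' : Finset ℝ) : Set ℝ) \ {0}).Finite :=
    (F ∪ F').finite_toSet.subset Set.sdiff_subset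
  have hnb : ((((F ∪ F' : Finset ℝ) : Set ℝ) \ {0})ᶜ : Set ℝ) ∈ nhds (0 : ℝ) :=
    hfin.isClosed.isOpen_compl.mem_nhds (fun h1 => h1.2 rfl)
  filter_upwards [mem_nhdsWithin_of_mem_nhds hnb, self_mem_nhdsWithin] with t h1 h2
  have h3 : t ∉ F ∪ F' := fun h4 => h1 ⟨h4, h2⟩
  rw [Finset.mem_union, not_or] at h3
  refine ⟨fun i a => A i a + t * V i a, fun a j => B a j + t * W j a, hF t h3.1, hF' t h3.2,
    fun i hi j hj hij => ?_⟩
  show ∑ a, (A i a + t * V i a) * (B a j + t * W j a) = X i j + (_ - ∑ a, A i a * B a j)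
  rw [hAB i hi j hj hij]
  ring

end Pool.MP_2cf74a
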